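import Pool.Agent.Lib.NSqC.Defs
import Pool.Agent.Lib.NSqP.Count

/-!
# COUNTB: from a positive proportion of edges to many `n`

PROOF: word for word the proof of `NSqP.count_lower` (file `NSqP/Count.lean`), with
`edges g e x` replaced by `EG P x`, `signSet g e x` by `(Finset.Icc 1 x).filter P`; the only place
where `CM g` is used there is `cl_image`, which becomes: for `p ∈ EG P x` the number
`|dotG p.1 p.2|` is in `[1, x]` (`dot_cross`) and satisfies `P`.
-/

set_option autoImplicit false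

namespace Pool.Agent.NSqC

open Real
open Pool.Agent.NSqP
open Pool.Agent.MP484c84Par (ballG mem_ballG crossG dotG)

private lemma cl_mem_ball {z : GaussianInt} {x : ℕ} : z ∈ ballG x ↔ nN z ≤ x := by
  rw [mem_ballG, ← nN_cast_int]
  exact Nat.cast_le

private lemma cl_sqrt {δ : ℝ} (hδ : 0 < δ) {x : ℕ} {u : GaussianInt} (hu : u ≠ 0)
    (h : δ * x ≤ nN u) : 3 * √((x : ℝ) / nN u) ≤ 3 / √δ := by
  have hN : (0 : ℝ) < nN u := by exact_mod_cast nN_pos hu
  have h1 : (x : ℝ) / nN u ≤ 1 / δ := by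
    rw [div_le_div_iff₀ hN hδ]
    linarith
  calc 3 * √((x : ℝ) / nN u) ≤ 3 * √(1 / δ) := by gcongr
    _ = 3 / √δ := by rw [Real.sqrt_div zero_le_one, Real.sqrt_one]; ring

private lemma cl_fst {δ : ℝ} (hδ : 0 < δ) {x : ℕ} (E : Finset (GaussianInt × GaussianInt))
    (T : Finset GaussianInt) (w : GaussianInt → ℝ) (hw : ∀ u, 0 ≤ w u)
    (hE : ∀ p ∈ E, nN p.2 ≤ x ∧ crossG p.1 p.2 = 1 ∧ p.1 ∈ T)
    (hT : ∀ u ∈ T, u ≠ 0 ∧ δ * x ≤ nN u ∧ nN u ≤ x) :
    ∑ p ∈ E, w p.1 ≤ 3 / √δ * ∑ u ∈ T, w u := by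
  classical
  rw [← Finset.sum_fiberwise_of_maps_to (g := fun p => p.1) (fun p hp => (hE p hp).2.2),
    Finset.mul_sum]
  refine Finset.sum_le_sum fun u hu => ?_
  obtain ⟨hu0, hu1, hu2⟩ := hT u hu
  have hcard : ((E.filter (fun p => p.1 = u)).card : ℝ) ≤ 3 / √δ := by
    refine le_trans ?_ ((nb_count u hu0 x hu2).trans (cl_sqrt hδ hu0 hu1))
    norm_cast
    apply Finset.card_le_card_of_injOn (fun p => p.2)
    · intro p hp
      have hp' := Finset.mem_filter.1 (Finset.mem_coe.1 hp)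
      obtain ⟨h1, h2, h3⟩ := hE p hp'.1
      rw [Finset.mem_coe, Finset.mem_filter, cl_mem_ball]
      exact ⟨h1, by rw [← hp'.2]; exact h2⟩
    · intro p hp q hq h
      have hp' := Finset.mem_filter.1 (Finset.mem_coe.1 hp)
      have hq' := Finset.mem_filter.1 (Finset.mem_coe.1 hq)
      exact Prod.ext (hp'.2.trans hq'.2.symm) h
  calc ∑ p ∈ E.filter (fun p => p.1 = u), w p.1
      = ∑ p ∈ E.filter (fun p => p.1 = u), w u := by
        refine Finset.sum_congr rfl fun p hp => ?_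
        rw [(Finset.mem_filter.1 hp).2]
    _ = ((E.filter (fun p => p.1 = u)).card : ℝ) * w u := by
        rw [Finset.sum_const, nsmul_eq_mul]
    _ ≤ 3 / √δ * w u := by
        have := hw u
        gcongr

private lemma cl_snd {δ : ℝ} (hδ : 0 < δ) {x : ℕ} (E : Finset (GaussianInt × GaussianInt))
    (T : Finset GaussianInt) (w : GaussianInt → ℝ) (hw : ∀ u, 0 ≤ w u)
    (hE : ∀ p ∈ E, nN p.1 ≤ x ∧ crossG p.1 p.2 = 1 ∧ p.2 ∈ T)
    (hT : ∀ u ∈ T, u ≠ 0 ∧ δ * x ≤ nN u ∧ nN u ≤ x) :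
    ∑ p ∈ E, w p.2 ≤ 3 / √δ * ∑ u ∈ T, w u := by
  classical
  have h1 : ∑ p ∈ E, w p.2 = ∑ q ∈ E.image (fun p => (p.2, -p.1)), w q.1 := by
    rw [Finset.sum_image]
    intro p _ q _ h
    rw [Prod.mk.injEq] at h
    exact Prod.ext (neg_injective h.2) h.1
  rw [h1]
  apply cl_fst hδ _ T w hw _ hT
  intro q hq
  rw [Finset.mem_image] at hq
  obtain ⟨p, hp, rfl⟩ := hq
  obtain ⟨h2, h3, h4⟩ := hE p hp
  refine ⟨?_, ?_, h4⟩
  · have : nN (-p.1) = nN p.1 := by simp [nN, Zsqrtd.norm_def]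
    simpa [this] using h2
  · unfold crossG at h3 ⊢
    simp only [Zsqrtd.re_neg, Zsqrtd.im_neg]
    linarith

private lemma cl_cauchy (E : Finset (GaussianInt × GaussianInt)) (f : GaussianInt × GaussianInt → ℤ) :
    ((E.card : ℕ) : ℝ) ^ 2 ≤ ((E.image f).card : ℝ) *
      (((E ×ˢ E).filter (fun q => f q.1 = f q.2)).card : ℝ) := by
  classical
  have h1 : E.card = ∑ d ∈ E.image f, (E.filter (fun p => f p = d)).card :=
    Finset.card_eq_sum_card_image f E
  have h2 : (((E ×ˢ E).filter (fun q => f q.1 = f q.2)).card : ℝ) =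
      ∑ d ∈ E.image f, ((E.filter (fun p => f p = d)).card : ℝ) ^ 2 := by
    rw [Finset.card_filter, Finset.sum_product]
    push_cast
    rw [← Finset.sum_fiberwise_of_maps_to (g := f) (fun p hp => Finset.mem_image_of_mem f hp)]
    refine Finset.sum_congr rfl fun d _ => ?_
    have h3 : ∀ p ∈ E.filter (fun p => f p = d), ∑ q ∈ E, (if f p = f q then (1 : ℝ) else 0) =
        ((E.filter (fun p => f p = d)).card : ℝ) := by
      intro p hp
      rw [(Finset.mem_filter.1 hp).2, Finset.card_filter]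
      push_cast
      refine Finset.sum_congr rfl fun q _ => ?_
      by_cases h : f q = d
      · simp [h]
      · rw [if_neg (fun h' => h h'.symm), if_neg h]
    rw [Finset.sum_congr rfl h3, Finset.sum_const, nsmul_eq_mul, sq]
  rw [h2]
  have h4 : ((E.card : ℕ) : ℝ) = ∑ d ∈ E.image f, ((E.filter (fun p => f p = d)).card : ℝ) := by
    rw [h1]; push_cast; rfl
  rw [h4]
  exact sq_sum_le_card_mul_sum_sq

open Classical in
private lemma cl_image (P : ℕ → Prop) (x : ℕ)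
    (E : Finset (GaussianInt × GaussianInt)) (hE : E ⊆ EG P x) :
    (E.image (fun p => dotG p.1 p.2)).card ≤ 2 * ((Finset.Icc 1 x).filter P).card := by
  have hmaps : ∀ d ∈ E.image (fun p => dotG p.1 p.2), d.natAbs ∈ (Finset.Icc 1 x).filter P := by
    intro d hd
    rw [Finset.mem_image] at hd
    obtain ⟨p, hp, rfl⟩ := hd
    obtain ⟨h1', h2', h3, h4, h5⟩ := mem_EG.1 (hE hp)
    have h1 := mem_ballG.1 (cl_mem_ball.2 h1')
    have h2 := mem_ballG.1 (cl_mem_ball.2 h2')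
    have hdc := MP484c84Par.dot_cross p.1 p.2
    rw [h3] at hdc
    have hnn : p.1.norm * p.2.norm ≤ x * x :=
      mul_le_mul h1 h2 (MP484c84Par.norm_nonneg' _) (by positivity)
    rw [Finset.mem_filter, Finset.mem_Icc]
    refine ⟨⟨by omega, ?_⟩, h5⟩
    have : (dotG p.1 p.2).natAbs ^ 2 ≤ x ^ 2 := by
      have : ((dotG p.1 p.2).natAbs ^ 2 : ℤ) ≤ x ^ 2 := by
        rw [Int.natCast_natAbs, sq_abs]; nlinarith
      exact_mod_cast this
    exact (Nat.pow_le_pow_iff_left (by norm_num)).1 this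
  refine Finset.card_le_mul_card_image_of_maps_to hmaps 2 ?_
  intro n _
  have hsub : (E.image (fun p => dotG p.1 p.2)).filter (fun d => d.natAbs = n) ⊆
      {(n : ℤ), -(n : ℤ)} := by
    intro d hd
    have h := (Finset.mem_filter.1 hd).2
    rw [Finset.mem_insert, Finset.mem_singleton]
    omega
  exact (Finset.card_le_card hsub).trans Finset.card_le_two

private lemma cl_ann {x : ℕ} {u : GaussianInt} (hu : u ≠ 0) (h : nN u ≤ x) :
    u ∈ ann 0 (x : ℝ) := by
  rw [mem_ann (Nat.cast_nonneg x)]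
  exact ⟨by exact_mod_cast nN_pos hu, by exact_mod_cast h⟩

private lemma cl_large (A B : ℝ) (hB : 0 < B) :
    ∀ᶠ t : ℝ in Filter.atTop, A * (1 + t) ^ 2 ≤ B * exp (3 / 1000 * t) := by
  have h3 : ∀ k : ℕ, Filter.Tendsto (fun t : ℝ => t ^ k * exp (-(3 / 1000 * t))) Filter.atTop
      (nhds 0) := by
    intro k
    have h4 := (Real.tendsto_pow_mul_exp_neg_atTop_nhds_zero k).comp
      (Filter.tendsto_id.const_mul_atTop (show (0 : ℝ) < 3 / 1000 by norm_num))
    have h5 := h4.const_mul ((1000 / 3 : ℝ) ^ k)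
    rw [mul_zero] at h5
    refine h5.congr fun t => ?_
    simp only [Function.comp, id]
    rw [← mul_assoc, ← mul_pow]
    congr 2
    ring
  have h6 := ((h3 0).add ((h3 1).const_mul 2)).add (h3 2)
  rw [mul_zero, add_zero, add_zero] at h6
  have h2 := h6.const_mul A
  rw [mul_zero] at h2
  filter_upwards [h2.eventually (gt_mem_nhds hB)] with t ht
  have h4 : 0 < exp (3 / 1000 * t) := Real.exp_pos _
  have h5 : exp (-(3 / 1000 * t)) * exp (3 / 1000 * t) = 1 := by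
    rw [← Real.exp_add]; simp
  calc A * (1 + t) ^ 2 = (A * (t ^ 0 * exp (-(3 / 1000 * t)) + 2 * (t ^ 1 * exp (-(3 / 1000 * t))) +
        t ^ 2 * exp (-(3 / 1000 * t)))) * exp (3 / 1000 * t) := by
        have : (A * (t ^ 0 * exp (-(3 / 1000 * t)) + 2 * (t ^ 1 * exp (-(3 / 1000 * t))) +
          t ^ 2 * exp (-(3 / 1000 * t)))) * exp (3 / 1000 * t) =
          A * (1 + 2 * t + t ^ 2) * (exp (-(3 / 1000 * t)) * exp (3 / 1000 * t)) := by ring
        rw [this, h5]; ring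
    _ ≤ B * exp (3 / 1000 * t) := by gcongr

/-- the final computation -/
private lemma cl_final {c x t S K ε P I n : ℝ} (hc : 0 < c) (hx : 0 < x) (ht : 0 ≤ t) (hK : 0 < K)
    (hS : 0 ≤ S) (hε : ε = 1 / 200)
    (hbig : 8 * K * (1 + t) ^ 2 ≤ c ^ 2 * exp (3 / 1000 * t))
    (h1 : c / 2 * x ≤ n) (h2 : n ^ 2 ≤ I * P) (hI : I ≤ 2 * S) (hP0 : 0 ≤ P)
    (hP : P ≤ K * (exp ((1 + ε) * t * log 2) * x * (1 + t) ^ 2)) :
    x ≤ S * exp (7 / 10 * t) := by
  have hlog2 : log 2 < 0.6931471808 := Real.log_two_lt_d9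
  have hexp : exp ((1 + ε) * t * log 2) ≤ exp (697 / 1000 * t) := by
    apply Real.exp_le_exp.2
    have h3 : (1 + ε) * t * log 2 = t * ((1 + ε) * log 2) := by ring
    have h4 : (1 + ε) * log 2 ≤ 697 / 1000 := by rw [hε]; linarith
    rw [h3, mul_comm]
    exact mul_le_mul_of_nonneg_right h4 ht
  have h5 : (c / 2 * x) ^ 2 ≤ n ^ 2 := pow_le_pow_left₀ (by positivity) h1 2
  have h6 : I * P ≤ (2 * S) * P := mul_le_mul_of_nonneg_right hI hP0
  have h7 : (2 * S) * P ≤ (2 * S) * (K * (exp (697 / 1000 * t) * x * (1 + t) ^ 2)) := by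
    apply mul_le_mul_of_nonneg_left _ (by positivity)
    refine hP.trans (mul_le_mul_of_nonneg_left ?_ hK.le)
    exact mul_le_mul_of_nonneg_right (mul_le_mul_of_nonneg_right hexp hx.le) (by positivity)
  have h8 : x * (c ^ 2 * x) ≤ x * (8 * K * (1 + t) ^ 2 * exp (697 / 1000 * t) * S) := by
    have h9 := h5.trans (h2.trans (h6.trans h7))
    have h10 : (c / 2 * x) ^ 2 = x * (c ^ 2 * x) / 4 := by ring
    have h11 : (2 * S) * (K * (exp (697 / 1000 * t) * x * (1 + t) ^ 2)) =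
        x * (8 * K * (1 + t) ^ 2 * exp (697 / 1000 * t) * S) / 4 := by ring
    rw [h10, h11] at h9
    linarith
  have h9 := le_of_mul_le_mul_left h8 hx
  have h10 : 8 * K * (1 + t) ^ 2 * exp (697 / 1000 * t) * S ≤
      c ^ 2 * exp (3 / 1000 * t) * exp (697 / 1000 * t) * S :=
    mul_le_mul_of_nonneg_right (mul_le_mul_of_nonneg_right hbig (Real.exp_pos _).le) hS
  have h11 : c ^ 2 * exp (3 / 1000 * t) * exp (697 / 1000 * t) * S =
      c ^ 2 * (S * exp (7 / 10 * t)) := by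
    rw [mul_assoc (c ^ 2), ← Real.exp_add,
      show 3 / 1000 * t + 697 / 1000 * t = 7 / 10 * t by ring]
    ring
  rw [h11] at h10
  exact le_of_mul_le_mul_left (h9.trans h10) (by positivity)

open Classical in
theorem count_lowerB (c : ℝ) (hc : 0 < c) : ∃ x0 : ℕ, ∀ x : ℕ, x0 ≤ x → ∀ P : ℕ → Prop,
    c * x ≤ ((EG P x).card : ℝ) →
      (x : ℝ) / (log x) ^ ((7 : ℝ) / 10) ≤ (((Finset.Icc 1 x).filter P).card : ℝ) := by
  obtain ⟨C1, hC1, hsm⟩ := small_edges
  set ε : ℝ := 1 / 200 with hε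
  obtain ⟨C2, hC2, htyp⟩ := TYP ε (by rw [hε]; norm_num)
  obtain ⟨δ, hδ0, hδ1, hδC⟩ : ∃ δ : ℝ, 0 < δ ∧ δ ≤ 1 ∧ C1 * √δ ≤ c / 8 := by
    refine ⟨min 1 ((c / (8 * C1)) ^ 2), by positivity, min_le_left _ _, ?_⟩
    have h1 : √(min 1 ((c / (8 * C1)) ^ 2)) ≤ c / (8 * C1) := by
      rw [Real.sqrt_le_left (by positivity)]
      exact min_le_right _ _
    calc C1 * √(min 1 ((c / (8 * C1)) ^ 2)) ≤ C1 * (c / (8 * C1)) := by gcongr
      _ = c / 8 := by field_simp
  obtain ⟨C3, hC3, hpc⟩ := pair_count δ hδ0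
  obtain ⟨C4, hC4, hrs⟩ := RSUM
  have hsδ : 0 < √δ := Real.sqrt_pos.2 hδ0
  set K : ℝ := C3 * (2 * (3 / √δ * C4)) with hK
  have hK0 : 0 < K := by positivity
  -- large `x`
  have hev : ∀ᶠ t : ℝ in Filter.atTop, 8 * K * (1 + t) ^ 2 ≤ c ^ 2 * exp (3 / 1000 * t) ∧
      1 ≤ t ∧ 24 * C2 / (√δ * c) ≤ t :=
    (cl_large (8 * K) (c ^ 2) (by positivity)).and
      ((Filter.eventually_ge_atTop 1).and (Filter.eventually_ge_atTop _))
  have hLL : Filter.Tendsto (fun x : ℕ => log (log (x : ℝ))) Filter.atTop Filter.atTop :=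
    Real.tendsto_log_atTop.comp (Real.tendsto_log_atTop.comp tendsto_natCast_atTop_atTop)
  obtain ⟨x1, hx1⟩ := Filter.eventually_atTop.1 (hLL.eventually hev)
  refine ⟨max x1 16, fun x hx P hE => ?_⟩
  obtain ⟨hbig, ht1, htC⟩ := hx1 x ((le_max_left _ _).trans hx)
  have hx16 : (16 : ℝ) ≤ x := by exact_mod_cast (le_max_right _ _).trans hx
  have hx0 : (0 : ℝ) < x := by linarith
  set t : ℝ := log (log (x : ℝ)) with ht
  have hlogx : 0 < log (x : ℝ) := Real.log_pos (by linarith)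
  have ht0 : 0 < t := by linarith
  -- the good edges
  set T : Finset GaussianInt := (ann 0 (x : ℝ)).filter
    (fun u => δ * x ≤ nN u ∧ (OmG u : ℝ) ≤ (1 + ε) * t) with hT
  set T' : Finset GaussianInt := (ann 0 (x : ℝ)).filter
    (fun u => δ * x ≤ nN u ∧ (1 + ε) * t < (OmG u : ℝ)) with hT'
  have hTm : ∀ u ∈ T, u ≠ 0 ∧ δ * x ≤ nN u ∧ nN u ≤ x := by
    intro u hu
    rw [hT, Finset.mem_filter] at hu
    refine ⟨ne_zero_of_mem_ann le_rfl hu.1, hu.2.1, ?_⟩
    have := ((mem_ann hx0.le).1 hu.1).2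
    exact_mod_cast this
  have hTm' : ∀ u ∈ T', u ≠ 0 ∧ δ * x ≤ nN u ∧ nN u ≤ x := by
    intro u hu
    rw [hT', Finset.mem_filter] at hu
    refine ⟨ne_zero_of_mem_ann le_rfl hu.1, hu.2.1, ?_⟩
    have := ((mem_ann hx0.le).1 hu.1).2
    exact_mod_cast this
  have hTcard : (T'.card : ℝ) ≤ C2 * x / t := by
    refine le_trans ?_ (htyp x hx16)
    norm_cast
    apply Finset.card_le_card
    intro u hu
    rw [hT', Finset.mem_filter] at hu
    rw [Finset.mem_filter]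
    exact ⟨hu.1, hu.2.2⟩
  set E := EG P x with hEdef
  set E1 := E.filter (fun p => p.1 ∈ T ∧ p.2 ∈ T) with hE1
  have hmem : ∀ p ∈ E, nN p.1 ≤ x ∧ nN p.2 ≤ x ∧ crossG p.1 p.2 = 1 ∧ p.1 ≠ 0 ∧ p.2 ≠ 0 := by
    intro p hp
    obtain ⟨h1, h2, h3, h4, h5⟩ := mem_EG.1 hp
    obtain ⟨hv, hw⟩ := MP484c84Par.ne_zero_of_cross h3
    exact ⟨h1, h2, h3, hv, hw⟩
  have hall : E ⊆ allEdges x := by
    intro p hp
    obtain ⟨h1, h2, h3, -, -⟩ := hmem p hp
    unfold allEdges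
    rw [Finset.mem_filter, Finset.mem_product]
    exact ⟨⟨cl_mem_ball.2 h1, cl_mem_ball.2 h2⟩, h3⟩
  set A1 := E.filter (fun p => (nN p.1 : ℝ) ≤ δ * x) with hA1
  set A2 := E.filter (fun p => (nN p.2 : ℝ) ≤ δ * x) with hA2
  set B1 := E.filter (fun p => p.1 ∈ T') with hB1
  set B2 := E.filter (fun p => p.2 ∈ T') with hB2
  have hA1c : (A1.card : ℝ) ≤ c / 8 * x := by
    have h1 := (hsm x δ hδ0 hδ1).1
    have h2 : (A1.card : ℝ) ≤ C1 * √δ * x := by
      refine le_trans ?_ h1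
      norm_cast
      exact Finset.card_le_card (Finset.filter_subset_filter _ hall)
    refine h2.trans ?_
    gcongr
  have hA2c : (A2.card : ℝ) ≤ c / 8 * x := by
    have h1 := (hsm x δ hδ0 hδ1).2
    have h2 : (A2.card : ℝ) ≤ C1 * √δ * x := by
      refine le_trans ?_ h1
      norm_cast
      exact Finset.card_le_card (Finset.filter_subset_filter _ hall)
    refine h2.trans ?_
    gcongr
  have hbnd : 3 / √δ * (C2 * x / t) ≤ c / 8 * x := by
    rw [div_le_iff₀ (by positivity)] at htC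
    have h3 : 3 / √δ * (C2 * x / t) = (3 * C2 * x) / (√δ * t) := by
      field_simp
    rw [h3, div_le_iff₀ (by positivity)]
    nlinarith
  have hB1c : (B1.card : ℝ) ≤ c / 8 * x := by
    have h1 := cl_fst hδ0 (x := x) B1 T' (fun _ => (1 : ℝ)) (fun _ => zero_le_one) (by
      intro p hp
      rw [hB1, Finset.mem_filter] at hp
      obtain ⟨h1, h2, h3, -, -⟩ := hmem p hp.1
      exact ⟨h2, h3, hp.2⟩) hTm'
    simp only [Finset.sum_const, nsmul_eq_mul, mul_one] at h1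
    refine h1.trans (le_trans ?_ hbnd)
    gcongr
  have hB2c : (B2.card : ℝ) ≤ c / 8 * x := by
    have h1 := cl_snd hδ0 (x := x) B2 T' (fun _ => (1 : ℝ)) (fun _ => zero_le_one) (by
      intro p hp
      rw [hB2, Finset.mem_filter] at hp
      obtain ⟨h1, h2, h3, -, -⟩ := hmem p hp.1
      exact ⟨h1, h3, hp.2⟩) hTm'
    simp only [Finset.sum_const, nsmul_eq_mul, mul_one] at h1
    refine h1.trans (le_trans ?_ hbnd)
    gcongr
  have hcover : E ⊆ E1 ∪ (A1 ∪ (A2 ∪ (B1 ∪ B2))) := by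
    intro p hp
    obtain ⟨h1, h2, h3, hv, hw⟩ := hmem p hp
    simp only [Finset.mem_union, hE1, hA1, hA2, hB1, hB2, hT, hT', Finset.mem_filter]
    have ha1 := cl_ann hv h1
    have ha2 := cl_ann hw h2
    by_cases q1 : (nN p.1 : ℝ) ≤ δ * x
    · right; left; exact ⟨hp, q1⟩
    by_cases q2 : (nN p.2 : ℝ) ≤ δ * x
    · right; right; left; exact ⟨hp, q2⟩
    rw [not_le] at q1 q2
    by_cases q3 : (OmG p.1 : ℝ) ≤ (1 + ε) * t
    · by_cases q4 : (OmG p.2 : ℝ) ≤ (1 + ε) * t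
      · left; exact ⟨hp, ⟨ha1, q1.le, q3⟩, ⟨ha2, q2.le, q4⟩⟩
      · right; right; right; right
        exact ⟨hp, ha2, q2.le, not_le.1 q4⟩
    · right; right; right; left
      exact ⟨hp, ha1, q1.le, not_le.1 q3⟩
  have hE1c : c / 2 * x ≤ (E1.card : ℝ) := by
    have h1 := (Finset.card_le_card hcover).trans (Finset.card_union_le _ _)
    have h2 : (A1 ∪ (A2 ∪ (B1 ∪ B2))).card ≤ A1.card + (A2.card + (B1.card + B2.card)) := by
      refine (Finset.card_union_le _ _).trans ?_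
      gcongr
      refine (Finset.card_union_le _ _).trans ?_
      gcongr
      exact Finset.card_union_le _ _
    have h3 : (E.card : ℝ) ≤ E1.card + (A1.card + (A2.card + (B1.card + B2.card))) := by
      exact_mod_cast h1.trans (Nat.add_le_add_left h2 _)
    linarith
  -- the pairs
  have hpairs := hpc x E1 hx0 (by
    intro p hp
    rw [hE1, Finset.mem_filter] at hp
    obtain ⟨h1, h2, h3, hv, hw⟩ := hmem p hp.1
    obtain ⟨-, h4, -⟩ := hTm p.1 hp.2.1
    obtain ⟨-, h5, -⟩ := hTm p.2 hp.2.2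
    exact ⟨h3, h4, by exact_mod_cast h1, h5, by exact_mod_cast h2⟩)
  have hRT : ∑ u ∈ T, (Rk u : ℝ) ≤ exp ((1 + ε) * t * log 2) * (C4 * x * (1 + t) ^ 2) := by
    calc ∑ u ∈ T, (Rk u : ℝ) ≤ ∑ u ∈ T, exp ((1 + ε) * t * log 2) * (hh u * Rk u) := by
          refine Finset.sum_le_sum fun u hu => ?_
          rw [hT, Finset.mem_filter] at hu
          have h1 : (2 : ℝ) ^ OmG u ≤ exp ((1 + ε) * t * log 2) := by
            calc (2 : ℝ) ^ OmG u = exp ((OmG u : ℝ) * log 2) := by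
                  rw [Real.exp_nat_mul, Real.exp_log (by norm_num)]
              _ ≤ exp ((1 + ε) * t * log 2) := by
                  have : 0 < log 2 := Real.log_pos (by norm_num)
                  gcongr
                  exact hu.2.2
          have h2 : (2 : ℝ) ^ OmG u * hh u = 1 := by
            unfold hh; rw [← mul_pow]; norm_num
          have h3 := (hh_pos u).le
          calc (Rk u : ℝ) = ((2 : ℝ) ^ OmG u * hh u) * Rk u := by rw [h2, one_mul]
            _ = (2 : ℝ) ^ OmG u * (hh u * Rk u) := by ring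
            _ ≤ exp ((1 + ε) * t * log 2) * (hh u * Rk u) := by gcongr
      _ ≤ ∑ u ∈ ann 0 (x : ℝ), exp ((1 + ε) * t * log 2) * (hh u * Rk u) := by
          apply Finset.sum_le_sum_of_subset_of_nonneg (Finset.filter_subset _ _)
          intro u _ _
          have := (hh_pos u).le
          positivity
      _ = exp ((1 + ε) * t * log 2) * ∑ u ∈ ann 0 (x : ℝ), hh u * Rk u := by
          rw [Finset.mul_sum]
      _ ≤ _ := by
          gcongr
          exact hrs x (by linarith)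
  have hR1 := cl_fst hδ0 (x := x) E1 T (fun u => (Rk u : ℝ)) (fun _ => Nat.cast_nonneg _) (by
      intro p hp
      rw [hE1, Finset.mem_filter] at hp
      obtain ⟨h1, h2, h3, -, -⟩ := hmem p hp.1
      exact ⟨h2, h3, hp.2.1⟩) hTm
  have hR2 := cl_snd hδ0 (x := x) E1 T (fun u => (Rk u : ℝ)) (fun _ => Nat.cast_nonneg _) (by
      intro p hp
      rw [hE1, Finset.mem_filter] at hp
      obtain ⟨h1, h2, h3, -, -⟩ := hmem p hp.1
      exact ⟨h1, h3, hp.2.2⟩) hTm
  have hpairs2 : (((E1 ×ˢ E1).filter (fun q => dotG q.1.1 q.1.2 = dotG q.2.1 q.2.2)).card : ℝ) ≤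
      K * (exp ((1 + ε) * t * log 2) * x * (1 + t) ^ 2) := by
    refine hpairs.trans ?_
    rw [Finset.sum_add_distrib]
    calc C3 * (∑ p ∈ E1, (Rk p.1 : ℝ) + ∑ p ∈ E1, (Rk p.2 : ℝ))
        ≤ C3 * (3 / √δ * ∑ u ∈ T, (Rk u : ℝ) + 3 / √δ * ∑ u ∈ T, (Rk u : ℝ)) := by
          gcongr
      _ ≤ C3 * (3 / √δ * (exp ((1 + ε) * t * log 2) * (C4 * x * (1 + t) ^ 2)) +
            3 / √δ * (exp ((1 + ε) * t * log 2) * (C4 * x * (1 + t) ^ 2))) := by gcongr
      _ = K * (exp ((1 + ε) * t * log 2) * x * (1 + t) ^ 2) := by rw [hK]; ring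
  have hcs := cl_cauchy E1 (fun p => dotG p.1 p.2)
  have him := cl_image P x E1 (Finset.filter_subset _ _)
  have him' : ((E1.image (fun p => dotG p.1 p.2)).card : ℝ) ≤
      2 * (((Finset.Icc 1 x).filter P).card : ℝ) := by
    exact_mod_cast him
  set S : ℝ := (((Finset.Icc 1 x).filter P).card : ℝ) with hS
  have hS0 : 0 ≤ S := Nat.cast_nonneg _
  have hpow : (log (x : ℝ)) ^ ((7 : ℝ) / 10) = exp (7 / 10 * t) := by
    rw [Real.rpow_def_of_pos hlogx, mul_comm]
  rw [hpow, div_le_iff₀ (Real.exp_pos _)]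
  exact cl_final hc hx0 ht0.le hK0 hS0 hε hbig hE1c hcs him' (Nat.cast_nonneg _) hpairs2

end Pool.Agent.NSqC
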