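import Pool.Agent.Lib.NSqP.NbC
import Pool.Agent.Lib.MP484c84Par.Edges

/-!
# Positive proportion for all classes modulo 3: definitions

`h : ℕ → ZMod 3` is completely additive, the label of a Gaussian integer is `c + h (N z)`; an edge
(pair of determinant one) is bad when the labels add up to zero, that is when `h (n ^ 2 + 1) = c`
for the scalar product `n` of the two vectors.
-/

set_option autoImplicit false

namespace Pool.Agent.NSqC

open Real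
open Pool.Agent.NSqP
open Pool.Agent.MP484c84Par (ballG mem_ballG crossG dotG)

/-- completely additive functions with values in `Z/3` -/
def CA (h : ℕ → ZMod 3) : Prop := ∀ a b, 1 ≤ a → 1 ≤ b → h (a * b) = h a + h b

/-- the label of a Gaussian integer -/
def lb (h : ℕ → ZMod 3) (c : ZMod 3) (z : GaussianInt) : ZMod 3 := c + h (nN z)

/-- the sign `0, 1, -1` of the label `0, 1, 2` -/
noncomputable def sn (h : ℕ → ZMod 3) (c : ZMod 3) (z : GaussianInt) : ℝ :=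
  if lb h c z = 1 then 1 else if lb h c z = 2 then -1 else 0

/-- the bad edges: pairs of determinant one with labels adding up to zero -/
noncomputable def BE (h : ℕ → ZMod 3) (c : ZMod 3) (N : ℕ) : Finset (GaussianInt × GaussianInt) :=
  (ballG N ×ˢ ballG N).filter (fun p => crossG p.1 p.2 = 1 ∧ lb h c p.1 + lb h c p.2 = 0)

/-- `u` has a bad edge, or a bad pair of consecutive neighbours -/
def Star (h : ℕ → ZMod 3) (c : ZMod 3) (x : ℕ) (u : GaussianInt) : Prop :=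
  ∃ v : GaussianInt, nN v ≤ x ∧ crossG u v = 1 ∧
    (lb h c u + lb h c v = 0 ∨ (nN (v + u) ≤ x ∧ lb h c v + lb h c (v + u) = 0))

open Classical in
/-- the type of `u`: its label if this is not zero, else the label of its neighbours -/
noncomputable def ty (h : ℕ → ZMod 3) (c : ZMod 3) (x : ℕ) (u : GaussianInt) : ZMod 3 :=
  if lb h c u ≠ 0 then lb h c u else
    if ∃ v : GaussianInt, nN v ≤ x ∧ crossG u v = 1 ∧ lb h c v = 1 then 1 else 2

/-- the multiplicative function `e (h (N z) / 3)` -/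
noncomputable def f3 (h : ℕ → ZMod 3) (z : GaussianInt) : ℂ := ZMod.stdAddChar (N := 3) (h (nN z))

/-- `f ξ^m` restricted to the `z` without prime factor in the block -/
noncomputable def gk (f : GaussianInt → ℂ) (m : ℤ) (H v : ℕ) (z : GaussianInt) : ℂ :=
  open Classical in if ∀ q ∈ blk H v, ¬ q ∣ z then f z * xi z ^ m else 0

/-- statement of `HALFk`: functions of finite order do not correlate with `ξ^m`, `m ≠ 0` -/
def HALFkStmt : Prop := ∀ k : ℕ, 1 ≤ k → ∀ ε : ℝ, 0 < ε → ∃ x0 : ℝ, ∀ x : ℝ, x0 ≤ x →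
  ∀ f : GaussianInt → ℂ, CMC f → (∀ z, z ≠ 0 → f z ^ k = 1) → ∀ m : ℤ, m ≠ 0 →
    |(m : ℝ)| ≤ x ^ 2 → ∀ H v : ℕ, 1 ≤ H → ‖∑ z ∈ pann (x / 2) x, gk f m H v z‖ ≤ ε * x

/-- statement of `LVP` (group W) -/
def LVPStmt : Prop := ∀ A : ℝ, 1 ≤ A → ∃ κ : ℝ, 0 < κ ∧ ∃ C : ℝ, 0 < C ∧ ∃ b0 : ℝ, ∀ (H v : ℕ)
    (U : Finset ℤ) (f : GaussianInt → ℂ), 1 ≤ H → b0 ≤ exp ((v : ℝ) / H) →
    (∀ z, ‖f z‖ ≤ 1) → (∀ m ∈ U, |(m : ℝ)| ≤ exp (A * (v / H))) →
    (U.card : ℝ) ≤ exp (κ * (v / H)) →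
    ∑ m ∈ U, ‖Pb f H v m‖ ^ 2 ≤ C * ((blk H v).card : ℝ) * exp ((v : ℝ) / H) / (v / H)

/-- statement of `MRUk`: nonzero frequencies carry little mass -/
def MRUkStmt : Prop := ∀ k : ℕ, 1 ≤ k → ∀ ε : ℝ, 0 < ε → ∃ A : ℕ, 1 ≤ A ∧ ∃ x0 : ℝ,
  ∀ x : ℝ, x0 ≤ x → ∀ f : GaussianInt → ℂ, CMC f → (∀ z, z ≠ 0 → f z ^ k = 1) →
    ∑ m ∈ (fr ⌊x / A⌋₊).erase 0, ‖Zs f (x / 2) x m‖ ^ 2 ≤ ε * x ^ 2

/-- edges with nonzero scalar product satisfying `P` -/
noncomputable def EG (P : ℕ → Prop) (x : ℕ) : Finset (GaussianInt × GaussianInt) :=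
  open Classical in (allEdges x).filter (fun p => dotG p.1 p.2 ≠ 0 ∧ P (dotG p.1 p.2).natAbs)

/-- pairs `(n, d)`, `d ∣ n ^ 2 + 1`, both factors at most `x`, `P n` -/
noncomputable def PR (P : ℕ → Prop) (x : ℕ) : Finset (ℕ × ℕ) :=
  open Classical in ((Finset.Icc 1 x) ×ˢ (Finset.Icc 1 x)).filter
    (fun q => q.2 ∣ q.1 ^ 2 + 1 ∧ (q.1 ^ 2 + 1) / q.2 ≤ x ∧ P q.1)

/-! ## basic facts -/

lemma nN_neg' (z : GaussianInt) : nN (-z) = nN z := by
  unfold nN; rw [Zsqrtd.norm_neg]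

lemma lb_neg (h : ℕ → ZMod 3) (c : ZMod 3) (z : GaussianInt) : lb h c (-z) = lb h c z := by
  unfold lb; rw [nN_neg']

lemma lb_mul {h : ℕ → ZMod 3} (hh : CA h) (c : ZMod 3) {z w : GaussianInt} (hz : z ≠ 0)
    (hw : w ≠ 0) : lb h c (z * w) = h (nN z) + lb h c w := by
  unfold lb
  rw [nN_mul, hh _ _ (nN_pos hz) (nN_pos hw)]
  ring

lemma lb_cases (h : ℕ → ZMod 3) (c : ZMod 3) (z : GaussianInt) :
    lb h c z = 0 ∨ lb h c z = 1 ∨ lb h c z = 2 := by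
  generalize lb h c z = a
  revert a
  decide

lemma sn_cases (h : ℕ → ZMod 3) (c : ZMod 3) (z : GaussianInt) :
    sn h c z = 0 ∨ sn h c z = 1 ∨ sn h c z = -1 := by
  unfold sn
  split_ifs <;> simp

lemma abs_sn_le (h : ℕ → ZMod 3) (c : ZMod 3) (z : GaussianInt) : |sn h c z| ≤ 1 := by
  rcases sn_cases h c z with h1 | h1 | h1 <;> rw [h1] <;> norm_num

lemma sn_of_zero {h : ℕ → ZMod 3} {c : ZMod 3} {z : GaussianInt} (hz : lb h c z = 0) :
    sn h c z = 0 := by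
  unfold sn
  rw [hz]
  have h1 : (0 : ZMod 3) ≠ 1 := by decide
  have h2 : (0 : ZMod 3) ≠ 2 := by decide
  rw [if_neg h1, if_neg h2]

lemma sn_of_one {h : ℕ → ZMod 3} {c : ZMod 3} {z : GaussianInt} (hz : lb h c z = 1) :
    sn h c z = 1 := by
  unfold sn
  rw [if_pos hz]

lemma sn_of_two {h : ℕ → ZMod 3} {c : ZMod 3} {z : GaussianInt} (hz : lb h c z = 2) :
    sn h c z = -1 := by
  unfold sn
  have h1 : (2 : ZMod 3) ≠ 1 := by decide
  rw [hz, if_neg h1, if_pos rfl]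

lemma mem_ballG' {z : GaussianInt} {x : ℕ} : z ∈ ballG x ↔ nN z ≤ x := by
  rw [mem_ballG, ← nN_cast_int]
  exact Nat.cast_le

lemma mem_BE {h : ℕ → ZMod 3} {c : ZMod 3} {N : ℕ} {p : GaussianInt × GaussianInt} :
    p ∈ BE h c N ↔ nN p.1 ≤ N ∧ nN p.2 ≤ N ∧ crossG p.1 p.2 = 1 ∧
      lb h c p.1 + lb h c p.2 = 0 := by
  unfold BE
  rw [Finset.mem_filter, Finset.mem_product, mem_ballG', mem_ballG', and_assoc]

lemma mem_EG {P : ℕ → Prop} {x : ℕ} {p : GaussianInt × GaussianInt} :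
    p ∈ EG P x ↔ nN p.1 ≤ x ∧ nN p.2 ≤ x ∧ crossG p.1 p.2 = 1 ∧ dotG p.1 p.2 ≠ 0 ∧
      P (dotG p.1 p.2).natAbs := by
  classical
  unfold EG allEdges
  rw [Finset.mem_filter, Finset.mem_filter, Finset.mem_product, mem_ballG', mem_ballG']
  tauto

lemma mem_PR {P : ℕ → Prop} {x : ℕ} {q : ℕ × ℕ} :
    q ∈ PR P x ↔ (1 ≤ q.1 ∧ q.1 ≤ x) ∧ (1 ≤ q.2 ∧ q.2 ≤ x) ∧ q.2 ∣ q.1 ^ 2 + 1 ∧
      (q.1 ^ 2 + 1) / q.2 ≤ x ∧ P q.1 := by
  classical
  unfold PR
  rw [Finset.mem_filter, Finset.mem_product, Finset.mem_Icc, Finset.mem_Icc]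
  tauto

/-- the vectors of an edge are primitive -/
lemma prim_left {u v : GaussianInt} (h : crossG u v = 1) : Prim u := by
  unfold Prim cont
  unfold crossG at h
  rw [← Int.isCoprime_iff_gcd_eq_one]
  exact ⟨v.im, -v.re, by linarith⟩

lemma prim_right {u v : GaussianInt} (h : crossG u v = 1) : Prim v := by
  unfold Prim cont
  unfold crossG at h
  rw [← Int.isCoprime_iff_gcd_eq_one]
  exact ⟨-u.im, u.re, by linarith⟩

lemma CMC_f3 {h : ℕ → ZMod 3} (hh : CA h) : CMC (f3 h) := by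
  refine ⟨fun z w hz hw => ?_, fun z hz => ?_⟩
  · unfold f3
    rw [nN_mul, hh _ _ (nN_pos hz) (nN_pos hw), AddChar.map_add_eq_mul]
  · unfold f3
    rw [AddChar.norm_apply]

lemma f3_cube (h : ℕ → ZMod 3) (z : GaussianInt) : f3 h z ^ 3 = 1 := by
  unfold f3
  rw [← AddChar.map_nsmul_eq_pow]
  have : (3 : ℕ) • h (nN z) = 0 := by
    rw [nsmul_eq_mul]
    have h3 : ((3 : ℕ) : ZMod 3) = 0 := by decide
    rw [h3, zero_mul]
  rw [this, AddChar.map_zero_eq_one]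

end Pool.Agent.NSqC
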