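import Pool.Agent.Lib.NSqC.Defs

/-!
# EDGB: from edges to pairs (n, d)

PROOF of `EG_le_PR`: as `NSqP.edges_le_prs` (file `NSqP/Edg.lean`): map `p` to
`((|dotG p|, N p.1), sign (dotG p))`; fibres have at most 4 elements (`MP484c84Par.fiber_unit`).
PROOF of `BE_le_EG`: `p ∈ BE h c N` with `dotG ≠ 0` is in `EG`: by `MP484c84Par.dot_cross`,
`N u N v = n ^ 2 + 1` for `n = |dotG u v|`, so `h (n ^ 2 + 1) = h (N u) + h (N v)`, and
`0 = lb u + lb v = 2 c + h (n ^ 2 + 1)` gives `h (n ^ 2 + 1) = - 2 c = c` in `ZMod 3`.  If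
`dotG p = 0` then `N u N v = 1`, so `N u = 1`, `u` is one of four units (`re, im ∈ {-1, 0, 1}`) and `v`
is determined by `u` (`crossG = 1`, `dotG = 0`: `v = i u`): at most 4 such edges
(map to `p.1`, or bound `u` in an explicit set of four elements and `v = ⟨-u.im, u.re⟩`).
-/

set_option autoImplicit false

namespace Pool.Agent.NSqC

open Real
open Pool.Agent.NSqP
open Pool.Agent.MP484c84Par (ballG mem_ballG crossG dotG)

open Pool.Agent.MP484c84Par in
/-- the product of the norms of an edge -/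
private lemma norm_prod {u v : GaussianInt} (h3 : crossG u v = 1) :
    (dotG u v).natAbs ^ 2 + 1 = nN u * nN v := by
  have hdc := dot_cross u v
  rw [h3] at hdc
  obtain ⟨hv, hw⟩ := ne_zero_of_cross h3
  have hpos1 := norm_pos' hv
  have hpos2 := norm_pos' hw
  have hi : ((dotG u v).natAbs ^ 2 + 1 : ℤ) = u.norm * v.norm := by
    rw [← hdc, Int.natCast_natAbs, sq_abs]; norm_num
  have : (((dotG u v).natAbs ^ 2 + 1 : ℕ) : ℤ) = ((nN u * nN v : ℕ) : ℤ) := by
    push_cast
    rw [nN_cast_int, nN_cast_int]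
    rw [Int.natCast_natAbs] at hi
    exact hi
  exact_mod_cast this

open Pool.Agent.MP484c84Par in
theorem EG_le_PR (P : ℕ → Prop) (x : ℕ) : (EG P x).card ≤ 8 * (PR P x).card := by
  classical
  set U : Finset ((ℕ × ℕ) × ℤ) := (PR P x) ×ˢ ({1, -1} : Finset ℤ) with hU
  let f : GaussianInt × GaussianInt → (ℕ × ℕ) × ℤ :=
    fun p => (((dotG p.1 p.2).natAbs, nN p.1), (dotG p.1 p.2).sign)
  have hmaps : ∀ p ∈ EG P x, f p ∈ U := by
    intro p hp
    obtain ⟨h1, h2, h3, h4, h5⟩ := mem_EG.1 hp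
    obtain ⟨hv, hw⟩ := ne_zero_of_cross h3
    have hprod := norm_prod h3
    have hN1 : 0 < nN p.1 := nN_pos hv
    have hnn : nN p.1 * nN p.2 ≤ x * x := Nat.mul_le_mul h1 h2
    simp only [hU, f, Finset.mem_product]
    refine ⟨mem_PR.2 ⟨⟨?_, ?_⟩, ⟨hN1, h1⟩, ?_, ?_, h5⟩, ?_⟩
    · exact Nat.pos_of_ne_zero (fun h => h4 (Int.natAbs_eq_zero.1 h))
    · have : (dotG p.1 p.2).natAbs ^ 2 ≤ x ^ 2 := by nlinarith
      exact (Nat.pow_le_pow_iff_left (by norm_num)).1 this
    · simp only [hprod]; exact dvd_mul_right _ _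
    · simp only [hprod, Nat.mul_div_cancel_left _ hN1]
      exact h2
    · rcases lt_trichotomy (dotG p.1 p.2) 0 with h6 | h6 | h6
      · rw [Int.sign_eq_neg_one_of_neg h6]; simp
      · exact absurd h6 h4
      · rw [Int.sign_eq_one_of_pos h6]; simp
  have hfib : ∀ b ∈ U, ((EG P x).filter (fun p => f p = b)).card ≤ 4 := by
    intro b _
    rcases ((EG P x).filter (fun p => f p = b)).eq_empty_or_nonempty with he | ⟨p0, hp0⟩
    · rw [he]; simp
    · rw [Finset.mem_filter] at hp0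
      have hsub : (EG P x).filter (fun p => f p = b) ⊆
          (({⟨1, 0⟩, ⟨-1, 0⟩, ⟨0, 1⟩, ⟨0, -1⟩} : Finset GaussianInt)).image
            (fun e => (p0.1 * e, p0.2 * e)) := by
        intro p hp
        rw [Finset.mem_filter] at hp
        obtain ⟨h1, h2, h3, h4, h5⟩ := mem_EG.1 hp0.1
        obtain ⟨h1', h2', h3', h4', h5'⟩ := mem_EG.1 hp.1
        have heq : f p = f p0 := by rw [hp.2, hp0.2]
        simp only [f, Prod.mk.injEq] at heq
        obtain ⟨⟨hq1, hq2⟩, hq3⟩ := heq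
        have hdot : dotG p0.1 p0.2 = dotG p.1 p.2 := by
          rw [← Int.sign_mul_natAbs (dotG p0.1 p0.2), ← Int.sign_mul_natAbs (dotG p.1 p.2), hq1, hq3]
        have hnorm : p0.1.norm = p.1.norm := by
          rw [← nN_cast_int, ← nN_cast_int, hq2]
        obtain ⟨e, he, he1, he2⟩ := fiber_unit (ne_zero_of_cross h3).1 h3 h3' hdot hnorm
        rw [Finset.mem_image]
        exact ⟨e, he, by rw [← he1, ← he2]⟩
      refine (Finset.card_le_card hsub).trans (Finset.card_image_le.trans ?_)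
      exact Finset.card_le_four
  have hcard := Finset.card_le_mul_card_image_of_maps_to hmaps 4 hfib
  have hUc : U.card = 2 * (PR P x).card := by
    rw [hU, Finset.card_product, mul_comm]
    congr 1
  rw [hUc] at hcard
  omega

open Pool.Agent.MP484c84Par in
theorem BE_le_EG {h : ℕ → ZMod 3} (hh : CA h) (c : ZMod 3) (N : ℕ) :
    (BE h c N).card ≤ (EG (fun n => h (n ^ 2 + 1) = c) N).card + 4 := by
  classical
  set S4 : Finset (GaussianInt × GaussianInt) :=
    {(⟨1, 0⟩, ⟨0, 1⟩), (⟨0, 1⟩, ⟨-1, 0⟩), (⟨-1, 0⟩, ⟨0, -1⟩), (⟨0, -1⟩, ⟨1, 0⟩)} with hS4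
  have hsub : BE h c N ⊆ EG (fun n => h (n ^ 2 + 1) = c) N ∪ S4 := by
    rintro ⟨u, v⟩ hp
    obtain ⟨h1, h2, h3, h4⟩ := mem_BE.1 hp
    simp only at h1 h2 h3 h4
    obtain ⟨hu, hv⟩ := ne_zero_of_cross h3
    have hprod := norm_prod h3
    rw [Finset.mem_union]
    by_cases hd : dotG u v = 0
    · right
      rw [hd] at hprod
      simp only [Int.natAbs_zero, ne_eq, OfNat.ofNat_ne_zero, not_false_eq_true, zero_pow,
        zero_add] at hprod
      have hu1 : nN u = 1 := Nat.eq_one_of_mul_eq_one_right hprod.symm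
      have hu2 : u.re ^ 2 + u.im ^ 2 = 1 := by
        have := nN_cast_int u
        rw [hu1, norm_def'] at this
        push_cast at this
        linarith
      obtain ⟨a, b⟩ := u
      obtain ⟨c', d'⟩ := v
      simp only [crossG, dotG] at h3 hd hu2
      have hc : c' = -b := by
        linear_combination (a ^ 2 * 0 - c') * hu2 + a * hd - b * h3
      have hd2 : d' = a := by
        linear_combination (- d') * hu2 + b * hd + a * h3
      rw [hS4]
      rcases sq_add_sq_one hu2 with ⟨h5, h6⟩ | ⟨h5, h6⟩ | ⟨h5, h6⟩ | ⟨h5, h6⟩ <;>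
        subst h5 <;> subst h6 <;> subst hc <;> subst hd2 <;> simp
    · left
      refine mem_EG.2 ⟨h1, h2, h3, hd, ?_⟩
      simp only [hprod]
      rw [hh _ _ (nN_pos hu) (nN_pos hv)]
      unfold lb at h4
      have key : ∀ a b c : ZMod 3, c + a + (c + b) = 0 → a + b = c := by decide
      exact key _ _ _ h4
  refine (Finset.card_le_card hsub).trans ((Finset.card_union_le _ _).trans ?_)
  have : S4.card ≤ 4 := Finset.card_le_four
  omega

end Pool.Agent.NSqC
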