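import Pool.Agent.Lib.NSqC.Defs
import Pool.Agent.Lib.NSqP.PC
import Pool.Agent.Lib.MP484c84Par.Minus

/-!
# KAP: multiplication by a Gaussian prime of norm `p`

PROOF of `kap_prim`: the private lemma `end_prim` of `NSqP/End.lean` (copy it) says: `κ w` is primitive
if `w` is primitive and `star κ` does not divide `w`.
PROOF of `kap_not`: `star κ` has prime norm, so it is irreducible, hence prime (`GaussianInt` is a
Euclidean domain).  If `star κ ∣ κ w` then `star κ ∣ κ` or `star κ ∣ w`.  If `star κ ∣ κ` then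
`star κ ∣ κ + star κ = 2 re κ`, so `p ∣ 4 (re κ) ^ 2` (norms), `p ∣ re κ` (`p` odd prime); as
`(re κ) ^ 2 ≤ p < p ^ 2`, `re κ = 0`, and `p = (im κ) ^ 2` is not a prime.
PROOF of `kap_count`: as `hAlow` in the proof of `THMA` in `NSqP/End.lean` (with the private lemma
`end_small` for the error terms): `card_pann` gives `#pann (X/2) X ≥ 0.26 π X - δ X`, and `card_dvd`,
`card_ann` give `#{w ∈ ann (X/2) X : star κ ∣ w} ≤ π X / (2 p) + δ X`, `p ≥ 5`.
-/

set_option autoImplicit false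

namespace Pool.Agent.NSqC

open Real
open Pool.Agent.NSqP
open Pool.Agent.MP484c84Par (ballG mem_ballG crossG dotG)

private lemma kap_small (C δ : ℝ) (hC : 0 < C) (hδ : 0 < δ) :
    ∃ X1 : ℝ, 1 ≤ X1 ∧ ∀ X : ℝ, X1 ≤ X → C * X ^ ((3 : ℝ) / 4) ≤ δ * X ∧ C * (√X + 1) ≤ δ * X := by
  refine ⟨max 1 ((2 * C / δ) ^ 4), le_max_left _ _, fun X hX => ?_⟩
  have h1 : 1 ≤ X := (le_max_left _ _).trans hX
  have h2 : (2 * C / δ) ^ 4 ≤ X := (le_max_right _ _).trans hX
  have hX0 : 0 < X := by linarith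
  have h3 : 2 * C / δ ≤ X ^ ((1 : ℝ) / 4) := by
    have h4 : ((2 * C / δ) ^ 4) ^ ((1 : ℝ) / 4) ≤ X ^ ((1 : ℝ) / 4) :=
      rpow_le_rpow (by positivity) h2 (by norm_num)
    have h5 : ((2 * C / δ) ^ 4) ^ ((1 : ℝ) / 4) = 2 * C / δ := by
      rw [← rpow_natCast, ← rpow_mul (by positivity)]
      norm_num
    linarith
  have h6 : X ^ ((3 : ℝ) / 4) * X ^ ((1 : ℝ) / 4) = X := by
    rw [← rpow_add hX0]; norm_num
  have h7 : 0 < X ^ ((3 : ℝ) / 4) := rpow_pos_of_pos hX0 _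
  have h8 : 2 * C * X ^ ((3 : ℝ) / 4) ≤ δ * X := by
    rw [div_le_iff₀ hδ] at h3
    calc 2 * C * X ^ ((3 : ℝ) / 4) ≤ (X ^ ((1 : ℝ) / 4) * δ) * X ^ ((3 : ℝ) / 4) := by gcongr
      _ = δ * (X ^ ((3 : ℝ) / 4) * X ^ ((1 : ℝ) / 4)) := by ring
      _ = δ * X := by rw [h6]
  have h9 : √X ≤ X ^ ((3 : ℝ) / 4) := by
    rw [sqrt_eq_rpow]
    exact rpow_le_rpow_of_exponent_le h1 (by norm_num)
  have h10 : 1 ≤ X ^ ((3 : ℝ) / 4) := one_le_rpow h1 (by norm_num)
  constructor
  · nlinarith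
  · nlinarith

private lemma kap_prim' {p : ℕ} (hp : p.Prime) {κ w : GaussianInt} (hκ : κ.norm = p)
    (hw : Prim w) (hd : ¬ star κ ∣ w) : Prim (κ * w) := by
  unfold Prim cont at *
  by_contra hne
  obtain ⟨q, hq, hqd⟩ := Nat.exists_prime_and_dvd hne
  have hκ0 : κ ≠ 0 := by
    rintro rfl
    simp at hκ
    have := hp.pos
    omega
  have hre : ((q : ℕ) : ℤ) ∣ (κ * w).re := by
    have h1 : ((q : ℕ) : ℤ) ∣ ((Int.gcd (κ * w).re (κ * w).im : ℕ) : ℤ) := by exact_mod_cast hqd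
    exact h1.trans (Int.gcd_dvd_left ..)
  have him : ((q : ℕ) : ℤ) ∣ (κ * w).im := by
    have h1 : ((q : ℕ) : ℤ) ∣ ((Int.gcd (κ * w).re (κ * w).im : ℕ) : ℤ) := by exact_mod_cast hqd
    exact h1.trans (Int.gcd_dvd_right ..)
  have hdvd : ((q : ℤ) : GaussianInt) ∣ κ * w := by
    rw [Zsqrtd.intCast_dvd]
    exact ⟨hre, him⟩
  by_cases hqp : q = p
  · subst hqp
    apply hd
    have h2 : ((q : ℤ) : GaussianInt) = κ * star κ := by
      rw [← hκ, Zsqrtd.norm_eq_mul_conj]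
    rw [h2] at hdvd
    exact (mul_dvd_mul_iff_left hκ0).1 hdvd
  · have h3 : ((q : ℤ) : GaussianInt) ∣ ((p : ℤ) : GaussianInt) * w := by
      have h4 : ((p : ℤ) : GaussianInt) * w = star κ * (κ * w) := by
        rw [← hκ, Zsqrtd.norm_eq_mul_conj]; ring
      rw [h4]
      exact hdvd.mul_left _
    rw [Zsqrtd.intCast_dvd] at h3
    have hcop : IsCoprime (q : ℤ) (p : ℤ) := by
      rw [Nat.isCoprime_iff_coprime]
      exact (Nat.coprime_primes hq hp).2 hqp
    have h5 : (q : ℤ) ∣ w.re := by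
      have h6 := h3.1
      simp only [Zsqrtd.re_mul, Zsqrtd.re_intCast, Zsqrtd.im_intCast] at h6
      have h7 : (q : ℤ) ∣ (p : ℤ) * w.re := by simpa using h6
      exact hcop.dvd_of_dvd_mul_left h7
    have h8 : (q : ℤ) ∣ w.im := by
      have h6 := h3.2
      simp only [Zsqrtd.im_mul, Zsqrtd.re_intCast, Zsqrtd.im_intCast] at h6
      have h7 : (q : ℤ) ∣ (p : ℤ) * w.im := by simpa using h6
      exact hcop.dvd_of_dvd_mul_left h7
    have h9 : q ∣ Int.gcd w.re w.im := by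
      have := Int.dvd_coe_gcd h5 h8
      exact_mod_cast this
    rw [hw] at h9
    exact hq.one_lt.ne' (Nat.dvd_one.1 h9)

theorem kap_prim {p : ℕ} (hp : p.Prime) {κ w : GaussianInt} (hκ : κ.norm = p) (hw : Prim w)
    (hd : ¬ star κ ∣ w) : Prim (κ * w) := kap_prim' hp hκ hw hd

private lemma kap_prime {p : ℕ} (hp : p.Prime) {w : GaussianInt} (h : nN w = p) : Prime w := by
  have hu : ∀ z : GaussianInt, nN z = 1 → IsUnit z := fun z hz => Zsqrtd.norm_eq_one_iff.1 hz
  have hirr : Irreducible w := by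
    constructor
    · intro h1
      have h2 : nN w = 1 := Zsqrtd.norm_eq_one_iff.2 h1
      rw [h] at h2
      rw [h2] at hp
      exact Nat.not_prime_one hp
    · intro a b hab
      rw [hab, nN_mul] at h
      rw [← h] at hp
      rcases Nat.prime_mul_iff.1 hp with h3 | h3
      · exact Or.inr (hu _ h3.2)
      · exact Or.inl (hu _ h3.2)
  exact hirr.prime

theorem kap_not {p : ℕ} (hp : p.Prime) (hp4 : p % 4 = 1) {κ w : GaussianInt} (hκ : κ.norm = p)
    (hd : ¬ star κ ∣ w) : ¬ star κ ∣ κ * w := by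
  intro h
  have hκn : nN κ = p := by unfold nN; rw [hκ, Int.natAbs_natCast]
  have hsκn : nN (star κ) = p := by rw [nN_star, hκn]
  have hpr := kap_prime hp hsκn
  rcases hpr.dvd_or_dvd h with h1 | h1
  · have h2 : star κ ∣ κ + star κ := dvd_add h1 dvd_rfl
    have h3 : κ + star κ = ((2 * κ.re : ℤ) : GaussianInt) := by
      ext
      · simp [two_mul]
      · simp
    rw [h3] at h2
    obtain ⟨c, hc⟩ := h2
    have h4 : nN ((2 * κ.re : ℤ) : GaussianInt) = p * nN c := by rw [hc, nN_mul, hsκn]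
    have h5 : ((nN ((2 * κ.re : ℤ) : GaussianInt) : ℕ) : ℤ) = (2 * κ.re) * (2 * κ.re) := by
      rw [nN_cast_int, Zsqrtd.norm_intCast]
    have h6 : (p : ℤ) ∣ (2 * κ.re) * (2 * κ.re) := by
      rw [← h5, h4]
      push_cast
      exact dvd_mul_right _ _
    have hpi : Prime (p : ℤ) := Nat.prime_iff_prime_int.1 hp
    have h7 : (p : ℤ) ∣ 2 * κ.re := by
      rcases hpi.dvd_or_dvd h6 with h8 | h8 <;> exact h8
    have h8 : (p : ℤ) ∣ κ.re := by
      rcases hpi.dvd_or_dvd h7 with h9 | h9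
      · exfalso
        have h10 : p ∣ 2 := by exact_mod_cast h9
        have h11 := Nat.le_of_dvd (by norm_num) h10
        have h12 := hp.two_le
        have h13 : p = 2 := le_antisymm h11 h12
        omega
      · exact h9
    have h9 : κ.re * κ.re + κ.im * κ.im = p := by
      have := hκ
      rw [Zsqrtd.norm_def] at this
      linarith
    have h10 : κ.re = 0 := by
      obtain ⟨k, hk⟩ := h8
      by_contra hne
      have hk0 : k ≠ 0 := fun h => hne (by rw [hk, h, mul_zero])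
      have h11 : 1 ≤ k * k := by
        have := Int.one_le_abs hk0
        nlinarith [abs_mul_abs_self k]
      have h12 : (p : ℤ) * p ≤ κ.re * κ.re := by
        rw [hk]
        have h13 : (0 : ℤ) ≤ (p : ℤ) * p := by positivity
        calc (p : ℤ) * p = (p * p) * 1 := by ring
          _ ≤ (p * p) * (k * k) := mul_le_mul_of_nonneg_left h11 h13
          _ = (p * k) * (p * k) := by ring
      have h14 : (2 : ℤ) ≤ p := by exact_mod_cast hp.two_le
      nlinarith [mul_self_nonneg κ.im]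
    rw [h10] at h9
    have h11 : p = κ.im.natAbs * κ.im.natAbs := by
      zify
      rw [abs_mul_abs_self]
      linarith
    rw [h11] at hp
    rcases Nat.prime_mul_iff.1 hp with h2 | h2
    · rw [h2.2] at h2
      exact Nat.not_prime_one h2.1
    · rw [h2.2] at h2
      exact Nat.not_prime_one h2.1
  · exact hd h1

open Classical in
theorem kap_count {p : ℕ} (hp : p.Prime) (hp4 : p % 4 = 1) {κ : GaussianInt} (hκ : κ.norm = p) :
    ∃ X0 : ℕ, ∀ X : ℕ, X0 ≤ X →
      (4 / 10 : ℝ) * X ≤ (((pann ((X : ℝ) / 2) X).filter (fun w => ¬ star κ ∣ w)).card : ℝ) := by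
  have hp5 : 5 ≤ p := by
    have h1 := hp.two_le
    by_contra h
    have h2 : p = 2 ∨ p = 3 ∨ p = 4 := by omega
    omega
  have hp5r : (5 : ℝ) ≤ p := by exact_mod_cast hp5
  have hκ0 : κ ≠ 0 := by
    rintro rfl
    simp at hκ
    have := hp.pos
    omega
  have hκn : nN κ = p := by unfold nN; rw [hκ, Int.natAbs_natCast]
  have hsκ0 : star κ ≠ 0 := by simpa using hκ0
  have hsκn : nN (star κ) = p := by rw [nN_star, hκn]
  obtain ⟨C1, hC1, hann⟩ := card_ann
  obtain ⟨C2, hC2, hpann⟩ := card_pann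
  obtain ⟨X1, hX1, hsm⟩ := kap_small (C1 + C2) (1 / 1000) (by positivity) (by norm_num)
  have hπ : 3.14 < π := pi_gt_d2
  have hπ' : π < 3.15 := pi_lt_d2
  have hup : ∀ a b : ℝ, 0 ≤ a → a ≤ b → X1 ≤ b →
      ((ann a b).card : ℝ) ≤ π * (b - a) + 1 / 1000 * b := by
    intro a b ha hab hb
    have h1 := (abs_le.1 (hann a b ha hab)).2
    have h2 := (hsm b hb).2
    have h3 : C1 * (√b + 1) ≤ (C1 + C2) * (√b + 1) := by
      have := sqrt_nonneg b
      gcongr; linarith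
    linarith
  have hlo : ∀ a b : ℝ, 0 ≤ a → a ≤ b → X1 ≤ b →
      0.52 * π * (b - a) - 1 / 1000 * b ≤ ((pann a b).card : ℝ) := by
    intro a b ha hab hb
    have h1 := hpann a b ha hab (hX1.trans hb)
    have h2 := (hsm b hb).1
    have h3 : C2 * b ^ ((3 : ℝ) / 4) ≤ (C1 + C2) * b ^ ((3 : ℝ) / 4) := by
      have : 0 ≤ b ^ ((3 : ℝ) / 4) := rpow_nonneg (by linarith) _
      gcongr; linarith
    linarith
  refine ⟨⌈X1⌉₊ * p, fun X hX => ?_⟩
  have hXr : X1 * p ≤ X := by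
    have h1 : X1 ≤ ⌈X1⌉₊ := Nat.le_ceil _
    have h2 : ((⌈X1⌉₊ * p : ℕ) : ℝ) ≤ X := by exact_mod_cast hX
    push_cast at h2
    nlinarith
  have hX0 : (0 : ℝ) ≤ X := Nat.cast_nonneg _
  have hX1le : X1 ≤ X := by nlinarith
  have h1 : ((pann ((X : ℝ) / 2) X).filter (fun w => star κ ∣ w)).card +
      ((pann ((X : ℝ) / 2) X).filter (fun w => ¬ star κ ∣ w)).card =
      (pann ((X : ℝ) / 2) X).card := Finset.card_filter_add_card_filter_not _
  have h2 : ((pann ((X : ℝ) / 2) X).filter (fun w => star κ ∣ w)).card ≤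
      ((ann ((X : ℝ) / 2) X).filter (fun w => star κ ∣ w)).card :=
    Finset.card_le_card (Finset.filter_subset_filter _ (pann_subset _ _))
  have h3 := card_dvd hsκ0 (show (0 : ℝ) ≤ (X : ℝ) / 2 by positivity)
    (show (0 : ℝ) ≤ (X : ℝ) by positivity)
  rw [hsκn] at h3
  have h4 := hup ((X : ℝ) / 2 / p) ((X : ℝ) / p) (by positivity)
    (by gcongr; linarith)
    (by rw [le_div_iff₀ (by linarith)]; exact hXr)
  have h5 := hlo ((X : ℝ) / 2) X (by positivity) (by linarith) hX1le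
  have h6 : (((pann ((X : ℝ) / 2) X).filter (fun w => star κ ∣ w)).card : ℝ) ≤
      ((ann ((X : ℝ) / 2 / p) ((X : ℝ) / p)).card : ℝ) := by
    rw [← h3]; exact_mod_cast h2
  have h7 : (((pann ((X : ℝ) / 2) X).filter (fun w => star κ ∣ w)).card : ℝ) +
      (((pann ((X : ℝ) / 2) X).filter (fun w => ¬ star κ ∣ w)).card : ℝ) =
      ((pann ((X : ℝ) / 2) X).card : ℝ) := by exact_mod_cast h1
  have h8 : (X : ℝ) / p ≤ X / 5 := by gcongr
  have h9 : π * ((X : ℝ) / p - (X : ℝ) / 2 / p) ≤ 0.315 * X := by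
    have h10 : (X : ℝ) / p - (X : ℝ) / 2 / p = (X / p) / 2 := by ring
    rw [h10]
    have h11 : 0 ≤ (X : ℝ) / p := by positivity
    calc π * (X / p / 2) ≤ 3.15 * (X / 5 / 2) := by gcongr
      _ = 0.315 * X := by ring
  have h12 : 0.8164 * (X : ℝ) ≤ 0.52 * π * (X - X / 2) := by
    have h13 : 0.52 * π * ((X : ℝ) - X / 2) = (0.26 * π) * X := by ring
    rw [h13]
    gcongr
    linarith
  linarith

end Pool.Agent.NSqC
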