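import Pool.Agent.Lib.NSqC.Defs
import Pool.Agent.Lib.NSqP.Edg

/-!
# NOND: labels 1 and 2 occur in a positive proportion

PROOF.  `plus_edges` (file `NSqP/Edg.lean`) for `g = fun _ => 1` gives `c2 > 0`, `N1` with
`c2 N ≤ #edges g 1 N ≤ #allEdges N` (`mem_edges`, `allEdges`) for `N ≥ N1`.  `small_edges` gives `C`;
choose `k ≥ 1` with `C √(1/2^k) ≤ c2 / 4`.  So with `δ = 1/2^k` at least `c2 N / 2` edges have both
norms `> N / 2^k`.  Put `c1 = c2 / (48 · 2^k)` or smaller (so `c1 ≤ c2 / 4`).  If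
`#BE ≤ c1 N`, at least `c2 N / 4` of these edges `(u, v)` are not in `BE`, so the labels of `u` and
`v` are not both zero, that is `1 ≤ |sn u| + |sn v|`.  Both are in `P = pann (N / 2^k) N` (`prim_left`,
`prim_right`).  Hence `c2 N / 4 ≤ ∑_{(u,v)} |sn u| + ∑_{(u,v)} |sn v|`.  For given `u` there are at
most `3 √(N / N u) ≤ 3 √(2^k) ≤ 3 · 2^k` edges (`nb_count`); for given `v` the same, as
`crossG v (-u) = 1` (cf. the private lemmas `cl_fst`, `cl_snd` in `NSqP/Count.lean`).  So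
`c2 N / 4 ≤ 6 · 2^k ∑_P |sn|`.
-/

set_option autoImplicit false

namespace Pool.Agent.NSqC

open Real
open Pool.Agent.NSqP
open Pool.Agent.MP484c84Par (ballG mem_ballG crossG dotG edges mem_edges CM)

private lemma nd_sqrt {k : ℕ} {x : ℕ} {u : GaussianInt} (hu : u ≠ 0)
    (h : (x : ℝ) / (2 ^ k : ℕ) < nN u) : 3 * √((x : ℝ) / nN u) ≤ 3 * (2 : ℝ) ^ k := by
  have hN : (0 : ℝ) < nN u := by exact_mod_cast nN_pos hu
  have h2 : (0 : ℝ) < (2 : ℝ) ^ k := by positivity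
  have h1 : (x : ℝ) / nN u ≤ (2 : ℝ) ^ k := by
    rw [div_le_iff₀ hN]
    push_cast at h
    rw [div_lt_iff₀ h2] at h
    linarith
  have h3 : √((x : ℝ) / nN u) ≤ (2 : ℝ) ^ k := by
    rw [Real.sqrt_le_left h2.le]
    refine h1.trans ?_
    have : (1 : ℝ) ≤ (2 : ℝ) ^ k := one_le_pow₀ (by norm_num)
    nlinarith
  linarith

private lemma nd_fst {k : ℕ} {x : ℕ} (E : Finset (GaussianInt × GaussianInt))
    (T : Finset GaussianInt) (w : GaussianInt → ℝ) (hw : ∀ u, 0 ≤ w u)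
    (hE : ∀ p ∈ E, nN p.2 ≤ x ∧ crossG p.1 p.2 = 1 ∧ p.1 ∈ T)
    (hT : ∀ u ∈ T, u ≠ 0 ∧ (x : ℝ) / (2 ^ k : ℕ) < nN u ∧ nN u ≤ x) :
    ∑ p ∈ E, w p.1 ≤ 3 * (2 : ℝ) ^ k * ∑ u ∈ T, w u := by
  classical
  rw [← Finset.sum_fiberwise_of_maps_to (g := fun p => p.1) (fun p hp => (hE p hp).2.2),
    Finset.mul_sum]
  refine Finset.sum_le_sum fun u hu => ?_
  obtain ⟨hu0, hu1, hu2⟩ := hT u hu
  have hcard : ((E.filter (fun p => p.1 = u)).card : ℝ) ≤ 3 * (2 : ℝ) ^ k := by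
    refine le_trans ?_ ((nb_count u hu0 x hu2).trans (nd_sqrt hu0 hu1))
    norm_cast
    apply Finset.card_le_card_of_injOn (fun p => p.2)
    · intro p hp
      have hp' := Finset.mem_filter.1 (Finset.mem_coe.1 hp)
      obtain ⟨h1, h2, h3⟩ := hE p hp'.1
      rw [Finset.mem_coe, Finset.mem_filter, mem_ballG']
      exact ⟨h1, by rw [← hp'.2]; exact h2⟩
    · intro p hp q hq h
      have hp' := Finset.mem_filter.1 (Finset.mem_coe.1 hp)
      have hq' := Finset.mem_filter.1 (Finset.mem_coe.1 hq)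
      exact Prod.ext (hp'.2.trans hq'.2.symm) h
  calc ∑ p ∈ E.filter (fun p => p.1 = u), w p.1
      = ∑ p ∈ E.filter (fun p => p.1 = u), w u := by
        refine Finset.sum_congr rfl fun p hp => ?_
        rw [(Finset.mem_filter.1 hp).2]
    _ = ((E.filter (fun p => p.1 = u)).card : ℝ) * w u := by
        rw [Finset.sum_const, nsmul_eq_mul]
    _ ≤ 3 * (2 : ℝ) ^ k * w u := by
        have := hw u
        gcongr

private lemma nd_snd {k : ℕ} {x : ℕ} (E : Finset (GaussianInt × GaussianInt))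
    (T : Finset GaussianInt) (w : GaussianInt → ℝ) (hw : ∀ u, 0 ≤ w u)
    (hE : ∀ p ∈ E, nN p.1 ≤ x ∧ crossG p.1 p.2 = 1 ∧ p.2 ∈ T)
    (hT : ∀ u ∈ T, u ≠ 0 ∧ (x : ℝ) / (2 ^ k : ℕ) < nN u ∧ nN u ≤ x) :
    ∑ p ∈ E, w p.2 ≤ 3 * (2 : ℝ) ^ k * ∑ u ∈ T, w u := by
  classical
  have h1 : ∑ p ∈ E, w p.2 = ∑ q ∈ E.image (fun p => (p.2, -p.1)), w q.1 := by
    rw [Finset.sum_image]
    intro p _ q _ h
    rw [Prod.mk.injEq] at h
    exact Prod.ext (neg_injective h.2) h.1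
  rw [h1]
  refine nd_fst _ T w hw ?_ hT
  intro q hq
  obtain ⟨p, hp, rfl⟩ := Finset.mem_image.1 hq
  obtain ⟨h2, h3, h4⟩ := hE p hp
  refine ⟨?_, ?_, h4⟩
  · simp only [nN_neg']
    exact h2
  · unfold crossG at h3 ⊢
    simp only [Zsqrtd.re_neg, Zsqrtd.im_neg]
    linarith

theorem NOND : ∃ k : ℕ, 1 ≤ k ∧ ∃ c1 : ℝ, 0 < c1 ∧ ∃ N0 : ℕ, ∀ N : ℕ, N0 ≤ N →
    ∀ (h : ℕ → ZMod 3) (c : ZMod 3), ((BE h c N).card : ℝ) ≤ c1 * N →
      c1 * N ≤ ∑ z ∈ pann ((N : ℝ) / (2 ^ k : ℕ)) N, |sn h c z| := by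
  classical
  obtain ⟨c2, hc2, N1, hplus⟩ := plus_edges
  obtain ⟨C, hC, hsmall⟩ := small_edges
  -- choice of `k`
  obtain ⟨k, hk⟩ : ∃ k : ℕ, 4 * C / c2 ≤ (2 : ℝ) ^ k := by
    obtain ⟨k, hk⟩ := pow_unbounded_of_one_lt (4 * C / c2) (by norm_num : (1 : ℝ) < 2)
    exact ⟨k, hk.le⟩
  have hK : ∃ K : ℕ, 1 ≤ K ∧ C * √(1 / (2 : ℝ) ^ K) ≤ c2 / 4 := by
    refine ⟨2 * k + 2, by omega, ?_⟩
    have e1 : (1 / (2 : ℝ) ^ (2 * k + 2)) = (1 / (2 : ℝ) ^ (k + 1)) ^ 2 := by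
      rw [div_pow, one_pow, ← pow_mul]
      congr 2
      ring
    rw [e1, Real.sqrt_sq (by positivity)]
    rw [div_le_iff₀ hc2] at hk
    have h3 : (0 : ℝ) < (2 : ℝ) ^ k := by positivity
    rw [pow_succ, mul_one_div, div_le_div_iff₀ (by positivity) (by norm_num)]
    nlinarith
  obtain ⟨K, hK1, hKC⟩ := hK
  have h2K : (1 : ℝ) ≤ (2 : ℝ) ^ K := one_le_pow₀ (by norm_num)
  refine ⟨K, hK1, c2 / (48 * (2 : ℝ) ^ K), by positivity, N1, ?_⟩
  intro N hN h c hBE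
  set c1 := c2 / (48 * (2 : ℝ) ^ K) with hc1
  have hc1c : c1 ≤ c2 / 48 := by
    rw [hc1]
    refine div_le_div_of_nonneg_left hc2.le (by norm_num) ?_
    linarith
  have hN0 : (0 : ℝ) ≤ N := Nat.cast_nonneg _
  set δ : ℝ := 1 / (2 : ℝ) ^ K with hδ
  have hδ0 : 0 < δ := by positivity
  have hδ1 : δ ≤ 1 := by
    rw [hδ, div_le_one (by positivity)]
    exact h2K
  have hall : c2 * N ≤ ((allEdges N).card : ℝ) := by
    have hCM : CM (fun _ => (1 : ℤ)) := by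
      constructor <;> simp
    have h1 := hplus (fun _ => 1) hCM N hN
    refine h1.trans ?_
    norm_cast
    refine Finset.card_le_card fun p hp => ?_
    obtain ⟨a1, a2, a3, a4, a5⟩ := mem_edges.1 hp
    unfold allEdges
    rw [Finset.mem_filter, Finset.mem_product, mem_ballG, mem_ballG]
    exact ⟨⟨a1, a2⟩, a3⟩
  obtain ⟨hs1, hs2⟩ := hsmall N δ hδ0 hδ1
  -- the good edges
  set E := (((allEdges N).filter (fun p => ¬ (nN p.1 : ℝ) ≤ δ * N)).filter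
    (fun p => ¬ (nN p.2 : ℝ) ≤ δ * N)).filter (fun p => p ∉ BE h c N) with hE
  have hcard : c2 / 4 * N ≤ (E.card : ℝ) := by
    have b1 := Finset.card_filter_add_card_filter_not (s := allEdges N)
      (fun p => (nN p.1 : ℝ) ≤ δ * N)
    have b2 := Finset.card_filter_add_card_filter_not
      (s := (allEdges N).filter (fun p => ¬ (nN p.1 : ℝ) ≤ δ * N))
      (fun p => (nN p.2 : ℝ) ≤ δ * N)
    have b3 := Finset.card_filter_add_card_filter_not
      (s := ((allEdges N).filter (fun p => ¬ (nN p.1 : ℝ) ≤ δ * N)).filter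
        (fun p => ¬ (nN p.2 : ℝ) ≤ δ * N))
      (fun p => p ∈ BE h c N)
    have b4 : (((allEdges N).filter (fun p => ¬ (nN p.1 : ℝ) ≤ δ * N)).filter
        (fun p => (nN p.2 : ℝ) ≤ δ * N)).card ≤
        ((allEdges N).filter (fun p => (nN p.2 : ℝ) ≤ δ * N)).card := by
      refine Finset.card_le_card fun p hp => ?_
      rw [Finset.mem_filter, Finset.mem_filter] at hp
      rw [Finset.mem_filter]
      exact ⟨hp.1.1, hp.2⟩
    have b5 : ((((allEdges N).filter (fun p => ¬ (nN p.1 : ℝ) ≤ δ * N)).filter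
        (fun p => ¬ (nN p.2 : ℝ) ≤ δ * N)).filter (fun p => p ∈ BE h c N)).card ≤
        (BE h c N).card := by
      refine Finset.card_le_card fun p hp => ?_
      rw [Finset.mem_filter] at hp
      exact hp.2
    have b1' : (((allEdges N).filter (fun p => (nN p.1 : ℝ) ≤ δ * N)).card : ℝ) +
        (((allEdges N).filter (fun p => ¬ (nN p.1 : ℝ) ≤ δ * N)).card : ℝ) =
        ((allEdges N).card : ℝ) := by exact_mod_cast b1
    have b2' : ((((allEdges N).filter (fun p => ¬ (nN p.1 : ℝ) ≤ δ * N)).filter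
        (fun p => (nN p.2 : ℝ) ≤ δ * N)).card : ℝ) +
        ((((allEdges N).filter (fun p => ¬ (nN p.1 : ℝ) ≤ δ * N)).filter
        (fun p => ¬ (nN p.2 : ℝ) ≤ δ * N)).card : ℝ) =
        (((allEdges N).filter (fun p => ¬ (nN p.1 : ℝ) ≤ δ * N)).card : ℝ) := by
      exact_mod_cast b2
    have b3' : (((((allEdges N).filter (fun p => ¬ (nN p.1 : ℝ) ≤ δ * N)).filter
        (fun p => ¬ (nN p.2 : ℝ) ≤ δ * N)).filter (fun p => p ∈ BE h c N)).card : ℝ) +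
        (E.card : ℝ) = ((((allEdges N).filter (fun p => ¬ (nN p.1 : ℝ) ≤ δ * N)).filter
        (fun p => ¬ (nN p.2 : ℝ) ≤ δ * N)).card : ℝ) := by
      rw [hE]
      exact_mod_cast b3
    have b4' : ((((allEdges N).filter (fun p => ¬ (nN p.1 : ℝ) ≤ δ * N)).filter
        (fun p => (nN p.2 : ℝ) ≤ δ * N)).card : ℝ) ≤
        (((allEdges N).filter (fun p => (nN p.2 : ℝ) ≤ δ * N)).card : ℝ) := by
      exact_mod_cast b4
    have b5' : (((((allEdges N).filter (fun p => ¬ (nN p.1 : ℝ) ≤ δ * N)).filter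
        (fun p => ¬ (nN p.2 : ℝ) ≤ δ * N)).filter (fun p => p ∈ BE h c N)).card : ℝ) ≤
        ((BE h c N).card : ℝ) := by exact_mod_cast b5
    have b6 : C * √δ * N ≤ c2 / 4 * N := by
      rw [hδ]
      exact mul_le_mul_of_nonneg_right hKC hN0
    have b7 : c1 * N ≤ c2 / 48 * N := mul_le_mul_of_nonneg_right hc1c hN0
    have b8 : 0 ≤ c2 * N := by positivity
    linarith
  set T := pann ((N : ℝ) / (2 ^ K : ℕ)) N with hT
  have hδN : δ * N = (N : ℝ) / (2 ^ K : ℕ) := by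
    rw [hδ]
    push_cast
    ring
  have hEmem : ∀ p ∈ E, nN p.1 ≤ N ∧ nN p.2 ≤ N ∧ crossG p.1 p.2 = 1 ∧ p.1 ∈ T ∧ p.2 ∈ T ∧
      1 ≤ |sn h c p.1| + |sn h c p.2| := by
    intro p hp
    rw [hE, Finset.mem_filter, Finset.mem_filter, Finset.mem_filter] at hp
    obtain ⟨⟨⟨q1, q2⟩, q3⟩, q4⟩ := hp
    unfold allEdges at q1
    rw [Finset.mem_filter, Finset.mem_product, mem_ballG', mem_ballG'] at q1
    obtain ⟨⟨q5, q6⟩, q7⟩ := q1
    rw [not_le, hδN] at q2 q3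
    refine ⟨q5, q6, q7, ?_, ?_, ?_⟩
    · rw [hT, mem_pann hN0]
      exact ⟨⟨q2, by exact_mod_cast q5⟩, prim_left q7⟩
    · rw [hT, mem_pann hN0]
      exact ⟨⟨q3, by exact_mod_cast q6⟩, prim_right q7⟩
    · have hz : ∀ z, lb h c z ≠ 0 → |sn h c z| = 1 := by
        intro z hz
        rcases lb_cases h c z with h1 | h1 | h1
        · exact absurd h1 hz
        · rw [sn_of_one h1, abs_one]
        · rw [sn_of_two h1, abs_neg, abs_one]
      by_cases hz1 : lb h c p.1 = 0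
      · have hz2 : lb h c p.2 ≠ 0 := by
          intro hz2
          exact q4 (mem_BE.2 ⟨q5, q6, q7, by rw [hz1, hz2, add_zero]⟩)
        rw [hz _ hz2]
        have := abs_nonneg (sn h c p.1)
        linarith
      · rw [hz _ hz1]
        have := abs_nonneg (sn h c p.2)
        linarith
  have hTmem : ∀ u ∈ T, u ≠ 0 ∧ (N : ℝ) / (2 ^ K : ℕ) < nN u ∧ nN u ≤ N := by
    intro u hu
    rw [hT, mem_pann hN0] at hu
    exact ⟨prim_ne_zero hu.2, hu.1.1, by exact_mod_cast hu.1.2⟩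
  have g1 := nd_fst (k := K) E T (fun z => |sn h c z|) (fun _ => abs_nonneg _)
    (fun p hp => ⟨(hEmem p hp).2.1, (hEmem p hp).2.2.1, (hEmem p hp).2.2.2.1⟩) hTmem
  have g2 := nd_snd (k := K) E T (fun z => |sn h c z|) (fun _ => abs_nonneg _)
    (fun p hp => ⟨(hEmem p hp).1, (hEmem p hp).2.2.1, (hEmem p hp).2.2.2.2.1⟩) hTmem
  have g3 : (E.card : ℝ) ≤ ∑ p ∈ E, |sn h c p.1| + ∑ p ∈ E, |sn h c p.2| := by
    rw [← Finset.sum_add_distrib]
    calc (E.card : ℝ) = ∑ p ∈ E, (1 : ℝ) := by simp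
      _ ≤ _ := Finset.sum_le_sum fun p hp => (hEmem p hp).2.2.2.2.2
  have g4 : c2 / 4 * N ≤ 6 * (2 : ℝ) ^ K * ∑ z ∈ T, |sn h c z| := by
    have : 6 * (2 : ℝ) ^ K * ∑ z ∈ T, |sn h c z|
        = 3 * (2 : ℝ) ^ K * (∑ z ∈ T, |sn h c z|) + 3 * (2 : ℝ) ^ K * (∑ z ∈ T, |sn h c z|) := by
      ring
    rw [this]
    linarith
  have h48 : (0 : ℝ) < 48 * (2 : ℝ) ^ K := by positivity
  rw [hc1, div_mul_eq_mul_div, div_le_iff₀ h48]
  have h5 : 0 ≤ ∑ z ∈ T, |sn h c z| := Finset.sum_nonneg fun _ _ => abs_nonneg _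
  nlinarith [mul_nonneg (by positivity : (0 : ℝ) ≤ 24 * (2 : ℝ) ^ K) h5]

end Pool.Agent.NSqC
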