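import Pool.Agent.Lib.NSqC.RigB
import Pool.Agent.Lib.NSqC.Nond
import Pool.Agent.Lib.NSqC.Kap

/-!
# ENDB: a positive proportion of the edges is bad

PROOF.  `NOND` gives `k, c1`.  `MP484c84Par.exists_gauss` gives `κ` with `κ.norm = p`.  Put
`ε = min (c1 / 4) (1 / (10 (1 + p + p ^ 2)))`, `RIGB hM k ε` gives `η`, and
`c0 = min η c1 / (4 p ^ 2)`.  Suppose `#BE h c N < c0 N`, `N` large.  `X0 = N / p ^ 2` (natural
division), so `N ≤ 2 p ^ 2 X` for `X0 ≤ X ≤ N`, and `#BE h c X ≤ #BE h c N ≤ min η c1 * X`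
(`mem_BE`, monotone in `N`).  For such `X` and `i = 1, 2` let
`n i X = #{z ∈ pann (X / 2^k) X : lb z = i}`.  Then `∑ |sn| = n 1 X + n 2 X`,
`∑ sn = n 1 X - n 2 X` (`sn_of_one`, ...).  `RIGB`: `2 min (n 1 X) (n 2 X) ≤ ε X`, `NOND`:
`n 1 X + n 2 X ≥ c1 X`.  So for each `X` one of the two numbers is `≤ ε X / 2` and the other is
`≥ (c1 - ε) X ≥ 3 ε X`.
STEP.  `n i (X+1) ≤ n i X + #ann X (X+1)` (`mem_pann`), and `#ann X (X+1) ≤ ε X` for `X` large
(`card_ann`).  So if `n i X ≤ ε X / 2` then `n i (X+1) ≤ 3 ε X / 2 < 3 ε (X+1)`, hence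
`n i (X+1) ≤ ε (X+1) / 2`.  By induction the rare label `i` is the same for all `X0 ≤ X ≤ N`.
CONTRADICTION.  Let `A = {w ∈ pann (X0/2) X0 : ¬ star κ ∣ w}`, `#A ≥ 0.4 X0` (`kap_count`).  For
`w ∈ A`: `w`, `κ w`, `κ (κ w)` are primitive (`kap_prim`, `kap_not`), with norms in
`(X/2, X]`, `X = X0, p X0, p ^ 2 X0 ≤ N`, and labels `a, a + h p, a + 2 h p` (`lb_mul`,
`nN κ = p`), which are the three elements of `ZMod 3` as `h p ≠ 0` (`decide`).  One of the three is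
`i`.  As `pann (X/2) X ⊆ pann (X/2^k) X` (`k ≥ 1`) and multiplication by `κ` is injective,
`#A ≤ n i X0 + n i (p X0) + n i (p ^ 2 X0) ≤ ε (1 + p + p ^ 2) X0 / 2 ≤ X0 / 20`, a contradiction.
-/

set_option autoImplicit false

namespace Pool.Agent.NSqC

open Real
open Pool.Agent.NSqP
open Pool.Agent.MP484c84Par (ballG mem_ballG crossG dotG)

open Classical in
private noncomputable def nl (h : ℕ → ZMod 3) (c : ZMod 3) (k : ℕ) (i : ZMod 3) (X : ℕ) :
    Finset GaussianInt :=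
  (pann ((X : ℝ) / (2 ^ k : ℕ)) X).filter (fun z => lb h c z = i)

private lemma mem_nl {h : ℕ → ZMod 3} {c : ZMod 3} {k : ℕ} {i : ZMod 3} {X : ℕ}
    {z : GaussianInt} : z ∈ nl h c k i X ↔
      (((X : ℝ) / (2 ^ k : ℕ) < (nN z : ℝ) ∧ (nN z : ℝ) ≤ X) ∧ Prim z) ∧ lb h c z = i := by
  classical
  unfold nl
  rw [Finset.mem_filter, mem_pann (Nat.cast_nonneg _)]

private lemma sum_sn (h : ℕ → ZMod 3) (c : ZMod 3) (k X : ℕ) :
    ∑ z ∈ pann ((X : ℝ) / (2 ^ k : ℕ)) X, sn h c z =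
      ((nl h c k 1 X).card : ℝ) - ((nl h c k 2 X).card : ℝ) := by
  classical
  unfold nl
  rw [Finset.card_filter, Finset.card_filter]
  push_cast
  rw [← Finset.sum_sub_distrib]
  refine Finset.sum_congr rfl fun z _ => ?_
  have h12 : (1 : ZMod 3) ≠ 2 := by decide
  have h21 : (2 : ZMod 3) ≠ 1 := by decide
  have h01 : (0 : ZMod 3) ≠ 1 := by decide
  have h02 : (0 : ZMod 3) ≠ 2 := by decide
  rcases lb_cases h c z with h1 | h1 | h1
  · rw [sn_of_zero h1, h1, if_neg h01, if_neg h02]; norm_num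
  · rw [sn_of_one h1, h1, if_pos rfl, if_neg h12]; norm_num
  · rw [sn_of_two h1, h1, if_neg h21, if_pos rfl]; norm_num

private lemma sum_abs_sn (h : ℕ → ZMod 3) (c : ZMod 3) (k X : ℕ) :
    ∑ z ∈ pann ((X : ℝ) / (2 ^ k : ℕ)) X, |sn h c z| =
      ((nl h c k 1 X).card : ℝ) + ((nl h c k 2 X).card : ℝ) := by
  classical
  unfold nl
  rw [Finset.card_filter, Finset.card_filter]
  push_cast
  rw [← Finset.sum_add_distrib]
  refine Finset.sum_congr rfl fun z _ => ?_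
  have h12 : (1 : ZMod 3) ≠ 2 := by decide
  have h21 : (2 : ZMod 3) ≠ 1 := by decide
  have h01 : (0 : ZMod 3) ≠ 1 := by decide
  have h02 : (0 : ZMod 3) ≠ 2 := by decide
  rcases lb_cases h c z with h1 | h1 | h1
  · rw [sn_of_zero h1, h1, if_neg h01, if_neg h02]; norm_num
  · rw [sn_of_one h1, h1, if_pos rfl, if_neg h12]; norm_num
  · rw [sn_of_two h1, h1, if_neg h21, if_pos rfl]; norm_num

/-- the other label -/
private def oth (i : ZMod 3) : ZMod 3 := -i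

private lemma step_card (h : ℕ → ZMod 3) (c : ZMod 3) (k : ℕ) (i : ZMod 3) (X : ℕ) :
    ((nl h c k i (X + 1)).card : ℝ) ≤ ((nl h c k i X).card : ℝ) +
      ((ann (X : ℝ) ((X : ℝ) + 1)).card : ℝ) := by
  classical
  have hsub : nl h c k i (X + 1) ⊆ nl h c k i X ∪ ann (X : ℝ) ((X : ℝ) + 1) := by
    intro z hz
    rw [mem_nl] at hz
    obtain ⟨⟨⟨h1, h2⟩, h3⟩, h4⟩ := hz
    push_cast at h1 h2
    rw [Finset.mem_union, mem_nl, mem_ann (by positivity)]
    by_cases hle : (nN z : ℝ) ≤ X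
    · left
      refine ⟨⟨⟨?_, hle⟩, h3⟩, h4⟩
      refine lt_of_le_of_lt ?_ h1
      push_cast
      gcongr
      linarith
    · right
      exact ⟨not_le.1 hle, h2⟩
  exact_mod_cast (Finset.card_le_card hsub).trans (Finset.card_union_le _ _)

private lemma ann_small (C ε : ℝ) (hC : 0 < C) (hε : 0 < ε) : ∃ X1 : ℕ, 1 ≤ X1 ∧ ∀ X : ℕ, X1 ≤ X →
    π * ((X : ℝ) + 1 - X) + C * (√((X : ℝ) + 1) + 1) ≤ ε * X := by
  refine ⟨⌈((4 + 3 * C) / ε) ^ 2⌉₊ + 1, by omega, fun X hX => ?_⟩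
  have h1 : ((4 + 3 * C) / ε) ^ 2 ≤ X := by
    refine (Nat.le_ceil _).trans ?_
    exact_mod_cast (by omega : ⌈((4 + 3 * C) / ε) ^ 2⌉₊ ≤ X)
  have hX1 : (1 : ℝ) ≤ X := by exact_mod_cast (by omega : 1 ≤ X)
  have hs0 : 0 ≤ √(X : ℝ) := sqrt_nonneg _
  have hs : √(X : ℝ) * √(X : ℝ) = X := mul_self_sqrt (by linarith)
  have hs1 : 1 ≤ √(X : ℝ) := by
    rw [Real.one_le_sqrt]; exact hX1
  have h2 : (4 + 3 * C) / ε ≤ √(X : ℝ) := by
    apply Real.le_sqrt_of_sq_le h1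
  rw [div_le_iff₀ hε] at h2
  have h3 : √((X : ℝ) + 1) ≤ 2 * √(X : ℝ) := by
    rw [Real.sqrt_le_left (by positivity)]
    nlinarith
  have h4 : π ≤ 4 := pi_le_four
  have h5 : π * ((X : ℝ) + 1 - X) = π := by ring
  rw [h5]
  have h6 : C * (√((X : ℝ) + 1) + 1) ≤ C * (3 * √(X : ℝ)) := by
    apply mul_le_mul_of_nonneg_left _ hC.le
    linarith
  nlinarith

private lemma three_labels (a t i : ZMod 3) (ht : t ≠ 0) : a = i ∨ t + a = i ∨ t + (t + a) = i := by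
  revert a t i
  decide

theorem THMB (hM : MRUkStmt) (p : ℕ) (hp : p.Prime) (hp4 : p % 4 = 1) :
    ∃ c0 : ℝ, 0 < c0 ∧ ∃ N0 : ℕ, ∀ h : ℕ → ZMod 3, CA h → h p ≠ 0 → ∀ c : ZMod 3, ∀ N : ℕ,
      N0 ≤ N → c0 * N ≤ ((BE h c N).card : ℝ) := by
  classical
  have hp2 : (2 : ℝ) ≤ p := by exact_mod_cast hp.two_le
  have hppos : 0 < p := hp.pos
  obtain ⟨κ, hκ⟩ := Pool.Agent.MP484c84Par.exists_gauss hp (Or.inr hp4)
  have hκ0 : κ ≠ 0 := by
    rintro rfl
    simp at hκ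
    omega
  have hκn : nN κ = p := by unfold nN; rw [hκ, Int.natAbs_natCast]
  obtain ⟨k, hk, c1, hc1, N1, hNOND⟩ := NOND
  obtain ⟨Xk, hkap⟩ := kap_count hp hp4 hκ
  obtain ⟨C1, hC1, hann⟩ := card_ann
  set D : ℝ := 1 + p + (p : ℝ) ^ 2 with hD
  have hD0 : 0 < D := by positivity
  set ε : ℝ := min (c1 / 4) (1 / (10 * D)) with hε
  have hε0 : 0 < ε := lt_min (by positivity) (by positivity)
  have hεc : ε ≤ c1 / 4 := min_le_left _ _
  have hεD : ε * D ≤ 1 / 10 := by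
    have h1 : ε ≤ 1 / (10 * D) := min_le_right _ _
    calc ε * D ≤ 1 / (10 * D) * D := mul_le_mul_of_nonneg_right h1 hD0.le
      _ = 1 / 10 := by field_simp
  obtain ⟨η, hη, N2, hRIG⟩ := RIGB hM k ε hε0
  obtain ⟨X1, hX1, hsm⟩ := ann_small C1 ε hC1 hε0
  have h2k : (2 : ℝ) ≤ ((2 ^ k : ℕ) : ℝ) := by
    have : 2 ^ 1 ≤ 2 ^ k := Nat.pow_le_pow_right (by norm_num) hk
    exact_mod_cast this
  refine ⟨min η c1 / (4 * p ^ 2), by positivity,
    p ^ 2 * (N1 + N2 + X1 + Xk + 1) + p ^ 2, ?_⟩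
  intro h hh hhp c N hN
  by_contra hcon
  push Not at hcon
  set X0 : ℕ := N / p ^ 2 with hX0
  have hp2pos : 0 < p ^ 2 := by positivity
  have hX0ge : N1 + N2 + X1 + Xk + 1 + 1 ≤ X0 := by
    rw [hX0, Nat.le_div_iff_mul_le hp2pos]
    nlinarith
  have hpX0 : p ^ 2 * X0 ≤ N := Nat.mul_div_le N (p ^ 2)
  have hNlt : N < p ^ 2 * (X0 + 1) := Nat.lt_mul_div_succ N hp2pos
  -- the dichotomy at every scale
  have hbase : ∀ X : ℕ, X0 ≤ X → X ≤ N →
      ((BE h c X).card : ℝ) ≤ η * X ∧ ((BE h c X).card : ℝ) ≤ c1 * X := by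
    intro X h1 h2
    have h3 : ((BE h c X).card : ℝ) ≤ ((BE h c N).card : ℝ) := by
      have : (BE h c X).card ≤ (BE h c N).card := by
        apply Finset.card_le_card
        intro e he
        rw [mem_BE] at he ⊢
        exact ⟨he.1.trans h2, he.2.1.trans h2, he.2.2⟩
      exact_mod_cast this
    have h4 : (N : ℝ) ≤ 2 * p ^ 2 * X := by
      have h5 : (N : ℝ) < (p : ℝ) ^ 2 * (X0 + 1) := by exact_mod_cast hNlt
      have h6 : (X0 : ℝ) ≤ X := by exact_mod_cast h1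
      have h7 : (1 : ℝ) ≤ X0 := by exact_mod_cast (by omega : 1 ≤ X0)
      have h8 : (p : ℝ) ^ 2 * (X0 + 1) ≤ (p : ℝ) ^ 2 * (2 * X) := by
        apply mul_le_mul_of_nonneg_left _ (by positivity)
        linarith
      linarith
    have h5 : ((BE h c X).card : ℝ) ≤ min η c1 * X := by
      have h6 : min η c1 / (4 * (p : ℝ) ^ 2) * N ≤ min η c1 / (4 * (p : ℝ) ^ 2) *
          (2 * p ^ 2 * X) := by
        apply mul_le_mul_of_nonneg_left h4
        have : 0 < min η c1 := lt_min hη hc1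
        positivity
      have h7 : min η c1 / (4 * (p : ℝ) ^ 2) * (2 * p ^ 2 * X) = min η c1 * X / 2 := by
        have hpne : (p : ℝ) ≠ 0 := by positivity
        field_simp
        ring
      have h8 : 0 ≤ min η c1 * X := by
        have : 0 < min η c1 := lt_min hη hc1
        positivity
      linarith
    have hX0r : (0 : ℝ) ≤ X := Nat.cast_nonneg _
    exact ⟨h5.trans (mul_le_mul_of_nonneg_right (min_le_left _ _) hX0r),
      h5.trans (mul_le_mul_of_nonneg_right (min_le_right _ _) hX0r)⟩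
  have hsum : ∀ X : ℕ, X0 ≤ X → X ≤ N →
      c1 * X ≤ ((nl h c k 1 X).card : ℝ) + ((nl h c k 2 X).card : ℝ) := by
    intro X h1 h2
    have h3 := hNOND X (by omega) h c (hbase X h1 h2).2
    rwa [sum_abs_sn] at h3
  have hmin : ∀ X : ℕ, X0 ≤ X → X ≤ N →
      2 * ((nl h c k 1 X).card : ℝ) ≤ ε * X ∨ 2 * ((nl h c k 2 X).card : ℝ) ≤ ε * X := by
    intro X h1 h2
    have h3 := hRIG X (by omega) h hh c (hbase X h1 h2).1
    rw [sum_abs_sn, sum_sn] at h3
    rcases abs_cases (((nl h c k 1 X).card : ℝ) - ((nl h c k 2 X).card : ℝ)) with h4 | h4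
    · right; linarith [h4.1]
    · left; linarith [h4.1]
  -- the step
  have hstep : ∀ i j : ZMod 3, (i = 1 ∧ j = 2 ∨ i = 2 ∧ j = 1) → ∀ X : ℕ, X0 ≤ X → X + 1 ≤ N →
      2 * ((nl h c k i X).card : ℝ) ≤ ε * X →
      2 * ((nl h c k i (X + 1)).card : ℝ) ≤ ε * ((X + 1 : ℕ) : ℝ) := by
    intro i j hij X h1 h2 h3
    by_contra hne
    have h4 : 2 * ((nl h c k j (X + 1)).card : ℝ) ≤ ε * ((X + 1 : ℕ) : ℝ) := by
      rcases hmin (X + 1) (by omega) h2 with h5 | h5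
      · rcases hij with ⟨rfl, rfl⟩ | ⟨rfl, rfl⟩
        · exact absurd h5 hne
        · exact h5
      · rcases hij with ⟨rfl, rfl⟩ | ⟨rfl, rfl⟩
        · exact h5
        · exact absurd h5 hne
    have h5 : c1 * ((X + 1 : ℕ) : ℝ) ≤ ((nl h c k i (X + 1)).card : ℝ) +
        ((nl h c k j (X + 1)).card : ℝ) := by
      have h6 := hsum (X + 1) (by omega) h2
      rcases hij with ⟨rfl, rfl⟩ | ⟨rfl, rfl⟩
      · exact h6
      · linarith
    have h6 := step_card h c k i X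
    have h7 : ((ann (X : ℝ) ((X : ℝ) + 1)).card : ℝ) ≤ ε * X := by
      have h8 := (abs_le.1 (hann (X : ℝ) ((X : ℝ) + 1) (Nat.cast_nonneg _) (by linarith))).2
      have h9 := hsm X (by omega)
      linarith
    push_cast at h4 h5
    have hXr : (1 : ℝ) ≤ X := by exact_mod_cast (by omega : 1 ≤ X)
    have h8 : 4 * ε * ((X : ℝ) + 1) ≤ c1 * (X + 1) := by
      apply mul_le_mul_of_nonneg_right _ (by positivity)
      linarith
    nlinarith
  have hall : ∀ i j : ZMod 3, (i = 1 ∧ j = 2 ∨ i = 2 ∧ j = 1) →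
      2 * ((nl h c k i X0).card : ℝ) ≤ ε * X0 → ∀ X : ℕ, X0 ≤ X → X ≤ N →
      2 * ((nl h c k i X).card : ℝ) ≤ ε * X := by
    intro i j hij h0 X h1
    induction X, h1 using Nat.le_induction with
    | base => intro _; exact h0
    | succ n hn ih =>
      intro h2
      exact hstep i j hij n hn h2 (ih (by omega))
  have hX0N : X0 ≤ N := Nat.div_le_self _ _
  obtain ⟨i, hi⟩ : ∃ i : ZMod 3, ∀ X : ℕ, X0 ≤ X → X ≤ N →
      2 * ((nl h c k i X).card : ℝ) ≤ ε * X := by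
    rcases hmin X0 le_rfl hX0N with h1 | h1
    · exact ⟨1, hall 1 2 (Or.inl ⟨rfl, rfl⟩) h1⟩
    · exact ⟨2, hall 2 1 (Or.inr ⟨rfl, rfl⟩) h1⟩
  have hX0p : X0 ≤ p * X0 := Nat.le_mul_of_pos_left _ hppos
  have hpp : p * X0 ≤ p ^ 2 * X0 := by
    rw [sq, mul_assoc]; exact Nat.le_mul_of_pos_left _ hppos
  have hi0 := hi X0 le_rfl hX0N
  have hi1 := hi (p * X0) hX0p (hpp.trans hpX0)
  have hi2 := hi (p ^ 2 * X0) (hX0p.trans hpp) hpX0
  -- the set A
  set A := (pann ((X0 : ℝ) / 2) X0).filter (fun w => ¬ star κ ∣ w) with hA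
  have hAlow : (4 / 10 : ℝ) * X0 ≤ (A.card : ℝ) := hkap X0 (by omega)
  have hX0r : (0 : ℝ) < X0 := by exact_mod_cast (by omega : 0 < X0)
  have hmemA : ∀ w ∈ A, (((X0 : ℝ) / 2 < (nN w : ℝ) ∧ (nN w : ℝ) ≤ X0) ∧ Prim w) ∧
      ¬ star κ ∣ w := by
    intro w hw
    rw [hA, Finset.mem_filter, mem_pann hX0r.le] at hw
    exact hw
  have hdiv : ∀ X : ℝ, 0 ≤ X → X / ((2 ^ k : ℕ) : ℝ) ≤ X / 2 := by
    intro X hX
    exact div_le_div_of_nonneg_left hX (by norm_num) h2k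
  have hcov : A ⊆ A.filter (fun w => lb h c w = i) ∪
      (A.filter (fun w => lb h c (κ * w) = i) ∪ A.filter (fun w => lb h c (κ * (κ * w)) = i)) := by
    intro w hw
    have hw0 : w ≠ 0 := prim_ne_zero (hmemA w hw).1.2
    have e1 : lb h c (κ * w) = h p + lb h c w := by
      rw [lb_mul hh c hκ0 hw0, hκn]
    have e2 : lb h c (κ * (κ * w)) = h p + (h p + lb h c w) := by
      rw [lb_mul hh c hκ0 (mul_ne_zero hκ0 hw0), hκn, e1]
    rcases three_labels (lb h c w) (h p) i hhp with h1 | h1 | h1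
    · exact Finset.mem_union_left _ (Finset.mem_filter.2 ⟨hw, h1⟩)
    · exact Finset.mem_union_right _ (Finset.mem_union_left _
        (Finset.mem_filter.2 ⟨hw, by rw [e1]; exact h1⟩))
    · exact Finset.mem_union_right _ (Finset.mem_union_right _
        (Finset.mem_filter.2 ⟨hw, by rw [e2]; exact h1⟩))
  have hb0 : (A.filter (fun w => lb h c w = i)).card ≤ (nl h c k i X0).card := by
    apply Finset.card_le_card
    intro w hw
    rw [Finset.mem_filter] at hw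
    obtain ⟨⟨⟨h1, h2⟩, h3⟩, h4⟩ := hmemA w hw.1
    rw [mem_nl]
    exact ⟨⟨⟨lt_of_le_of_lt (hdiv _ hX0r.le) h1, h2⟩, h3⟩, hw.2⟩
  have hb1 : (A.filter (fun w => lb h c (κ * w) = i)).card ≤ (nl h c k i (p * X0)).card := by
    apply Finset.card_le_card_of_injOn (fun w => κ * w)
    · intro w hw
      rw [Finset.mem_coe, Finset.mem_filter] at hw
      obtain ⟨⟨⟨h1, h2⟩, h3⟩, h4⟩ := hmemA w hw.1
      rw [Finset.mem_coe, mem_nl, nN_mul, hκn]
      push_cast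
      refine ⟨⟨⟨?_, ?_⟩, kap_prim hp hκ h3 h4⟩, hw.2⟩
      · have h5 : (p : ℝ) * (X0 / 2) < p * nN w := by gcongr
        have h6 := hdiv ((p : ℝ) * X0) (by positivity)
        push_cast at h6
        linarith
      · gcongr
    · intro a _ b _ hab
      exact mul_left_cancel₀ hκ0 hab
  have hb2 : (A.filter (fun w => lb h c (κ * (κ * w)) = i)).card ≤
      (nl h c k i (p ^ 2 * X0)).card := by
    apply Finset.card_le_card_of_injOn (fun w => κ * (κ * w))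
    · intro w hw
      rw [Finset.mem_coe, Finset.mem_filter] at hw
      obtain ⟨⟨⟨h1, h2⟩, h3⟩, h4⟩ := hmemA w hw.1
      rw [Finset.mem_coe, mem_nl, nN_mul, nN_mul, hκn]
      push_cast
      refine ⟨⟨⟨?_, ?_⟩, kap_prim hp hκ (kap_prim hp hκ h3 h4) (kap_not hp hp4 hκ h4)⟩, hw.2⟩
      · have h5 : (p : ℝ) ^ 2 * (X0 / 2) < (p : ℝ) ^ 2 * nN w := by gcongr
        have h6 := hdiv ((p : ℝ) ^ 2 * X0) (by positivity)
        push_cast at h6
        nlinarith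
      · have h5 : (p : ℝ) ^ 2 * nN w ≤ (p : ℝ) ^ 2 * X0 := by gcongr
        nlinarith
    · intro a _ b _ hab
      exact mul_left_cancel₀ hκ0 (mul_left_cancel₀ hκ0 hab)
  have hAup : (A.card : ℝ) ≤ ((nl h c k i X0).card : ℝ) + ((nl h c k i (p * X0)).card : ℝ) +
      ((nl h c k i (p ^ 2 * X0)).card : ℝ) := by
    have h1 := (Finset.card_le_card hcov).trans (Finset.card_union_le _ _)
    have h2 := Finset.card_union_le (A.filter (fun w => lb h c (κ * w) = i))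
      (A.filter (fun w => lb h c (κ * (κ * w)) = i))
    have h3 : A.card ≤ (nl h c k i X0).card + (nl h c k i (p * X0)).card +
      (nl h c k i (p ^ 2 * X0)).card := by omega
    exact_mod_cast h3
  push_cast at hi1 hi2
  have h1 : ε * X0 + ε * (p * X0) + ε * (p ^ 2 * X0) = ε * D * X0 := by rw [hD]; ring
  have h2 : ε * D * X0 ≤ 1 / 10 * X0 := mul_le_mul_of_nonneg_right hεD hX0r.le
  linarith

end Pool.Agent.NSqC
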