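import Pool.Agent.Lib.NSqC.Defs

/-!
# FAN: vectors of label zero

PROOF of `fan`.  `v' = v + k u` for an integer `k` (`k = crossG (v' - v) v`, see `nb_count` in
`NSqP/NbC.lean`: both coordinates by `linear_combination`).
Case `k ≥ 0`: `w j = v + j u`, `j = 0, ..., k`; `crossG u (w j) = 1`; `nN (w j) ≤ x` because
`k (w j) = (k - j) v + j v'` (`MP484c84Par.norm_le_of_convex`; for `k = 0` the labels of `v = v'`
would be both `1` and `2`).  Let `j` be the least index with `lb (w (j+1)) ≠ 1` (exists, since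
`lb (w k) = 2`; so `lb (w j) = 1`).  If `lb (w (j+1)) = 0`, then `lb u + lb (w (j+1)) = 0`:
`Star` with `v := w (j+1)`.  If it is `2`: `lb (w j) + lb (w j + u) = 1 + 2 = 0`: `Star` with
`v := w j`, second alternative (`w j + u = w (j+1)`, norm `≤ x`).
Case `k < 0`: the same with `w j = v' + j u`, `j = 0, ..., -k`, from label `2` to label `1`; the
least `j` with `lb (w (j+1)) ≠ 2`.

PROOF of `ty_neg`: `lb_neg`; `crossG (-u) v = crossG u (-v)`, `nN_neg'`.

PROOF of `ty_edge`: cases on `lb u`, `lb v` (each `0, 1, 2`).  Both nonzero: the types are the labels,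
they are different, so `{lb u, lb v} = {1, 2}` and `lb u + lb v = 0`: `Star u` (with `v`).  Both
zero: sum zero, `Star u`.  `lb u = 0`, `lb v = 1`: `ty u = 1 = ty v` (the vector `v`), contradiction.
`lb u = 0`, `lb v = 2`: `ty v = 2`, so `ty u = 1`, i.e. there is `w`, `nN w ≤ x`, `crossG u w = 1`,
`lb w = 1`: `fan` gives `Star u`.  `lb v = 0`, `lb u ≠ 0`: the same for the edge `(v, -u)`
(`crossG v (-u) = 1`, `lb (-u) = lb u`): gives `Star v` or a contradiction.
-/

set_option autoImplicit false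

namespace Pool.Agent.NSqC

open Real
open Pool.Agent.NSqP
open Pool.Agent.MP484c84Par (ballG mem_ballG crossG dotG)

private lemma fan_step {α : Type} (L : ℕ → α) (a : α) : ∀ k : ℕ, L 0 = a → L k ≠ a →
    ∃ j, j < k ∧ L j = a ∧ L (j + 1) ≠ a := by
  intro k
  induction k with
  | zero => intro h0 hk; exact absurd h0 hk
  | succ k ih =>
    intro h0 hk
    by_cases h : L k = a
    · exact ⟨k, Nat.lt_succ_self k, h, hk⟩
    · obtain ⟨j, hj, h1, h2⟩ := ih h0 h
      exact ⟨j, hj.trans (Nat.lt_succ_self k), h1, h2⟩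

private lemma fan_quad (v u : GaussianInt) (t : ℤ) :
    (v + (t : GaussianInt) * u).norm = v.norm + 2 * t * dotG v u + t ^ 2 * u.norm := by
  simp only [Zsqrtd.norm_def, dotG, Zsqrtd.re_add, Zsqrtd.re_mul, Zsqrtd.im_add, Zsqrtd.im_mul,
    Zsqrtd.re_intCast, Zsqrtd.im_intCast]
  ring

private lemma fan_conv {u v : GaussianInt} {x : ℕ} {k j : ℕ} (hv : nN v ≤ x)
    (hv' : nN (v + ((k : ℤ) : GaussianInt) * u) ≤ x) (hj : j ≤ k) :
    nN (v + ((j : ℤ) : GaussianInt) * u) ≤ x := by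
  rcases Nat.eq_zero_or_pos k with hk | hk
  · have : j = 0 := by omega
    subst this
    simpa using hv
  · have e1 : (v.norm : ℤ) ≤ x := by rw [← nN_cast_int]; exact_mod_cast hv
    have e2 : (v + ((k : ℤ) : GaussianInt) * u).norm ≤ x := by
      rw [← nN_cast_int]; exact_mod_cast hv'
    have e3 : (0 : ℤ) ≤ u.norm := by rw [← nN_cast_int]; positivity
    have e4 : (v + ((j : ℤ) : GaussianInt) * u).norm ≤ x := by
      rw [fan_quad] at e2 ⊢
      have hk' : (0 : ℤ) < k := by exact_mod_cast hk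
      have hj' : (j : ℤ) ≤ k := by exact_mod_cast hj
      have hj0 : (0 : ℤ) ≤ j := by positivity
      have h3 : (0 : ℤ) ≤ u.norm * (j * k * (k - j)) :=
        mul_nonneg e3 (mul_nonneg (mul_nonneg hj0 hk'.le) (sub_nonneg.2 hj'))
      have h4 : (k : ℤ) * (v.norm + 2 * (j : ℤ) * dotG v u + (j : ℤ) ^ 2 * u.norm) ≤ k * x := by
        have h5 : ((k : ℤ) - j) * v.norm ≤ (k - j) * x :=
          mul_le_mul_of_nonneg_left e1 (sub_nonneg.2 hj')
        have h6 : (j : ℤ) * (v.norm + 2 * (k : ℤ) * dotG v u + (k : ℤ) ^ 2 * u.norm) ≤ j * x :=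
          mul_le_mul_of_nonneg_left e2 hj0
        nlinarith
      exact le_of_mul_le_mul_left h4 hk'
    rw [← nN_cast_int] at e4
    exact_mod_cast e4

private lemma fan_cross (u v : GaussianInt) (t : ℤ) :
    crossG u (v + (t : GaussianInt) * u) = crossG u v := by
  simp only [crossG, Zsqrtd.re_add, Zsqrtd.re_mul, Zsqrtd.im_add, Zsqrtd.im_mul,
    Zsqrtd.re_intCast, Zsqrtd.im_intCast]
  ring

private lemma fan_nb {u v v' : GaussianInt} (h1 : crossG u v = 1) (h2 : crossG u v' = 1) :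
    v' = v + ((crossG (v' - v) v : ℤ) : GaussianInt) * u := by
  apply Zsqrtd.ext
  · simp only [Zsqrtd.re_add, Zsqrtd.re_mul, Zsqrtd.re_intCast, Zsqrtd.im_intCast, crossG,
      Zsqrtd.re_sub, Zsqrtd.im_sub] at h1 h2 ⊢
    linear_combination v.re * (h2 - h1) + (-(v'.re - v.re)) * h1
  · simp only [Zsqrtd.im_add, Zsqrtd.im_mul, Zsqrtd.re_intCast, Zsqrtd.im_intCast, crossG,
      Zsqrtd.re_sub, Zsqrtd.im_sub] at h1 h2 ⊢
    linear_combination v.im * (h2 - h1) + (-(v'.im - v.im)) * h1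

private lemma fan_chain (h : ℕ → ZMod 3) (c : ZMod 3) (x : ℕ) {u v : GaussianInt} {k : ℕ}
    (a : ZMod 3) (ha : a ≠ 0) (hv : nN v ≤ x)
    (hv' : nN (v + ((k : ℤ) : GaussianInt) * u) ≤ x) (h1 : crossG u v = 1) (hu : lb h c u = 0)
    (hl : lb h c v = a) (hl' : lb h c (v + ((k : ℤ) : GaussianInt) * u) ≠ a) :
    Star h c x u := by
  obtain ⟨j, hj, e1, e2⟩ := fan_step (fun j : ℕ => lb h c (v + ((j : ℤ) : GaussianInt) * u)) a k
    (by simpa using hl) hl'
  have hN1 : nN (v + ((j : ℤ) : GaussianInt) * u) ≤ x := fan_conv hv hv' hj.le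
  have hN2 : nN (v + (((j + 1 : ℕ) : ℤ) : GaussianInt) * u) ≤ x := fan_conv hv hv' hj
  have hs : v + (((j + 1 : ℕ) : ℤ) : GaussianInt) * u = v + ((j : ℤ) : GaussianInt) * u + u := by
    push_cast
    ring
  have hc2 : crossG u (v + (((j + 1 : ℕ) : ℤ) : GaussianInt) * u) = 1 := by
    rw [fan_cross, h1]
  have hc1 : crossG u (v + ((j : ℤ) : GaussianInt) * u) = 1 := by
    rw [fan_cross, h1]
  by_cases h0 : lb h c (v + (((j + 1 : ℕ) : ℤ) : GaussianInt) * u) = 0
  · exact ⟨_, hN2, hc2, Or.inl (by rw [hu, h0, add_zero])⟩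
  · refine ⟨_, hN1, hc1, Or.inr ⟨?_, ?_⟩⟩
    · rw [← hs]; exact hN2
    · rw [← hs]
      have e1' : lb h c (v + ((j : ℤ) : GaussianInt) * u) = a := e1
      have e2' : lb h c (v + (((j + 1 : ℕ) : ℤ) : GaussianInt) * u) ≠ a := e2
      rw [e1']
      revert h0 e2'
      generalize lb h c (v + (((j + 1 : ℕ) : ℤ) : GaussianInt) * u) = b
      clear e1' e1 e2 hl hl'
      revert b
      revert a
      decide

theorem fan (h : ℕ → ZMod 3) (c : ZMod 3) (x : ℕ) {u v v' : GaussianInt} (hv : nN v ≤ x)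
    (hv' : nN v' ≤ x) (h1 : crossG u v = 1) (h2 : crossG u v' = 1) (hu : lb h c u = 0)
    (hl : lb h c v = 1) (hl' : lb h c v' = 2) : Star h c x u := by
  have hne1 : (1 : ZMod 3) ≠ 0 := by decide
  have hne2 : (2 : ZMod 3) ≠ 0 := by decide
  have hne3 : (2 : ZMod 3) ≠ 1 := by decide
  have hne4 : (1 : ZMod 3) ≠ 2 := by decide
  rcases le_total 0 (crossG (v' - v) v) with hk | hk
  · obtain ⟨k, hk'⟩ := Int.eq_ofNat_of_zero_le hk
    have e := fan_nb h1 h2
    rw [hk'] at e
    refine fan_chain h c x (k := k) 1 hne1 hv ?_ h1 hu hl ?_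
    · rw [← e]; exact hv'
    · rw [← e, hl']; exact hne3
  · have hk2 : 0 ≤ - (crossG (v' - v) v) := by linarith
    obtain ⟨k, hk'⟩ := Int.eq_ofNat_of_zero_le hk2
    have e := fan_nb h1 h2
    have e2 : v = v' + ((k : ℤ) : GaussianInt) * u := by
      have h3 : crossG (v' - v) v = -(k : ℤ) := by linarith
      rw [h3] at e
      rw [e]
      push_cast
      ring
    refine fan_chain h c x (k := k) 2 hne2 hv' ?_ h2 hu hl' ?_
    · rw [← e2]; exact hv
    · rw [← e2, hl]; exact hne4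

theorem ty_neg (h : ℕ → ZMod 3) (c : ZMod 3) (x : ℕ) (u : GaussianInt) :
    ty h c x (-u) = ty h c x u := by
  classical
  have key : (∃ v : GaussianInt, nN v ≤ x ∧ crossG (-u) v = 1 ∧ lb h c v = 1) ↔
      (∃ v : GaussianInt, nN v ≤ x ∧ crossG u v = 1 ∧ lb h c v = 1) := by
    have hc : ∀ a b : GaussianInt, crossG (-a) (-b) = crossG a b := by
      intro a b
      simp only [crossG, Zsqrtd.re_neg, Zsqrtd.im_neg]
      ring
    constructor
    · rintro ⟨v, h1, h2, h3⟩
      refine ⟨-v, by rwa [nN_neg'], ?_, by rwa [lb_neg]⟩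
      have := hc (-u) v
      rw [neg_neg] at this
      rw [this, h2]
    · rintro ⟨v, h1, h2, h3⟩
      exact ⟨-v, by rwa [nN_neg'], by rw [hc, h2], by rwa [lb_neg]⟩
  unfold ty
  rw [lb_neg]
  simp only [key]

private lemma ty_of_ne {h : ℕ → ZMod 3} {c : ZMod 3} {x : ℕ} {u : GaussianInt}
    (hu : lb h c u ≠ 0) : ty h c x u = lb h c u := by
  unfold ty
  rw [if_pos hu]

/-- the case of one zero label -/
private lemma ty_edge_aux (h : ℕ → ZMod 3) (c : ZMod 3) (x : ℕ) {u v : GaussianInt}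
    (hv : nN v ≤ x) (h1 : crossG u v = 1) (hne : ty h c x u ≠ ty h c x v)
    (hu0 : lb h c u = 0) (hv0 : lb h c v ≠ 0) : Star h c x u := by
  classical
  have hcase : lb h c v = 1 ∨ lb h c v = 2 := by
    rcases lb_cases h c v with h2 | h2 | h2
    · exact absurd h2 hv0
    · exact Or.inl h2
    · exact Or.inr h2
  rw [ty_of_ne hv0] at hne
  have hty : ty h c x u =
      if ∃ v : GaussianInt, nN v ≤ x ∧ crossG u v = 1 ∧ lb h c v = 1 then 1 else 2 := by
    unfold ty
    rw [if_neg (not_not.2 hu0)]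
  rw [hty] at hne
  by_cases hex : ∃ v : GaussianInt, nN v ≤ x ∧ crossG u v = 1 ∧ lb h c v = 1
  · rw [if_pos hex] at hne
    obtain ⟨w, hw1, hw2, hw3⟩ := hex
    rcases hcase with h2 | h2
    · exact absurd h2.symm hne
    · exact fan h c x hw1 hv hw2 h1 hu0 hw3 h2
  · rw [if_neg hex] at hne
    rcases hcase with h2 | h2
    · exact absurd ⟨v, hv, h1, h2⟩ hex
    · exact absurd h2.symm hne

theorem ty_edge (h : ℕ → ZMod 3) (c : ZMod 3) (x : ℕ) {u v : GaussianInt} (hu : nN u ≤ x)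
    (hv : nN v ≤ x) (h1 : crossG u v = 1) (hne : ty h c x u ≠ ty h c x v) :
    Star h c x u ∨ Star h c x v := by
  by_cases hu0 : lb h c u = 0
  · by_cases hv0 : lb h c v = 0
    · exact Or.inl ⟨v, hv, h1, Or.inl (by rw [hu0, hv0, add_zero])⟩
    · exact Or.inl (ty_edge_aux h c x hv h1 hne hu0 hv0)
  · by_cases hv0 : lb h c v = 0
    · right
      have hc : crossG v (-u) = 1 := by
        have h3 : crossG v (-u) = crossG u v := by
          simp only [crossG, Zsqrtd.re_neg, Zsqrtd.im_neg]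
          ring
        exact h3.trans h1
      refine ty_edge_aux h c x (u := v) (v := -u) (by rwa [nN_neg']) hc ?_ hv0 (by rwa [lb_neg])
      rw [ty_neg]
      exact hne.symm
    · left
      refine ⟨v, hv, h1, Or.inl ?_⟩
      rw [ty_of_ne hu0, ty_of_ne hv0] at hne
      revert hne hu0 hv0
      generalize lb h c u = a
      generalize lb h c v = b
      revert a b
      decide

end Pool.Agent.NSqC
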