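import Pool.Agent.Lib.NSqC.SupB
import Pool.Agent.Lib.LogCh.HHe

/-!
# HALFB: functions of finite order do not correlate with `ξ ^ m`, `m ≠ 0`

The reduction from primitive elements to all elements is that of `LogCh/HPr.lean`.

PROOF.  `G = gk f m H v`, completely multiplicative on nonzero elements (`gk_CMC`), `‖G‖ ≤ 1`.
For `z ≠ 0`: `[cont z = 1] = ∑_{d ∣ cont z} μ d` (`ArithmeticFunction.moebius_mul_coe_zeta`), and
`d ∣ cont z` iff `((d : ℤ) : GaussianInt) ∣ z` (`Zsqrtd.intCast_dvd`), in which case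
`d ^ 2 ∣ nN z`, `d ^ 2 ≤ x`.  So
`∑ z ∈ pann 0 x, G z = ∑ d ∈ Icc 1 ⌊√x⌋₊, μ d * ∑ z ∈ (ann 0 x).filter (d ∣ z), G z =
∑ d, μ d * G d * ∑ w ∈ ann 0 (x / d ^ 2), G w` (`sum_dvd` of NSqP/LC with `κ = d`, `a = 0`,
`nN d = d ^ 2`, and multiplicativity).
Let `D ≥ 1` with `C / D ≤ ε / 2` where `#ann 0 b ≤ C b` (`card_ann_le`), and `ε' = ε / 4`.
For `d ≤ D`: `y = x / d ^ 2 ≥ x / D ^ 2 ≥ y0 (ε')` for `x` large and
`y ^ 3 ≥ x ^ 3 / D ^ 6 ≥ 4 x ^ 2 ≥ |m|` for `x ≥ 4 D ^ 6`, so `‖∑ w‖ ≤ ε' x / d ^ 2`; sum over `d`: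
`≤ 2 ε' x` (`∑ 1/d² ≤ 2`).
For `d > D`: `≤ C x / d ^ 2`, sum `≤ C x / D` (`∑_{d > D} 1/d² ≤ 1/D`).
-/

set_option autoImplicit false

namespace Pool.Agent.NSqC

open Real
open Pool.Agent.NSqP
open Pool.Agent.LogCh.HG
open Pool.Agent.MP484c84Par (ballG mem_ballG crossG dotG)

private lemma nN_nat (d : ℕ) : nN ((d : ℤ) : GaussianInt) = d ^ 2 := by
  unfold nN
  rw [Zsqrtd.norm_intCast, ← sq, Int.natAbs_pow, Int.natAbs_natCast]

private lemma dvd_cont {d : ℕ} {z : GaussianInt} :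
    d ∣ cont z ↔ ((d : ℤ) : GaussianInt) ∣ z := by
  rw [Zsqrtd.intCast_dvd]
  unfold cont
  constructor
  · intro h
    have h1 : (d : ℤ) ∣ (Int.gcd z.re z.im : ℤ) := Int.natCast_dvd_natCast.2 h
    exact ⟨h1.trans (Int.gcd_dvd_left ..), h1.trans (Int.gcd_dvd_right ..)⟩
  · rintro ⟨h1, h2⟩
    exact Int.natCast_dvd_natCast.1 (Int.dvd_coe_gcd h1 h2)

private lemma cont_pos {z : GaussianInt} (hz : z ≠ 0) : 0 < cont z := by
  rw [Nat.pos_iff_ne_zero]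
  intro h
  unfold cont at h
  rw [Int.gcd_eq_zero_iff] at h
  exact hz (Zsqrtd.ext h.1 h.2)

private lemma moeb_sum (n : ℕ) :
    ∑ d ∈ n.divisors, (ArithmeticFunction.moebius d : ℤ) = if n = 1 then 1 else 0 := by
  have h := congrArg (fun f : ArithmeticFunction ℤ => f n) ArithmeticFunction.moebius_mul_coe_zeta
  rw [ArithmeticFunction.coe_mul_zeta_apply, ArithmeticFunction.one_apply] at h
  exact h

open Classical in
private lemma prim_ind {x : ℝ} {z : GaussianInt} (hz : z ∈ ann 0 x) (hx : 0 ≤ x) :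
    (if Prim z then (1 : ℂ) else 0) = ∑ d ∈ Finset.Icc 1 ⌊√x⌋₊,
      if ((d : ℤ) : GaussianInt) ∣ z then ((ArithmeticFunction.moebius d : ℤ) : ℂ) else 0 := by
  classical
  have hz0 : z ≠ 0 := ne_zero_of_mem_ann le_rfl hz
  have hc := cont_pos hz0
  rw [mem_ann hx] at hz
  rw [← Finset.sum_filter]
  have h1 : (Finset.Icc 1 ⌊√x⌋₊).filter (fun d : ℕ => ((d : ℤ) : GaussianInt) ∣ z) =
      (cont z).divisors := by
    ext d
    rw [Finset.mem_filter, Finset.mem_Icc, Nat.mem_divisors, ← dvd_cont]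
    constructor
    · exact fun h => ⟨h.2, hc.ne'⟩
    · rintro ⟨h, _⟩
      have hd : 0 < d := Nat.pos_of_dvd_of_pos h hc
      refine ⟨⟨hd, ?_⟩, h⟩
      apply Nat.le_floor
      apply Real.le_sqrt_of_sq_le
      obtain ⟨w, hw⟩ := dvd_cont.1 h
      have hw0 : w ≠ 0 := by
        rintro rfl
        rw [mul_zero] at hw
        exact hz0 hw
      have h2 : nN z = d ^ 2 * nN w := by rw [hw, nN_mul, nN_nat]
      have h3 : d ^ 2 ≤ nN z := by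
        rw [h2]
        exact Nat.le_mul_of_pos_right _ (nN_pos hw0)
      calc (d : ℝ) ^ 2 ≤ (nN z : ℝ) := by exact_mod_cast h3
        _ ≤ x := hz.2
  rw [h1, ← Int.cast_sum, moeb_sum]
  by_cases hc1 : cont z = 1
  · have hp : Prim z := hc1
    rw [if_pos hp, if_pos hc1]; simp
  · have hp : ¬ Prim z := hc1
    rw [if_neg hp, if_neg hc1]; simp

private lemma prim_sum {G : GaussianInt → ℂ} (hG : CMC G) {x : ℝ} (hx : 0 ≤ x) :
    ∑ z ∈ pann 0 x, G z = ∑ d ∈ Finset.Icc 1 ⌊√x⌋₊, ((ArithmeticFunction.moebius d : ℤ) : ℂ) *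
      (G ((d : ℤ) : GaussianInt) * ∑ w ∈ ann 0 (x / (d : ℝ) ^ 2), G w) := by
  classical
  have h1 : ∑ z ∈ pann 0 x, G z = ∑ z ∈ ann 0 x, (if Prim z then (1 : ℂ) else 0) * G z := by
    unfold pann
    rw [Finset.sum_filter]
    refine Finset.sum_congr rfl (fun z _ => ?_)
    split_ifs <;> simp
  rw [h1]
  have h2 : ∀ z ∈ ann 0 x, (if Prim z then (1 : ℂ) else 0) * G z =
      ∑ d ∈ Finset.Icc 1 ⌊√x⌋₊, (if ((d : ℤ) : GaussianInt) ∣ z then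
        ((ArithmeticFunction.moebius d : ℤ) : ℂ) * G z else 0) := by
    intro z hz
    rw [prim_ind hz hx, Finset.sum_mul]
    refine Finset.sum_congr rfl (fun d _ => ?_)
    split_ifs <;> simp
  rw [Finset.sum_congr rfl h2, Finset.sum_comm]
  refine Finset.sum_congr rfl (fun d hd => ?_)
  have hd1 : 1 ≤ d := (Finset.mem_Icc.1 hd).1
  have hd0 : ((d : ℤ) : GaussianInt) ≠ 0 := by
    intro h
    have h3 := nN_nat d
    rw [h, nN_zero] at h3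
    have : 0 < d ^ 2 := by positivity
    omega
  rw [← Finset.sum_filter, sum_dvd (fun z => ((ArithmeticFunction.moebius d : ℤ) : ℂ) * G z) hd0
    le_rfl hx, nN_nat, zero_div]
  push_cast
  rw [Finset.mul_sum, Finset.mul_sum]
  refine Finset.sum_congr rfl (fun w hw => ?_)
  have hw0 : w ≠ 0 := ne_zero_of_mem_ann le_rfl hw
  have h3 := hG.mul _ w hd0 hw0
  push_cast at h3
  rw [h3]

private lemma inv_sq_all (N : ℕ) : ∑ d ∈ Finset.Icc 1 N, 1 / (d : ℝ) ^ 2 ≤ 2 := by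
  have h := sum_Ioo_inv_sq_le (α := ℝ) 0 (N + 1)
  have e : Finset.Icc 1 N = Finset.Ioo 0 (N + 1) := by
    ext d
    rw [Finset.mem_Icc, Finset.mem_Ioo]
    omega
  rw [e]
  have h2 : ∑ d ∈ Finset.Ioo 0 (N + 1), 1 / (d : ℝ) ^ 2 =
      ∑ i ∈ Finset.Ioo 0 (N + 1), ((i : ℝ) ^ 2)⁻¹ :=
    Finset.sum_congr rfl (fun d _ => one_div _)
  rw [h2]
  refine h.trans ?_
  norm_num

private lemma inv_sq_tail (D N : ℕ) : ∑ d ∈ Finset.Ioc D N, 1 / (d : ℝ) ^ 2 ≤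
    2 / ((D : ℝ) + 1) := by
  have h := sum_Ioo_inv_sq_le (α := ℝ) D (N + 1)
  have e : Finset.Ioc D N = Finset.Ioo D (N + 1) := by
    ext d
    rw [Finset.mem_Ioc, Finset.mem_Ioo]
    omega
  rw [e]
  have h2 : ∑ d ∈ Finset.Ioo D (N + 1), 1 / (d : ℝ) ^ 2 =
      ∑ i ∈ Finset.Ioo D (N + 1), ((i : ℝ) ^ 2)⁻¹ :=
    Finset.sum_congr rfl (fun d _ => one_div _)
  rw [h2]
  exact h

/-- all elements of norm at most `y` -/
theorem HALLB (hW : W1AStmt) (k : ℕ) (hk : 1 ≤ k) (ε : ℝ) (hε : 0 < ε) : ∃ y0 : ℝ, ∀ y : ℝ,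
    y0 ≤ y → ∀ f : GaussianInt → ℂ, CMC f → (∀ z, z ≠ 0 → f z ^ k = 1) → ∀ m : ℤ, m ≠ 0 →
      f gI * Complex.I ^ m = 1 → |(m : ℝ)| ≤ y ^ 3 → ∀ H v : ℕ, 1 ≤ H →
      ‖∑ z ∈ ann 0 y, gk f m H v z‖ ≤ ε * y := by
  obtain ⟨δ, hδ, x0, h0⟩ := HALASZ ε hε
  obtain ⟨x1, h1⟩ := SUPB hW k hk δ hδ
  refine ⟨max (max x0 x1) 0, fun y hy f hf hfk m hm0 hu hm H v hH => ?_⟩
  have hy0 : x0 ≤ y := (le_max_left _ _).trans ((le_max_left _ _).trans hy)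
  have hy1 : x1 ≤ y := (le_max_right _ _).trans ((le_max_left _ _).trans hy)
  have hy2 : 0 ≤ y := (le_max_right _ _).trans hy
  have hg : GM (gk f m H v) := gk_GM hf hfk m H v hu
  rw [sum_aG _ hy2]
  exact h0 y hy0 _ _ (GM_HP hg) (h1 y hy1 f hf hfk m hm0 hm H v hH hu)

theorem PRIMB (k : ℕ) (hall : ∀ ε : ℝ, 0 < ε → ∃ y0 : ℝ, ∀ y : ℝ, y0 ≤ y →
      ∀ f : GaussianInt → ℂ, CMC f → (∀ z, z ≠ 0 → f z ^ k = 1) → ∀ m : ℤ, m ≠ 0 →
      f gI * Complex.I ^ m = 1 → |(m : ℝ)| ≤ y ^ 3 → ∀ H v : ℕ, 1 ≤ H →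
      ‖∑ z ∈ ann 0 y, gk f m H v z‖ ≤ ε * y) (ε : ℝ) (hε : 0 < ε) :
    ∃ x0 : ℝ, ∀ x : ℝ, x0 ≤ x → ∀ f : GaussianInt → ℂ, CMC f → (∀ z, z ≠ 0 → f z ^ k = 1) →
      ∀ m : ℤ, m ≠ 0 → f gI * Complex.I ^ m = 1 → |(m : ℝ)| ≤ 4 * x ^ 2 → ∀ H v : ℕ, 1 ≤ H →
      ‖∑ z ∈ pann 0 x, gk f m H v z‖ ≤ ε * x := by
  classical
  obtain ⟨C, hC, hcard⟩ := card_ann_le
  obtain ⟨y0, hy0⟩ := hall (ε / 4) (by positivity)
  set D : ℕ := ⌈4 * C / ε⌉₊ + 1 with hD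
  have hD1 : (1 : ℝ) ≤ D := by
    rw [hD]; push_cast
    linarith [(Nat.cast_nonneg ⌈4 * C / ε⌉₊ : (0 : ℝ) ≤ _)]
  have hDC : 4 * C / ε ≤ D := by
    refine (Nat.le_ceil _).trans ?_
    rw [hD]; push_cast; linarith
  refine ⟨max ((D : ℝ) ^ 2 * max y0 1) (4 * (D : ℝ) ^ 6), fun x hx f hf hfk m hm0 hu hm H v hH => ?_⟩
  have hxa : (D : ℝ) ^ 2 * max y0 1 ≤ x := (le_max_left _ _).trans hx
  have hxb : 4 * (D : ℝ) ^ 6 ≤ x := (le_max_right _ _).trans hx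
  have hD2 : (1 : ℝ) ≤ (D : ℝ) ^ 2 := one_le_pow₀ hD1
  have hD6 : (1 : ℝ) ≤ (D : ℝ) ^ 6 := one_le_pow₀ hD1
  have hx0 : 0 < x := by linarith
  set G := gk f m H v with hG
  have hcm : CMC G := gk_CMC hf m H v
  rw [prim_sum hcm hx0.le]
  -- bound of the terms
  have hμ : ∀ d : ℕ, ‖((ArithmeticFunction.moebius d : ℤ) : ℂ)‖ ≤ 1 := by
    intro d
    have h := ArithmeticFunction.abs_moebius_le_one (n := d)
    rw [Complex.norm_intCast]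
    exact_mod_cast h
  have hterm : ∀ d : ℕ, 1 ≤ d → ‖((ArithmeticFunction.moebius d : ℤ) : ℂ) *
      (G ((d : ℤ) : GaussianInt) * ∑ w ∈ ann 0 (x / (d : ℝ) ^ 2), G w)‖ ≤
        ‖∑ w ∈ ann 0 (x / (d : ℝ) ^ 2), G w‖ := by
    intro d hd
    have hd0 : ((d : ℤ) : GaussianInt) ≠ 0 := by
      intro h
      have h3 := nN_nat d
      rw [h, nN_zero] at h3
      have : 0 < d ^ 2 := by positivity
      omega
    rw [norm_mul, norm_mul]
    have h1 := hcm.le _ hd0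
    have h2 := hμ d
    have h0 := norm_nonneg (∑ w ∈ ann 0 (x / (d : ℝ) ^ 2), G w)
    calc ‖((ArithmeticFunction.moebius d : ℤ) : ℂ)‖ * (‖G ((d : ℤ) : GaussianInt)‖ *
        ‖∑ w ∈ ann 0 (x / (d : ℝ) ^ 2), G w‖) ≤ 1 * (1 * ‖∑ w ∈ ann 0 (x / (d : ℝ) ^ 2), G w‖) := by
          apply mul_le_mul h2 _ (by positivity) zero_le_one
          exact mul_le_mul_of_nonneg_right h1 h0
      _ = _ := by ring
  have htriv : ∀ d : ℕ, 1 ≤ d → ‖∑ w ∈ ann 0 (x / (d : ℝ) ^ 2), G w‖ ≤ C * x * (1 / (d : ℝ) ^ 2) := by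
    intro d hd
    have hd0 : (0 : ℝ) < d := by exact_mod_cast hd
    calc ‖∑ w ∈ ann 0 (x / (d : ℝ) ^ 2), G w‖ ≤ ∑ w ∈ ann 0 (x / (d : ℝ) ^ 2), ‖G w‖ :=
          norm_sum_le _ _
      _ ≤ ∑ w ∈ ann 0 (x / (d : ℝ) ^ 2), (1 : ℝ) :=
          Finset.sum_le_sum (fun w hw => hcm.le w (ne_zero_of_mem_ann le_rfl hw))
      _ = ((ann 0 (x / (d : ℝ) ^ 2)).card : ℝ) := by simp
      _ ≤ C * (x / (d : ℝ) ^ 2) := hcard _ (by positivity)
      _ = C * x * (1 / (d : ℝ) ^ 2) := by ring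
  have hgood : ∀ d : ℕ, 1 ≤ d → d ≤ D → ‖∑ w ∈ ann 0 (x / (d : ℝ) ^ 2), G w‖ ≤
      ε / 4 * x * (1 / (d : ℝ) ^ 2) := by
    intro d hd hdD
    have hd0 : (0 : ℝ) < d := by exact_mod_cast hd
    have hdD' : (d : ℝ) ≤ D := by exact_mod_cast hdD
    have hd2 : (d : ℝ) ^ 2 ≤ (D : ℝ) ^ 2 := pow_le_pow_left₀ hd0.le hdD' 2
    have h1 : x / (D : ℝ) ^ 2 ≤ x / (d : ℝ) ^ 2 :=
      div_le_div_of_nonneg_left hx0.le (by positivity) hd2
    have h2 : max y0 1 ≤ x / (D : ℝ) ^ 2 := by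
      rw [le_div_iff₀ (by positivity)]
      linarith
    have h3 : y0 ≤ x / (d : ℝ) ^ 2 := (le_max_left _ _).trans (h2.trans h1)
    have h4 : |(m : ℝ)| ≤ (x / (d : ℝ) ^ 2) ^ 3 := by
      have h5 : (x / (D : ℝ) ^ 2) ^ 3 ≤ (x / (d : ℝ) ^ 2) ^ 3 :=
        pow_le_pow_left₀ (by positivity) h1 3
      have h6 : 4 * x ^ 2 ≤ (x / (D : ℝ) ^ 2) ^ 3 := by
        rw [div_pow, le_div_iff₀ (by positivity)]
        have h7 : ((D : ℝ) ^ 2) ^ 3 = (D : ℝ) ^ 6 := by ring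
        rw [h7]
        calc 4 * x ^ 2 * (D : ℝ) ^ 6 = x ^ 2 * (4 * (D : ℝ) ^ 6) := by ring
          _ ≤ x ^ 2 * x := mul_le_mul_of_nonneg_left hxb (by positivity)
          _ = x ^ 3 := by ring
      linarith
    have h5 := hy0 _ h3 f hf hfk m hm0 hu h4 H v hH
    calc ‖∑ w ∈ ann 0 (x / (d : ℝ) ^ 2), G w‖ ≤ ε / 4 * (x / (d : ℝ) ^ 2) := h5
      _ = _ := by ring
  have hsub : Finset.Icc 1 ⌊√x⌋₊ ⊆ Finset.Icc 1 D ∪ Finset.Ioc D ⌊√x⌋₊ := by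
    intro d hd
    rw [Finset.mem_union, Finset.mem_Icc, Finset.mem_Ioc]
    rw [Finset.mem_Icc] at hd
    omega
  have hdisj : Disjoint (Finset.Icc 1 D) (Finset.Ioc D ⌊√x⌋₊) := by
    rw [Finset.disjoint_left]
    intro d hd hd'
    rw [Finset.mem_Icc] at hd
    rw [Finset.mem_Ioc] at hd'
    omega
  calc ‖∑ d ∈ Finset.Icc 1 ⌊√x⌋₊, ((ArithmeticFunction.moebius d : ℤ) : ℂ) *
        (G ((d : ℤ) : GaussianInt) * ∑ w ∈ ann 0 (x / (d : ℝ) ^ 2), G w)‖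
      ≤ ∑ d ∈ Finset.Icc 1 ⌊√x⌋₊, ‖∑ w ∈ ann 0 (x / (d : ℝ) ^ 2), G w‖ :=
        (norm_sum_le _ _).trans (Finset.sum_le_sum (fun d hd =>
          hterm d (Finset.mem_Icc.1 hd).1))
    _ ≤ ∑ d ∈ Finset.Icc 1 D ∪ Finset.Ioc D ⌊√x⌋₊, ‖∑ w ∈ ann 0 (x / (d : ℝ) ^ 2), G w‖ :=
        Finset.sum_le_sum_of_subset_of_nonneg hsub (fun _ _ _ => norm_nonneg _)
    _ = ∑ d ∈ Finset.Icc 1 D, ‖∑ w ∈ ann 0 (x / (d : ℝ) ^ 2), G w‖ +
        ∑ d ∈ Finset.Ioc D ⌊√x⌋₊, ‖∑ w ∈ ann 0 (x / (d : ℝ) ^ 2), G w‖ :=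
        Finset.sum_union hdisj
    _ ≤ ∑ d ∈ Finset.Icc 1 D, ε / 4 * x * (1 / (d : ℝ) ^ 2) +
        ∑ d ∈ Finset.Ioc D ⌊√x⌋₊, C * x * (1 / (d : ℝ) ^ 2) := by
        refine add_le_add (Finset.sum_le_sum (fun d hd => ?_)) (Finset.sum_le_sum (fun d hd => ?_))
        · rw [Finset.mem_Icc] at hd
          exact hgood d hd.1 hd.2
        · rw [Finset.mem_Ioc] at hd
          exact htriv d (by omega)
    _ ≤ ε / 4 * x * 2 + C * x * (2 / (D + 1)) := by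
        rw [← Finset.mul_sum, ← Finset.mul_sum]
        have h1 := mul_le_mul_of_nonneg_left (inv_sq_all D) (by positivity : 0 ≤ ε / 4 * x)
        have h2 := mul_le_mul_of_nonneg_left (inv_sq_tail D ⌊√x⌋₊) (by positivity : 0 ≤ C * x)
        exact add_le_add h1 h2
    _ ≤ ε * x := by
        have h1 : 4 * C ≤ ε * D := by
          rw [div_le_iff₀ hε] at hDC
          linarith
        have h2 : C * (2 / ((D : ℝ) + 1)) ≤ ε / 2 := by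
          rw [mul_div_assoc', div_le_div_iff₀ (by positivity) (by norm_num)]
          nlinarith
        nlinarith

theorem HALFB (hW : W1AStmt) : HALFkStmt := by
  intro k hk ε hε
  obtain ⟨x0, h0⟩ := PRIMB k (fun ε hε => HALLB hW k hk ε hε) (ε / 2) (by positivity)
  refine ⟨max (2 * x0) 1, fun x hx f hf hfk m hm0 hm H v hH => ?_⟩
  have hx1 : 1 ≤ x := (le_max_right _ _).trans hx
  have hx0 : 2 * x0 ≤ x := (le_max_left _ _).trans hx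
  by_cases hu : f gI * Complex.I ^ m = 1
  · have e1 : ∑ z ∈ pann (x / 2) x, gk f m H v z = ∑ z ∈ pann 0 x, gk f m H v z -
        ∑ z ∈ pann 0 (x / 2), gk f m H v z := by
      have h2 : pann 0 x = pann 0 (x / 2) ∪ pann (x / 2) x := by
        ext z
        rw [Finset.mem_union, mem_pann (by positivity), mem_pann (by positivity),
          mem_pann (by positivity)]
        constructor
        · rintro ⟨⟨h3, h4⟩, h5⟩
          rcases le_or_gt (nN z : ℝ) (x / 2) with h6 | h6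
          · exact Or.inl ⟨⟨h3, h6⟩, h5⟩
          · exact Or.inr ⟨⟨h6, h4⟩, h5⟩
        · rintro (⟨⟨h3, h4⟩, h5⟩ | ⟨⟨h3, h4⟩, h5⟩)
          · exact ⟨⟨h3, by linarith⟩, h5⟩
          · exact ⟨⟨by linarith, h4⟩, h5⟩
      have h3 : Disjoint (pann 0 (x / 2)) (pann (x / 2) x) := by
        rw [Finset.disjoint_left]
        intro z hz hz'
        rw [mem_pann (by positivity)] at hz hz'
        linarith [hz.1.2, hz'.1.1]
      rw [h2, Finset.sum_union h3]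
      ring
    rw [e1]
    have h3 := h0 x (by linarith) f hf hfk m hm0 hu (by nlinarith) H v hH
    have h4 := h0 (x / 2) (by linarith) f hf hfk m hm0 hu (by nlinarith) H v hH
    calc ‖∑ z ∈ pann 0 x, gk f m H v z - ∑ z ∈ pann 0 (x / 2), gk f m H v z‖
        ≤ ‖∑ z ∈ pann 0 x, gk f m H v z‖ + ‖∑ z ∈ pann 0 (x / 2), gk f m H v z‖ :=
          norm_sub_le _ _
      _ ≤ ε / 2 * x + ε / 2 * (x / 2) := add_le_add h3 h4
      _ ≤ ε * x := by nlinarith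
  · rw [sum_gk_eq_zero hf m H v hu (x / 2) x (by positivity) (by positivity), norm_zero]
    positivity

end Pool.Agent.NSqC
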