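import Pool.Agent.Lib.NSqC.UpartB
import Pool.Agent.Lib.NSqP.MRT

/-!
# MRUB: all nonzero frequencies `|m| < x / A`

PROOF.  `UPARTB` with `ε / 2` gives `κ`; `MRT κ (ε / 2)` gives `A` and, for `f` as in the statement,
the set `U`; apply `UPARTB` to `U.erase 0`.  `(fr M).erase 0 ⊆ (fr M \ U) ∪ U.erase 0`.
-/

set_option autoImplicit false

namespace Pool.Agent.NSqC

open Real
open Pool.Agent.NSqP
open Pool.Agent.MP484c84Par (ballG mem_ballG crossG dotG)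

theorem MRUB (h1 : HALFkStmt) (h2 : LVPStmt) : MRUkStmt := by
  intro k hk ε hε
  obtain ⟨κ, hκ, hκ1, x1, hU⟩ := UPARTB h1 h2 k hk (ε / 2) (by positivity)
  obtain ⟨A, hA, x2, hM⟩ := MRT κ (ε / 2) hκ hκ1 (by positivity)
  refine ⟨A, hA, max 0 (max x1 x2), fun x hx f hf hfk => ?_⟩
  have hx0 : 0 ≤ x := (le_max_left _ _).trans hx
  have hx1 : x1 ≤ x := (le_max_left _ _).trans ((le_max_right _ _).trans hx)
  have hx2 : x2 ≤ x := (le_max_right _ _).trans ((le_max_right _ _).trans hx)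
  obtain ⟨U, hUs, hUc, hUsum⟩ := hM x hx2 f hf
  have hAx : ⌊x / A⌋₊ ≤ ⌊x⌋₊ := Nat.floor_mono (div_le_self hx0 (by exact_mod_cast hA))
  have hsub : U.erase 0 ⊆ fr ⌊x⌋₊ := by
    refine (Finset.erase_subset _ _).trans (hUs.trans ?_)
    intro m hm
    rw [fr, Finset.mem_Ioo] at hm ⊢
    constructor <;> omega
  have hcard : ((U.erase 0).card : ℝ) ≤ x ^ κ := by
    refine le_trans ?_ hUc
    exact_mod_cast Finset.card_le_card (Finset.erase_subset _ _)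
  have h3 := hU x hx1 f hf hfk (U.erase 0) hsub (Finset.notMem_erase 0 U) hcard
  have h4 : (fr ⌊x / A⌋₊).erase 0 ⊆ (fr ⌊x / A⌋₊ \ U) ∪ U.erase 0 := by
    intro m hm
    rw [Finset.mem_erase] at hm
    rw [Finset.mem_union, Finset.mem_sdiff, Finset.mem_erase]
    by_cases h : m ∈ U
    · exact Or.inr ⟨hm.1, h⟩
    · exact Or.inl ⟨hm.2, h⟩
  calc ∑ m ∈ (fr ⌊x / A⌋₊).erase 0, ‖Zs f (x / 2) x m‖ ^ 2
      ≤ ∑ m ∈ (fr ⌊x / A⌋₊ \ U) ∪ U.erase 0, ‖Zs f (x / 2) x m‖ ^ 2 :=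
        Finset.sum_le_sum_of_subset_of_nonneg h4 fun _ _ _ => by positivity
    _ = ∑ m ∈ fr ⌊x / A⌋₊ \ U, ‖Zs f (x / 2) x m‖ ^ 2 +
          ∑ m ∈ U.erase 0, ‖Zs f (x / 2) x m‖ ^ 2 :=
        Finset.sum_union (Finset.disjoint_left.2 fun m hm hm' =>
          (Finset.mem_sdiff.1 hm).2 (Finset.mem_of_mem_erase hm'))
    _ ≤ ε * x ^ 2 := by linarith

end Pool.Agent.NSqC
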