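import Pool.Agent.Lib.NSqC.MainB
import Pool.Agent.Lib.NSqC.HalfB
import Pool.Agent.Lib.NSqC.MruB
import Pool.Agent.Lib.LogCh.WFin

/-!
# FINC: all three classes modulo 3 in a positive proportion, unconditionally
-/

set_option autoImplicit false

namespace Pool.Agent.NSqC

open Real
open Pool.Agent.NSqP

theorem MRUfin : MRUkStmt :=
  MRUB (HALFB (fun A hA => LogCh.W1Ap A hA)) (fun A hA => LogCh.LVPp A hA)

open Classical in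
theorem mainC (p : ℕ) (hp : p.Prime) (hp4 : p % 4 = 1) :
    ∃ c C : ℝ, 0 < c ∧ ∃ x0 : ℕ, ∀ h : ℕ → ZMod 3, CA h → h p ≠ 0 → ∀ x : ℕ, x0 ≤ x →
      ∀ e : ZMod 3,
        c * x ≤ (((Finset.Icc 1 x ×ˢ Finset.Icc 1 x).filter
            (fun q : ℕ × ℕ => q.2 ∣ q.1 ^ 2 + 1 ∧ (q.1 ^ 2 + 1) / q.2 ≤ x ∧
              h (q.1 ^ 2 + 1) = e)).card : ℝ) ∧
        (((Finset.Icc 1 x ×ˢ Finset.Icc 1 x).filter
            (fun q : ℕ × ℕ => q.2 ∣ q.1 ^ 2 + 1 ∧ (q.1 ^ 2 + 1) / q.2 ≤ x)).card : ℝ) ≤ C * x ∧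
        (x : ℝ) / (log x) ^ ((7 : ℝ) / 10) ≤
          (((Finset.Icc 1 x).filter (fun n => h (n ^ 2 + 1) = e)).card : ℝ) :=
  mainB MRUfin p hp hp4

end Pool.Agent.NSqC
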