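import Pool.Agent.Lib.NSqC.Defs
import Pool.Agent.Lib.LogCh.H0

/-!
# GKB: the functions `gk f m H v = f ξ ^ m` without prime factors in a block

The proofs are those of `LogCh/HGg.lean` (group H of the project LogCh; look there if it is
already proved), with `λ χ` replaced by `f`.
`gk_CMC`: `f` and `ξ^m` are multiplicative on nonzero elements, a prime `q` (`IsPi`) divides `z w` iff
it divides `z` or `w`; `‖f z‖ ≤ 1`.
`gk_GM`: no prime divides a unit; the units are `gI ^ j`, `f (gI ^ j) = f gI ^ j` (`f 1 = 1` as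
`f 1 ^ 2 = f 1` and `f 1 ≠ 0` by `hk`), `xi (gI) = I`; so the value is `(f gI * I ^ m) ^ j = 1`.
`xi_GM`: `(f gI * I ^ m) ^ k = 1` and `f gI ^ k = 1` give `I ^ (k m) = 1`, so `ξ ^ (k m)` is one at
the units (`gI ^ j`).
`sum_gk_eq_zero`: `z ↦ gI * z` permutes `pann a b` and multiplies the summand by
`f gI * I ^ m ≠ 1`.
`gk_pi`: for `IsPi z` only `z` itself among the `IsPi` divides `z`.
-/

set_option autoImplicit false

namespace Pool.Agent.NSqC

open Real
open Pool.Agent.NSqP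
open Pool.Agent.LogCh.HG (GM gI nN_gI)
open Pool.Agent.MP484c84Par (ballG mem_ballG crossG dotG)

private lemma gkb_unit_cases {u : GaussianInt} (hu : IsUnit u) :
    u = 1 ∨ u = gI ∨ u = gI ^ 2 ∨ u = gI ^ 3 := by
  have h1 : nN u = 1 := Zsqrtd.norm_eq_one_iff.2 hu
  have h2 : u.re ^ 2 + u.im ^ 2 = 1 := by
    have := nN_cast_int u
    rw [h1, Zsqrtd.norm_def] at this
    push_cast at this
    linarith
  have a2 : -1 ≤ u.re := by nlinarith
  have a3 : u.re ≤ 1 := by nlinarith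
  have a4 : -1 ≤ u.im := by nlinarith
  have a5 : u.im ≤ 1 := by nlinarith
  have b1 : u.re = -1 ∨ u.re = 0 ∨ u.re = 1 := by omega
  have b2 : u.im = -1 ∨ u.im = 0 ∨ u.im = 1 := by omega
  have g2 : gI ^ 2 = (⟨-1, 0⟩ : GaussianInt) := by rfl
  have g3 : gI ^ 3 = (⟨0, -1⟩ : GaussianInt) := by rfl
  rw [g2, g3]
  rcases b1 with b1 | b1 | b1 <;> rcases b2 with b2 | b2 | b2 <;> rw [b1, b2] at h2 <;>
    first
    | (norm_num at h2; done)
    | exact Or.inl (Zsqrtd.ext b1 b2)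
    | exact Or.inr (Or.inl (Zsqrtd.ext b1 b2))
    | exact Or.inr (Or.inr (Or.inl (Zsqrtd.ext b1 b2)))
    | exact Or.inr (Or.inr (Or.inr (Zsqrtd.ext b1 b2)))

private lemma gkb_xi_gI : xi gI = Complex.I := by
  unfold xi
  have h1 : ((gI : GaussianInt) : ℂ) = Complex.I := by
    unfold gI
    rw [GaussianInt.toComplex_def]
    simp
  rw [h1, Complex.norm_I]
  simp

private lemma gkb_xi_one : xi 1 = 1 := by
  unfold xi
  have h1 : ((1 : GaussianInt) : ℂ) = 1 := GaussianInt.toComplex_one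
  rw [h1]
  simp

private lemma gkb_xi_pow (z : GaussianInt) (j : ℕ) : xi (z ^ j) = xi z ^ j := by
  induction j with
  | zero => rw [pow_zero, pow_zero, gkb_xi_one]
  | succ j ih => rw [pow_succ, xi_mul, ih, pow_succ]

private lemma gkb_unit_pow {u : GaussianInt} (hu : IsUnit u) : ∃ j : ℕ, u = gI ^ j := by
  rcases gkb_unit_cases hu with h | h | h | h
  · exact ⟨0, by rw [h, pow_zero]⟩
  · exact ⟨1, by rw [h, pow_one]⟩
  · exact ⟨2, h⟩
  · exact ⟨3, h⟩

private lemma gkb_unit_gI (j : ℕ) : IsUnit (gI ^ j) := by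
  apply IsUnit.pow
  exact Zsqrtd.norm_eq_one_iff.1 nN_gI

private lemma gkb_iff (H v : ℕ) (z w : GaussianInt) : (∀ q ∈ blk H v, ¬ q ∣ z * w) ↔
    ((∀ q ∈ blk H v, ¬ q ∣ z) ∧ (∀ q ∈ blk H v, ¬ q ∣ w)) := by
  constructor
  · intro h
    exact ⟨fun q hq hd => h q hq (Dvd.dvd.mul_right hd w),
      fun q hq hd => h q hq (Dvd.dvd.mul_left hd z)⟩
  · rintro ⟨h1, h2⟩ q hq hd
    have hp : Prime q := (mem_blk.1 hq).1.prime
    rcases hp.dvd_or_dvd hd with h | h
    · exact h1 q hq h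
    · exact h2 q hq h

private lemma gkb_unit_blk {u : GaussianInt} (hu : IsUnit u) (H v : ℕ) :
    ∀ q ∈ blk H v, ¬ q ∣ u := by
  intro q hq hd
  have hp : Prime q := (mem_blk.1 hq).1.prime
  exact hp.not_isUnit (isUnit_of_dvd_unit hd hu)

theorem gk_CMC {f : GaussianInt → ℂ} (hf : CMC f) (m : ℤ) (H v : ℕ) : CMC (gk f m H v) := by
  classical
  refine ⟨fun z w hz hw => ?_, fun z hz => ?_⟩
  · unfold gk
    have hiff := gkb_iff H v z w
    by_cases h1 : ∀ q ∈ blk H v, ¬ q ∣ z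
    · by_cases h2 : ∀ q ∈ blk H v, ¬ q ∣ w
      · rw [if_pos h1, if_pos h2, if_pos (hiff.2 ⟨h1, h2⟩), hf.mul z w hz hw, xi_mul_zpow]
        ring
      · rw [if_neg h2, mul_zero, if_neg (fun h => h2 (hiff.1 h).2)]
    · rw [if_neg h1, zero_mul, if_neg (fun h => h1 (hiff.1 h).1)]
  · unfold gk
    split_ifs
    · rw [norm_mul, norm_xi_zpow hz, mul_one]
      exact hf.le z hz
    · simp

private lemma gkb_gI_ne : gI ≠ 0 := by
  intro h
  have := nN_gI
  rw [h, nN_zero] at this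
  omega

private lemma gkb_f_pow {f : GaussianInt → ℂ} (hf : CMC f) (h0 : f gI ≠ 0) (j : ℕ) :
    f (gI ^ j) = f gI ^ j := by
  have h1 : f 1 = 1 := by
    have := hf.mul gI 1 gkb_gI_ne one_ne_zero
    rw [mul_one] at this
    have h2 : f gI * (f 1 - 1) = 0 := by rw [mul_sub, ← this, mul_one, sub_self]
    rcases mul_eq_zero.1 h2 with h | h
    · exact absurd h h0
    · exact sub_eq_zero.1 h
  induction j with
  | zero => rw [pow_zero, pow_zero, h1]
  | succ j ih =>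
    rw [pow_succ, pow_succ, hf.mul _ _ (pow_ne_zero j gkb_gI_ne) gkb_gI_ne, ih]

theorem gk_GM {f : GaussianInt → ℂ} (hf : CMC f) {k : ℕ} (hk : ∀ z, z ≠ 0 → f z ^ k = 1) (m : ℤ)
    (H v : ℕ) (hu : f gI * Complex.I ^ m = 1) : GM (gk f m H v) := by
  classical
  refine ⟨gk_CMC hf m H v, fun u hun => ?_⟩
  unfold gk
  rw [if_pos (gkb_unit_blk hun H v)]
  have h0 : f gI ≠ 0 := by
    intro h
    rw [h, zero_mul] at hu
    exact zero_ne_one hu
  obtain ⟨j, hj⟩ := gkb_unit_pow hun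
  rw [hj, gkb_f_pow hf h0, gkb_xi_pow, gkb_xi_gI, ← zpow_natCast (Complex.I) j, ← zpow_mul,
    mul_comm (j : ℤ) m, zpow_mul, zpow_natCast, ← mul_pow, hu, one_pow]

theorem xi_GM {f : GaussianInt → ℂ} {k : ℕ} (hk : ∀ z, z ≠ 0 → f z ^ k = 1) (m : ℤ)
    (hu : f gI * Complex.I ^ m = 1) : GM (fun z => xi z ^ ((k : ℤ) * m)) := by
  refine ⟨⟨fun z w _ _ => xi_mul_zpow z w _, fun z hz => (norm_xi_zpow hz _).le⟩,
    fun u hun => ?_⟩
  have h1 : Complex.I ^ ((k : ℤ) * m) = 1 := by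
    have h2 : (f gI * Complex.I ^ m) ^ k = 1 := by rw [hu, one_pow]
    rw [mul_pow, hk gI gkb_gI_ne, one_mul, ← zpow_natCast, ← zpow_mul, mul_comm m] at h2
    exact h2
  obtain ⟨j, hj⟩ := gkb_unit_pow hun
  rw [hj, gkb_xi_pow, gkb_xi_gI, ← zpow_natCast (Complex.I) j, ← zpow_mul,
    mul_comm (j : ℤ) _, zpow_mul, h1, one_zpow]

theorem gk_pi (f : GaussianInt → ℂ) (m : ℤ) (H v : ℕ) {z : GaussianInt} (hz : IsPi z) :
    gk f m H v z = if z ∈ blk H v then 0 else f z * xi z ^ m := by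
  classical
  unfold gk
  by_cases h : z ∈ blk H v
  · rw [if_pos h, if_neg]
    intro h2
    exact h2 z h dvd_rfl
  · rw [if_neg h, if_pos]
    intro q hq hd
    have hq2 := (mem_blk.1 hq).1
    have hne : q ≠ z := fun he => h (he ▸ hq)
    have hc := IsPi.coprime hq2 hz hne
    exact hq2.prime.not_isUnit (hc.isUnit_of_dvd' dvd_rfl hd)

private lemma gkb_rot {f : GaussianInt → ℂ} (hf : CMC f) (m : ℤ) (H v : ℕ)
    {z : GaussianInt} (hz : z ≠ 0) :
    gk f m H v (gI * z) = f gI * Complex.I ^ m * gk f m H v z := by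
  classical
  have hI : IsUnit gI := Zsqrtd.norm_eq_one_iff.1 nN_gI
  unfold gk
  by_cases h : ∀ q ∈ blk H v, ¬ q ∣ z
  · have h' : ∀ q ∈ blk H v, ¬ q ∣ gI * z := fun q hq hd => h q hq (hI.dvd_mul_left.1 hd)
    rw [if_pos h, if_pos h', hf.mul _ _ gkb_gI_ne hz, xi_mul_zpow, gkb_xi_gI]
    ring
  · have h' : ¬ ∀ q ∈ blk H v, ¬ q ∣ gI * z := fun h2 => h fun q hq hd =>
      h2 q hq (hI.dvd_mul_left.2 hd)
    rw [if_neg h, if_neg h', mul_zero]

private lemma gkb_prim {u z : GaussianInt} (hu : u * (-u) = 1 ∨ (-u) * u = 1) (hz : Prim z) :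
    Prim (u * z) := by
  unfold Prim cont at hz ⊢
  rw [← Int.isCoprime_iff_gcd_eq_one] at hz ⊢
  have h1 : u.im * u.im - u.re * u.re = 1 ∧ u.re * u.im = 0 := by
    rcases hu with h | h
    · have h2 := congrArg Zsqrtd.re h
      have h3 := congrArg Zsqrtd.im h
      simp only [Zsqrtd.re_mul, Zsqrtd.im_mul, Zsqrtd.re_neg, Zsqrtd.im_neg, Zsqrtd.re_one,
        Zsqrtd.im_one] at h2 h3
      constructor <;> linarith
    · have h2 := congrArg Zsqrtd.re h
      have h3 := congrArg Zsqrtd.im h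
      simp only [Zsqrtd.re_mul, Zsqrtd.im_mul, Zsqrtd.re_neg, Zsqrtd.im_neg, Zsqrtd.re_one,
        Zsqrtd.im_one] at h2 h3
      constructor <;> linarith
  obtain ⟨h1, h2⟩ := h1
  have hre : u.re = 0 := by
    rcases mul_eq_zero.1 h2 with h | h
    · exact h
    · rw [h] at h1
      nlinarith [mul_self_nonneg u.re]
  rw [hre] at h1
  obtain ⟨a, b, hab⟩ := hz
  refine ⟨-b * u.im, a * u.im, ?_⟩
  simp only [Zsqrtd.re_mul, Zsqrtd.im_mul, hre]
  linear_combination u.im * u.im * hab + h1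

theorem sum_gk_eq_zero {f : GaussianInt → ℂ} (hf : CMC f) (m : ℤ) (H v : ℕ)
    (hu : f gI * Complex.I ^ m ≠ 1) (a b : ℝ) (ha : 0 ≤ a) (hb : 0 ≤ b) :
    ∑ z ∈ pann a b, gk f m H v z = 0 := by
  have hinv : gI * (-gI) = 1 := by rfl
  have hinv' : (-gI) * gI = 1 := by rfl
  have hn' : nN (-gI) = 1 := by
    have h := nN_mul gI (-gI)
    rw [hinv, nN_one, nN_gI, one_mul] at h
    exact h.symm
  have h1 : ∑ z ∈ pann a b, gk f m H v (gI * z) = ∑ z ∈ pann a b, gk f m H v z := by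
    refine Finset.sum_nbij' (fun z => gI * z) (fun z => (-gI) * z) ?_ ?_ ?_ ?_ ?_
    · intro z hz
      rw [mem_pann hb] at hz ⊢
      rw [nN_mul, nN_gI, one_mul]
      exact ⟨hz.1, gkb_prim (Or.inl hinv) hz.2⟩
    · intro z hz
      rw [mem_pann hb] at hz ⊢
      rw [nN_mul, hn', one_mul]
      refine ⟨hz.1, gkb_prim (u := -gI) (Or.inl ?_) hz.2⟩
      rw [neg_neg, hinv']
    · intro z _
      rw [← mul_assoc, hinv', one_mul]
    · intro z _
      rw [← mul_assoc, hinv, one_mul]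
    · intro z _
      rfl
  have h2 : ∑ z ∈ pann a b, gk f m H v (gI * z) =
      f gI * Complex.I ^ m * ∑ z ∈ pann a b, gk f m H v z := by
    rw [Finset.mul_sum]
    exact Finset.sum_congr rfl fun z hz => gkb_rot hf m H v
      (ne_zero_of_mem_ann ha (pann_subset a b hz))
  rw [h1] at h2
  have h3 : (1 - f gI * Complex.I ^ m) * ∑ z ∈ pann a b, gk f m H v z = 0 := by
    rw [sub_mul, one_mul, ← h2, sub_self]
  rcases mul_eq_zero.1 h3 with h | h
  · exact absurd (sub_eq_zero.1 h).symm hu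
  · exact h

end Pool.Agent.NSqC
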