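import Pool.Agent.Lib.NSqC.EndB
import Pool.Agent.Lib.NSqC.EdgB
import Pool.Agent.Lib.NSqC.CountB
import Pool.Agent.Lib.NSqP.All

/-!
# MAINB: all three classes modulo 3 in a positive proportion
-/

set_option autoImplicit false

namespace Pool.Agent.NSqC

open Real
open Pool.Agent.NSqP
open Pool.Agent.MP484c84Par (ballG mem_ballG crossG dotG)

open Classical in
theorem mainB (hM : MRUkStmt) (p : ℕ) (hp : p.Prime) (hp4 : p % 4 = 1) :
    ∃ c C : ℝ, 0 < c ∧ ∃ x0 : ℕ, ∀ h : ℕ → ZMod 3, CA h → h p ≠ 0 → ∀ x : ℕ, x0 ≤ x →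
      ∀ e : ZMod 3,
        c * x ≤ (((Finset.Icc 1 x ×ˢ Finset.Icc 1 x).filter
            (fun q : ℕ × ℕ => q.2 ∣ q.1 ^ 2 + 1 ∧ (q.1 ^ 2 + 1) / q.2 ≤ x ∧
              h (q.1 ^ 2 + 1) = e)).card : ℝ) ∧
        (((Finset.Icc 1 x ×ˢ Finset.Icc 1 x).filter
            (fun q : ℕ × ℕ => q.2 ∣ q.1 ^ 2 + 1 ∧ (q.1 ^ 2 + 1) / q.2 ≤ x)).card : ℝ) ≤ C * x ∧
        (x : ℝ) / (log x) ^ ((7 : ℝ) / 10) ≤
          (((Finset.Icc 1 x).filter (fun n => h (n ^ 2 + 1) = e)).card : ℝ) := by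
  obtain ⟨c0, hc0, N0, h0⟩ := THMB hM p hp hp4
  obtain ⟨x1, h1⟩ := count_lowerB (c0 / 2) (by positivity)
  obtain ⟨C, hC, h2⟩ := card_prs_le
  refine ⟨c0 / 16, C, by positivity, max (max N0 x1) (max 1 ⌈8 / c0⌉₊), ?_⟩
  intro h hh hhp x hx e
  have hxN : N0 ≤ x := le_trans (le_trans (le_max_left _ _) (le_max_left _ _)) hx
  have hx1 : x1 ≤ x := le_trans (le_trans (le_max_right _ _) (le_max_left _ _)) hx
  have hx2 : 1 ≤ x := le_trans (le_trans (le_max_left _ _) (le_max_right _ _)) hx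
  have hx3 : 8 / c0 ≤ x := by
    refine (Nat.le_ceil _).trans ?_
    exact_mod_cast le_trans (le_trans (le_max_right _ _) (le_max_right _ _)) hx
  have hEG : c0 / 2 * x ≤ ((EG (fun n => h (n ^ 2 + 1) = e) x).card : ℝ) := by
    have h3 := h0 h hh hhp e x hxN
    have h4 : ((BE h e x).card : ℝ) ≤ ((EG (fun n => h (n ^ 2 + 1) = e) x).card : ℝ) + 4 := by
      exact_mod_cast BE_le_EG hh e x
    rw [div_le_iff₀ hc0] at hx3
    linarith
  refine ⟨?_, ?_, ?_⟩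
  · have h3 : ((EG (fun n => h (n ^ 2 + 1) = e) x).card : ℝ) ≤
        8 * ((PR (fun n => h (n ^ 2 + 1) = e) x).card : ℝ) := by
      exact_mod_cast EG_le_PR (fun n => h (n ^ 2 + 1) = e) x
    have h4 : c0 / 16 * x ≤ ((PR (fun n => h (n ^ 2 + 1) = e) x).card : ℝ) := by linarith
    refine h4.trans (le_of_eq ?_)
    unfold PR
    congr 2
    ext q
    simp only [Finset.mem_filter]
  · have h5 := h2 (fun _ => 1) 1 x hx2
    refine le_trans (le_of_eq ?_) h5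
    congr 2
    ext q
    simp [prs, Finset.mem_filter]
  · have h6 := h1 x hx1 (fun n => h (n ^ 2 + 1) = e) hEG
    convert h6

end Pool.Agent.NSqC
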