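import Pool.Agent.Lib.NSqC.Sin

/-!
# MEAN: nonzero frequencies of the sign over `pann (x / 2^k) x`

PROOF.  `hM 3` with `ε' = ε / (2 (k+1) ^ 2)` (or any smaller number) gives `A`, `x0`.  Use
`A' = A * 2 ^ k`, `x0' = 2 ^ k * max x0 1`.
For `x ≥ x0'`: `pann (x / 2^k) x` is the disjoint union of `pann (x / 2^(j+1)) (x / 2^j)`,
`j < k` (induction on `k`; `mem_pann`), so `∑_{pann (x/2^k) x} f3 ξ^m = ∑_{j<k} Zs f3 (x_j / 2) x_j m`,
`x_j = x / 2^j ≥ max x0 1`, and by Cauchy the norm squared is `≤ k ∑_j ‖Zs f3 (x_j/2) x_j m‖ ^ 2`.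
As `⌊x / A'⌋₊ ≤ ⌊x_j / A⌋₊` the sum over `m ∈ (fr ⌊x/A'⌋₊).erase 0` is
`≤ k ∑_j ε' x_j ^ 2 ≤ k ^ 2 ε' x ^ 2` (`CMC_f3`, `f3_cube`).  Finally `sn_sum` with
`S = pann (x/2^k) x`.
-/

set_option autoImplicit false

namespace Pool.Agent.NSqC

open Real
open Pool.Agent.NSqP
open Pool.Agent.MP484c84Par (ballG mem_ballG crossG dotG)

private lemma mn_split (F : GaussianInt → ℂ) {x : ℝ} (hx : 0 ≤ x) (k : ℕ) :
    ∑ z ∈ pann (x / (2 ^ k : ℕ)) x, F z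
      = ∑ j ∈ Finset.range k, ∑ z ∈ pann (x / (2 ^ j : ℕ) / 2) (x / (2 ^ j : ℕ)), F z := by
  classical
  induction k with
  | zero =>
    have h0 : pann (x / ((2 ^ 0 : ℕ) : ℝ)) x = ∅ := by
      rw [Finset.eq_empty_iff_forall_notMem]
      intro z hz
      rw [mem_pann hx] at hz
      have h1 := hz.1.1
      have h2 := hz.1.2
      simp only [pow_zero, Nat.cast_one, div_one] at h1
      linarith
    rw [h0]
    simp
  | succ n ih =>
    rw [Finset.sum_range_succ, ← ih]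
    have hn : (0 : ℝ) < (2 : ℝ) ^ n := by positivity
    have hxn : 0 ≤ x / ((2 ^ n : ℕ) : ℝ) := by positivity
    have hxn1 : x / ((2 ^ (n + 1) : ℕ) : ℝ) = x / ((2 ^ n : ℕ) : ℝ) / 2 := by
      push_cast
      rw [pow_succ]
      field_simp
    have hle : x / ((2 ^ n : ℕ) : ℝ) ≤ x := by
      refine div_le_self hx ?_
      push_cast
      exact one_le_pow₀ (by norm_num)
    have hdisj : Disjoint (pann (x / ((2 ^ n : ℕ) : ℝ)) x)
        (pann (x / ((2 ^ n : ℕ) : ℝ) / 2) (x / ((2 ^ n : ℕ) : ℝ))) := by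
      rw [Finset.disjoint_left]
      intro z h1 h2
      rw [mem_pann hx] at h1
      rw [mem_pann hxn] at h2
      linarith [h1.1.1, h2.1.2]
    have hun : pann (x / ((2 ^ (n + 1) : ℕ) : ℝ)) x = pann (x / ((2 ^ n : ℕ) : ℝ)) x ∪
        pann (x / ((2 ^ n : ℕ) : ℝ) / 2) (x / ((2 ^ n : ℕ) : ℝ)) := by
      ext z
      rw [Finset.mem_union, mem_pann hx, mem_pann hx, mem_pann hxn, hxn1]
      constructor
      · rintro ⟨⟨h1, h2⟩, h3⟩
        rcases lt_or_ge (x / ((2 ^ n : ℕ) : ℝ)) (nN z : ℝ) with h4 | h4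
        · exact Or.inl ⟨⟨h4, h2⟩, h3⟩
        · exact Or.inr ⟨⟨h1, h4⟩, h3⟩
      · rintro (⟨⟨h1, h2⟩, h3⟩ | ⟨⟨h1, h2⟩, h3⟩)
        · refine ⟨⟨?_, h2⟩, h3⟩
          have : x / ((2 ^ n : ℕ) : ℝ) / 2 ≤ x / ((2 ^ n : ℕ) : ℝ) := by linarith
          linarith
        · exact ⟨⟨h1, h2.trans hle⟩, h3⟩
    rw [hun, Finset.sum_union hdisj]

theorem MEAN (hM : MRUkStmt) (k : ℕ) (ε : ℝ) (hε : 0 < ε) : ∃ A : ℕ, 1 ≤ A ∧ ∃ x0 : ℝ,
    ∀ x : ℝ, x0 ≤ x → ∀ h : ℕ → ZMod 3, CA h → ∀ c : ZMod 3,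
      ∑ m ∈ (fr ⌊x / A⌋₊).erase 0,
        ‖∑ z ∈ pann (x / (2 ^ k : ℕ)) x, ((sn h c z : ℝ) : ℂ) * xi z ^ m‖ ^ 2 ≤ ε * x ^ 2 := by
  classical
  set ε' : ℝ := ε / (2 * ((k : ℝ) + 1) ^ 2) with hε'
  have hk0 : (0 : ℝ) ≤ k := Nat.cast_nonneg k
  have hε'0 : 0 < ε' := by positivity
  obtain ⟨A, hA, x0, hx0⟩ := hM 3 (by norm_num) ε' hε'0
  have h2k : (1 : ℝ) ≤ (2 : ℝ) ^ k := one_le_pow₀ (by norm_num)
  refine ⟨A * 2 ^ k, ?_, 2 ^ k * max x0 1, ?_⟩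
  · exact Nat.one_le_iff_ne_zero.2 (Nat.mul_ne_zero (by omega) (by positivity))
  intro x hx h hh c
  have hmax : (1 : ℝ) ≤ max x0 1 := le_max_right _ _
  have hx1 : 1 ≤ x := by nlinarith
  have hx0' : 0 ≤ x := by linarith
  set S := pann (x / (2 ^ k : ℕ)) x with hS
  have hSne : ∀ z ∈ S, z ≠ 0 := by
    intro z hz
    rw [hS, mem_pann hx0'] at hz
    exact prim_ne_zero hz.2
  refine (sn_sum h c S hSne _).trans ?_
  -- Cauchy
  have hC : ∀ m : ℤ, ‖∑ z ∈ S, f3 h z * xi z ^ m‖ ^ 2 ≤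
      k * ∑ j ∈ Finset.range k, ‖Zs (f3 h) (x / (2 ^ j : ℕ) / 2) (x / (2 ^ j : ℕ)) m‖ ^ 2 := by
    intro m
    rw [hS, mn_split _ hx0' k]
    have h1 : ‖∑ j ∈ Finset.range k, ∑ z ∈ pann (x / (2 ^ j : ℕ) / 2) (x / (2 ^ j : ℕ)),
        f3 h z * xi z ^ m‖ ≤
        ∑ j ∈ Finset.range k, ‖Zs (f3 h) (x / (2 ^ j : ℕ) / 2) (x / (2 ^ j : ℕ)) m‖ :=
      norm_sum_le _ _
    refine (pow_le_pow_left₀ (norm_nonneg _) h1 2).trans ?_
    have h2 := sq_sum_le_card_mul_sum_sq (s := Finset.range k)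
      (f := fun j => ‖Zs (f3 h) (x / (2 ^ j : ℕ) / 2) (x / (2 ^ j : ℕ)) m‖)
    rw [Finset.card_range] at h2
    exact h2
  have hsum : ∑ m ∈ (fr ⌊x / (A * 2 ^ k : ℕ)⌋₊).erase 0, ‖∑ z ∈ S, f3 h z * xi z ^ m‖ ^ 2 ≤
      k * ∑ j ∈ Finset.range k, ε' * x ^ 2 := by
    refine (Finset.sum_le_sum fun m _ => hC m).trans ?_
    rw [← Finset.mul_sum, Finset.sum_comm]
    refine mul_le_mul_of_nonneg_left (Finset.sum_le_sum fun j hj => ?_) hk0
    rw [Finset.mem_range] at hj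
    have h2j : (1 : ℝ) ≤ (2 : ℝ) ^ j := one_le_pow₀ (by norm_num)
    have hjk : (2 : ℝ) ^ j ≤ (2 : ℝ) ^ k := pow_le_pow_right₀ (by norm_num) hj.le
    have hAr : (1 : ℝ) ≤ A := by exact_mod_cast hA
    set y : ℝ := x / (2 ^ j : ℕ) with hy
    have hyx : y ≤ x := by
      rw [hy]
      refine div_le_self hx0' ?_
      push_cast
      exact h2j
    have hy0 : 0 ≤ y := by positivity
    have hyx0 : x0 ≤ y := by
      rw [hy, le_div_iff₀ (by positivity)]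
      push_cast
      have h3 : x0 ≤ max x0 1 := le_max_left _ _
      have h4 : x0 * 2 ^ j ≤ max x0 1 * 2 ^ j := mul_le_mul_of_nonneg_right h3 (by positivity)
      have h5 : max x0 1 * (2 : ℝ) ^ j ≤ max x0 1 * 2 ^ k :=
        mul_le_mul_of_nonneg_left hjk (by linarith)
      linarith
    have h6 := hx0 y hyx0 (f3 h) (CMC_f3 hh) (fun z _ => f3_cube h z)
    have h7 : (fr ⌊x / (A * 2 ^ k : ℕ)⌋₊).erase 0 ⊆ (fr ⌊y / A⌋₊).erase 0 := by
      refine Finset.erase_subset_erase _ fun m hm => ?_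
      rw [mem_fr] at hm ⊢
      refine lt_of_lt_of_le hm ?_
      have : ⌊x / ((A * 2 ^ k : ℕ) : ℝ)⌋₊ ≤ ⌊y / (A : ℝ)⌋₊ := by
        refine Nat.floor_le_floor ?_
        rw [hy, div_div]
        push_cast
        refine div_le_div_of_nonneg_left hx0' (by positivity) ?_
        rw [mul_comm]
        exact mul_le_mul_of_nonneg_left hjk (by linarith)
      exact_mod_cast this
    refine (Finset.sum_le_sum_of_subset_of_nonneg h7 fun _ _ _ => by positivity).trans ?_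
    refine h6.trans ?_
    refine mul_le_mul_of_nonneg_left ?_ hε'0.le
    exact pow_le_pow_left₀ hy0 hyx 2
  rw [Finset.sum_const, Finset.card_range, nsmul_eq_mul] at hsum
  have hfin : 4 / 3 * ((k : ℝ) * (k * (ε' * x ^ 2))) ≤ ε * x ^ 2 := by
    have h8 : ε' * (2 * ((k : ℝ) + 1) ^ 2) = ε := by
      rw [hε']
      field_simp
    have h9 : 4 / 3 * ((k : ℝ) * (k * ε')) ≤ ε := by
      rw [← h8]
      nlinarith [mul_nonneg hε'0.le hk0, mul_nonneg hε'0.le (mul_nonneg hk0 hk0)]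
    have h10 := mul_le_mul_of_nonneg_right h9 (sq_nonneg x)
    linarith
  linarith

end Pool.Agent.NSqC
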