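import Pool.Agent.Lib.NSqC.Path
import Pool.Agent.Lib.NSqC.Fan
import Pool.Agent.Lib.NSqP.Near

/-!
# PAIRB: close pairs with labels 1 and 2

PROOF of `star_card`: for `u` in the set there is `v` as in `Star`.  First alternative:
`(u, v) ∈ BE h c N`, so `u` is in the image of `BE` under the first projection.  Second alternative:
`(v + u, v) ∈ BE h c N` (`crossG (v + u) v = crossG u v = 1`, the sum of the labels is `0`,
`add_comm`), so `u` is in the image of `BE` under `p ↦ p.1 - p.2`.  So the set is contained in the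
union of two images (`Finset.card_image_le`, `Finset.card_union_le`).

PROOF of `pair_boundB`: exactly as `NSqP.pair_bound` (file `NSqP/Pair.lean`; copy its private lemmas
`near_iff`, `cone_conv`), with `path` replaced by `pathT` for `T = ty h c N` (`ty_neg`): for a pair
`(z, z')` with `sn z * sn z' < 0` the labels are `1, 2` in some order, so `ty z = lb z ≠ lb z' = ty z'`;
`pathT` gives an edge `(u, v)` in the cone with `ty u ≠ ty v`, and `ty_edge` gives `Star` for `u` or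
`v`, both in the cone and nonzero (`prim_left`, `prim_right`).  So the pair is within `r` of a
vector in `Y = (ballG N).filter (fun u => Prim u ∧ Star h c N u)`; each contributes at most
`(1 + 4 r N) ^ 2` pairs, and `#Y ≤ 2 #BE` by `star_card`.
-/

set_option autoImplicit false

namespace Pool.Agent.NSqC

open Real
open Pool.Agent.NSqP
open Pool.Agent.MP484c84Par (ballG mem_ballG crossG dotG)

private lemma near_iff {w : GaussianInt} (hw : w ≠ 0) {ζ : ℂ} (hζ : ‖ζ‖ = 1) {r : ℝ} (hr : 0 ≤ r) :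
    ‖xi w - ζ‖ ≤ r ↔
      (1 - r ^ 2 / 2) * ‖(w : ℂ)‖ ≤ ((w : ℂ) * (starRingEnd ℂ) ζ).re := by
  have hw0 : 0 < ‖(w : ℂ)‖ := norm_pos_iff.2 (toC_ne_zero hw)
  have h1 : ‖xi w - ζ‖ ^ 2 = 2 - 2 * (xi w * (starRingEnd ℂ) ζ).re := by
    rw [← Complex.normSq_eq_norm_sq, Complex.normSq_sub, Complex.normSq_eq_norm_sq,
      Complex.normSq_eq_norm_sq, norm_xi hw, hζ]
    ring
  have h2 : (xi w * (starRingEnd ℂ) ζ).re = ((w : ℂ) * (starRingEnd ℂ) ζ).re / ‖(w : ℂ)‖ := by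
    unfold xi
    rw [div_mul_eq_mul_div, Complex.div_ofReal_re]
  rw [h2] at h1
  constructor
  · intro h
    have h3 : ‖xi w - ζ‖ ^ 2 ≤ r ^ 2 := pow_le_pow_left₀ (norm_nonneg _) h 2
    rw [h1] at h3
    have h4 : 1 - r ^ 2 / 2 ≤ ((w : ℂ) * (starRingEnd ℂ) ζ).re / ‖(w : ℂ)‖ := by linarith
    rwa [le_div_iff₀ hw0] at h4
  · intro h
    rw [← le_div_iff₀ hw0] at h
    have h3 : ‖xi w - ζ‖ ^ 2 ≤ r ^ 2 := by rw [h1]; linarith
    exact (pow_le_pow_iff_left₀ (norm_nonneg _) hr (by norm_num)).1 h3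

private lemma cone_conv {κ : ℝ} (hκ : 0 ≤ κ) (ζ : ℂ) {z z' u : GaussianInt} {a b D : ℤ}
    (ha : 0 ≤ a) (hb : 0 ≤ b) (hD : 0 < D) (h1 : D * u.re = a * z.re + b * z'.re)
    (h2 : D * u.im = a * z.im + b * z'.im)
    (hz : κ * ‖(z : ℂ)‖ ≤ ((z : ℂ) * (starRingEnd ℂ) ζ).re)
    (hz' : κ * ‖(z' : ℂ)‖ ≤ ((z' : ℂ) * (starRingEnd ℂ) ζ).re) :
    κ * ‖(u : ℂ)‖ ≤ ((u : ℂ) * (starRingEnd ℂ) ζ).re := by
  have hDr : (0 : ℝ) < D := by exact_mod_cast hD
  have har : (0 : ℝ) ≤ a := by exact_mod_cast ha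
  have hbr : (0 : ℝ) ≤ b := by exact_mod_cast hb
  have h3 : (((D : ℤ) : GaussianInt) * u) = ((a : ℤ) : GaussianInt) * z +
      ((b : ℤ) : GaussianInt) * z' := by
    ext
    · simp only [Zsqrtd.re_add, Zsqrtd.re_mul, Zsqrtd.re_intCast, Zsqrtd.im_intCast]
      linarith
    · simp only [Zsqrtd.im_add, Zsqrtd.im_mul, Zsqrtd.re_intCast, Zsqrtd.im_intCast]
      linarith
  have h4 : ((D : ℝ) : ℂ) * (u : ℂ) = ((a : ℝ) : ℂ) * (z : ℂ) + ((b : ℝ) : ℂ) * (z' : ℂ) := by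
    have h5 := congrArg GaussianInt.toComplex h3
    rw [map_mul, map_add, map_mul, map_mul] at h5
    simpa using h5
  have h6 : (D : ℝ) * ((u : ℂ) * (starRingEnd ℂ) ζ).re =
      a * ((z : ℂ) * (starRingEnd ℂ) ζ).re + b * ((z' : ℂ) * (starRingEnd ℂ) ζ).re := by
    have h7 : ((D : ℝ) : ℂ) * ((u : ℂ) * (starRingEnd ℂ) ζ) =
        ((a : ℝ) : ℂ) * ((z : ℂ) * (starRingEnd ℂ) ζ) +
          ((b : ℝ) : ℂ) * ((z' : ℂ) * (starRingEnd ℂ) ζ) := by
      rw [← mul_assoc, h4]; ring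
    have h8 := congrArg Complex.re h7
    rwa [Complex.add_re, Complex.re_ofReal_mul, Complex.re_ofReal_mul, Complex.re_ofReal_mul] at h8
  have h9 : (D : ℝ) * ‖(u : ℂ)‖ ≤ a * ‖(z : ℂ)‖ + b * ‖(z' : ℂ)‖ := by
    have h10 : (D : ℝ) * ‖(u : ℂ)‖ = ‖((D : ℝ) : ℂ) * (u : ℂ)‖ := by
      rw [norm_mul, Complex.norm_real, Real.norm_of_nonneg hDr.le]
    rw [h10, h4]
    refine (norm_add_le _ _).trans ?_
    rw [norm_mul, norm_mul, Complex.norm_real, Complex.norm_real, Real.norm_of_nonneg har,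
      Real.norm_of_nonneg hbr]
  have h11 : (D : ℝ) * (κ * ‖(u : ℂ)‖) ≤ D * ((u : ℂ) * (starRingEnd ℂ) ζ).re := by
    rw [h6]
    have h12 := mul_le_mul_of_nonneg_left hz har
    have h13 := mul_le_mul_of_nonneg_left hz' hbr
    have h14 := mul_le_mul_of_nonneg_left h9 hκ
    nlinarith
  exact le_of_mul_le_mul_left h11 hDr

open Classical in
theorem star_card (h : ℕ → ZMod 3) (c : ZMod 3) (N : ℕ) :
    ((ballG N).filter (fun u => Prim u ∧ Star h c N u)).card ≤ 2 * (BE h c N).card := by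
  have hsub : ((ballG N).filter (fun u => Prim u ∧ Star h c N u)) ⊆
      (BE h c N).image (fun p => p.1) ∪ (BE h c N).image (fun p => p.1 - p.2) := by
    intro u hu
    rw [Finset.mem_filter, mem_ballG'] at hu
    obtain ⟨huN, _, v, hv, hcr, hs⟩ := hu
    rw [Finset.mem_union]
    rcases hs with hs | ⟨hvu, hs⟩
    · left
      exact Finset.mem_image.2 ⟨(u, v), mem_BE.2 ⟨huN, hv, hcr, hs⟩, rfl⟩
    · right
      refine Finset.mem_image.2 ⟨(v + u, v), mem_BE.2 ⟨hvu, hv, ?_, ?_⟩, ?_⟩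
      · simp only [crossG, Zsqrtd.re_add, Zsqrtd.im_add] at hcr ⊢
        linarith
      · simp only
        rw [add_comm]
        exact hs
      · simp only
        ring
  calc ((ballG N).filter (fun u => Prim u ∧ Star h c N u)).card
      ≤ ((BE h c N).image (fun p => p.1) ∪ (BE h c N).image (fun p => p.1 - p.2)).card :=
        Finset.card_le_card hsub
    _ ≤ ((BE h c N).image (fun p => p.1)).card + ((BE h c N).image (fun p => p.1 - p.2)).card :=
        Finset.card_union_le _ _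
    _ ≤ (BE h c N).card + (BE h c N).card := add_le_add Finset.card_image_le Finset.card_image_le
    _ = 2 * (BE h c N).card := by ring

/-- opposite signs have different types -/
private lemma ty_ne {h : ℕ → ZMod 3} {c : ZMod 3} {N : ℕ} {z z' : GaussianInt}
    (hs : sn h c z * sn h c z' < 0) : ty h c N z ≠ ty h c N z' := by
  have h12 : (1 : ZMod 3) ≠ 2 := by decide
  have h10 : (1 : ZMod 3) ≠ 0 := by decide
  have h20 : (2 : ZMod 3) ≠ 0 := by decide
  rcases lb_cases h c z with h1 | h1 | h1 <;> rcases lb_cases h c z' with h2 | h2 | h2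
  · rw [sn_of_zero h1, zero_mul] at hs; exact absurd hs (lt_irrefl _)
  · rw [sn_of_zero h1, zero_mul] at hs; exact absurd hs (lt_irrefl _)
  · rw [sn_of_zero h1, zero_mul] at hs; exact absurd hs (lt_irrefl _)
  · rw [sn_of_zero h2, mul_zero] at hs; exact absurd hs (lt_irrefl _)
  · rw [sn_of_one h1, sn_of_one h2] at hs; norm_num at hs
  · unfold ty
    rw [h1, h2, if_pos h10, if_pos h20]
    exact h12
  · rw [sn_of_zero h2, mul_zero] at hs; exact absurd hs (lt_irrefl _)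
  · unfold ty
    rw [h1, h2, if_pos h20, if_pos h10]
    exact h12.symm
  · rw [sn_of_two h1, sn_of_two h2] at hs; norm_num at hs

open Classical in
theorem pair_boundB (h : ℕ → ZMod 3) (c : ZMod 3) (N : ℕ) (hN : 1 ≤ N) (r : ℝ) (hr : 0 ≤ r)
    (hr1 : r ≤ 1) :
    ((((pann 0 N) ×ˢ (pann 0 N)).filter
      (fun q => ‖xi q.1 - xi q.2‖ ≤ r ∧ sn h c q.1 * sn h c q.2 < 0)).card : ℝ) ≤
      2 * (1 + 4 * r * N) ^ 2 * (BE h c N).card := by
  set S : Finset GaussianInt := pann 0 N with hS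
  set Y : Finset GaussianInt := (ballG N).filter (fun u => Prim u ∧ Star h c N u) with hY
  have hNr : (1 : ℝ) ≤ (N : ℝ) := by exact_mod_cast hN
  have hN0 : (0 : ℝ) ≤ (N : ℝ) := by linarith
  have hmem : ∀ z ∈ S, Prim z ∧ (nN z : ℝ) ≤ N := by
    intro z hz
    rw [hS, mem_pann hN0] at hz
    exact ⟨hz.2, hz.1.2⟩
  have hκ : 0 ≤ 1 - r ^ 2 / 2 := by nlinarith
  -- every pair is near a vector of Y
  have hsub : ((S ×ˢ S).filter (fun q => ‖xi q.1 - xi q.2‖ ≤ r ∧ sn h c q.1 * sn h c q.2 < 0)) ⊆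
      Y.biUnion (fun p => (S.filter (fun z => ‖xi z - xi p‖ ≤ r)) ×ˢ
        (S.filter (fun z => ‖xi z - xi p‖ ≤ r))) := by
    rintro ⟨z, z'⟩ hq
    rw [Finset.mem_filter, Finset.mem_product] at hq
    obtain ⟨⟨hz, hz'⟩, hr2, hF⟩ := hq
    simp only at hz hz' hr2 hF
    have hz0 : z ≠ 0 := prim_ne_zero (hmem z hz).1
    have hz0' : z' ≠ 0 := prim_ne_zero (hmem z' hz').1
    have hnz : nN z ≤ N := by exact_mod_cast (hmem z hz).2
    have hnz' : nN z' ≤ N := by exact_mod_cast (hmem z' hz').2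
    let C : GaussianInt → Prop := fun w =>
      (1 - r ^ 2 / 2) * ‖(w : ℂ)‖ ≤ ((w : ℂ) * (starRingEnd ℂ) (xi z)).re ∧
      (1 - r ^ 2 / 2) * ‖(w : ℂ)‖ ≤ ((w : ℂ) * (starRingEnd ℂ) (xi z')).re
    have hC : MP484c84Par.Convex' C := by
      intro w w' u a b D ha hb hD _ h1 h2 hw hw'
      exact ⟨cone_conv hκ _ ha hb hD h1 h2 hw.1 hw'.1, cone_conv hκ _ ha hb hD h1 h2 hw.2 hw'.2⟩
    have hCz : C z := by
      refine ⟨(near_iff hz0 (norm_xi hz0) hr).1 ?_, (near_iff hz0 (norm_xi hz0') hr).1 hr2⟩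
      rw [sub_self, norm_zero]; exact hr
    have hCz' : C z' := by
      refine ⟨(near_iff hz0' (norm_xi hz0) hr).1 ?_, (near_iff hz0' (norm_xi hz0') hr).1 ?_⟩
      · rw [norm_sub_rev]; exact hr2
      · rw [sub_self, norm_zero]; exact hr
    obtain ⟨u, v, huN, hvN, huv, hCu, hCv, htuv⟩ := pathT (ty h c N) (ty_neg h c N) hC N
      (hmem z hz).1 (hmem z' hz').1 hnz hnz' hCz hCz' (ty_ne hF)
    obtain ⟨p, hpN, hpP, hpS, hpC⟩ : ∃ p : GaussianInt, nN p ≤ N ∧ Prim p ∧ Star h c N p ∧ C p := by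
      rcases ty_edge h c N huN hvN huv htuv with h1 | h1
      · exact ⟨u, huN, prim_left huv, h1, hCu⟩
      · exact ⟨v, hvN, prim_right huv, h1, hCv⟩
    have hp0 : p ≠ 0 := prim_ne_zero hpP
    rw [Finset.mem_biUnion]
    refine ⟨p, ?_, ?_⟩
    · rw [hY, Finset.mem_filter, mem_ballG']
      exact ⟨hpN, hpP, hpS⟩
    rw [Finset.mem_product, Finset.mem_filter, Finset.mem_filter]
    refine ⟨⟨hz, ?_⟩, ⟨hz', ?_⟩⟩
    · rw [norm_sub_rev]; exact (near_iff hp0 (norm_xi hz0) hr).2 hpC.1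
    · rw [norm_sub_rev]; exact (near_iff hp0 (norm_xi hz0') hr).2 hpC.2
  have hcount : ∀ p ∈ Y,
      (((S.filter (fun z => ‖xi z - xi p‖ ≤ r)) ×ˢ
        (S.filter (fun z => ‖xi z - xi p‖ ≤ r))).card : ℝ) ≤ (1 + 4 * r * N) ^ 2 := by
    intro p hp
    rw [hY, Finset.mem_filter] at hp
    have hp0 : p ≠ 0 := prim_ne_zero hp.2.1
    have h1 := near_count S xi (xi p) N r hNr hr (norm_xi hp0)
      (fun i hi => norm_xi (prim_ne_zero (hmem i hi).1))
      (fun i hi j hj hij => prim_sep (hmem i hi).1 (hmem j hj).1 hij hNr (hmem i hi).2 (hmem j hj).2)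
    rw [Finset.card_product]
    push_cast
    rw [← sq]
    exact pow_le_pow_left₀ (Nat.cast_nonneg _) h1 2
  have hYc : (Y.card : ℝ) ≤ 2 * (BE h c N).card := by exact_mod_cast star_card h c N
  calc ((((S ×ˢ S).filter
      (fun q => ‖xi q.1 - xi q.2‖ ≤ r ∧ sn h c q.1 * sn h c q.2 < 0)).card : ℕ) : ℝ)
      ≤ ((Y.biUnion (fun p => (S.filter (fun z => ‖xi z - xi p‖ ≤ r)) ×ˢ
        (S.filter (fun z => ‖xi z - xi p‖ ≤ r)))).card : ℝ) := by
        exact_mod_cast Finset.card_le_card hsub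
    _ ≤ ∑ p ∈ Y, (((S.filter (fun z => ‖xi z - xi p‖ ≤ r)) ×ˢ
        (S.filter (fun z => ‖xi z - xi p‖ ≤ r))).card : ℝ) := by
        exact_mod_cast Finset.card_biUnion_le
    _ ≤ ∑ _p ∈ Y, (1 + 4 * r * N) ^ 2 := Finset.sum_le_sum hcount
    _ = (1 + 4 * r * N) ^ 2 * Y.card := by
        rw [Finset.sum_const, nsmul_eq_mul]; ring
    _ ≤ (1 + 4 * r * N) ^ 2 * (2 * (BE h c N).card) :=
        mul_le_mul_of_nonneg_left hYc (by positivity)
    _ = 2 * (1 + 4 * r * N) ^ 2 * (BE h c N).card := by ring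

end Pool.Agent.NSqC
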