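import Pool.Agent.Lib.NSqC.Defs
import Pool.Agent.Lib.NSqP.LS

/-!
# PATH: the path lemma for an arbitrary even function on the primitive vectors

PROOF (as `MP484c84Par.path_aux`, `MP484c84Par.path`, but the intermediate point is replaced by the
primitive vector in its direction).  By `crossG_swap` and symmetry let `n = crossG z z' ≥ 0`; strong
induction on `n`.
* `n = 0`: `z' = z` or `z' = - z` (private lemma `ls_cross_zero` in `NSqP/LS.lean`, copy its proof),
  so `T z = T z'` by `hT`, contradiction.
* `n = 1`: take `u = z`, `v = z'`.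
* `n ≥ 2`: `MP484c84Par.exists_lattice` gives `u0 ≠ 0` and `a, b ≥ 0`, `a, b < D`, `a + b ≤ D`,
  `D u0 = a z + b z'`, `D = crossG z z'`.  Let `g = cont u0 ≥ 1`, `u0 = g u` (division of both
  coordinates), `Prim u`.  With `a' = crossG u z'`, `b' = crossG z u` one has `g a' = a`,
  `g b' = b` (`crossG u0 z' = a`, `crossG z u0 = b` as in `path_aux`), so `0 ≤ a' ≤ a < D`,
  `0 ≤ b' ≤ b < D`, `a' + b' ≤ a + b ≤ D`, and `D u = a' z + b' z'` (cancel `g`).
  So `C u` (by `hC`), `nN u ≤ x` (`MP484c84Par.norm_le_of_convex`).  If `T z = T u` then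
  `T u ≠ T z'` and induction applies to `(u, z')` with `crossG u z' = a' < n`; else to `(z, u)` with
  `crossG z u = b' < n`.
-/

set_option autoImplicit false

namespace Pool.Agent.NSqC

open Real
open Pool.Agent.NSqP
open Pool.Agent.MP484c84Par (ballG mem_ballG crossG dotG Convex')

private lemma pt_cross_zero {z w : GaussianInt} (hz : Prim z) (hw : Prim w)
    (h : crossG z w = 0) : w = z ∨ w = -z := by
  unfold Prim cont at hz hw
  unfold crossG at h
  have cz : IsCoprime z.re z.im := Int.isCoprime_iff_gcd_eq_one.2 hz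
  have cw : IsCoprime w.re w.im := Int.isCoprime_iff_gcd_eq_one.2 hw
  have e : z.re * w.im = z.im * w.re := by linarith
  have d1 : z.re ∣ w.re := cz.dvd_of_dvd_mul_left (Dvd.intro _ e)
  have d2 : w.re ∣ z.re := cw.dvd_of_dvd_mul_left (Dvd.intro z.im (by linarith))
  have d3 : z.im ∣ w.im := cz.symm.dvd_of_dvd_mul_left (Dvd.intro _ e.symm)
  have d4 : w.im ∣ z.im := cw.symm.dvd_of_dvd_mul_left (Dvd.intro z.re (by linarith))
  have e1 := Int.natAbs_eq_natAbs_iff.1 (Int.natAbs_eq_of_dvd_dvd d2 d1)
  have e2 := Int.natAbs_eq_natAbs_iff.1 (Int.natAbs_eq_of_dvd_dvd d4 d3)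
  rcases e1 with e1 | e1 <;> rcases e2 with e2 | e2
  · exact Or.inl (Zsqrtd.ext e1 e2)
  · -- re equal, im opposite
    rw [e1, e2] at e
    have e3 : z.re * z.im = 0 := by nlinarith
    rcases mul_eq_zero.1 e3 with e4 | e4
    · right
      refine Zsqrtd.ext ?_ ?_
      · rw [e1, e4]; simp [e4]
      · rw [e2]; simp
    · left
      refine Zsqrtd.ext e1 ?_
      rw [e2, e4]; simp
  · rw [e1, e2] at e
    have e3 : z.re * z.im = 0 := by nlinarith
    rcases mul_eq_zero.1 e3 with e4 | e4
    · left
      refine Zsqrtd.ext ?_ e2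
      rw [e1, e4]; simp
    · right
      refine Zsqrtd.ext ?_ ?_
      · rw [e1]; simp
      · rw [e2, e4]; simp [e4]
  · right
    refine Zsqrtd.ext ?_ ?_
    · rw [e1]; simp
    · rw [e2]; simp

private lemma pt_prim_ne_zero {z : GaussianInt} (hz : Prim z) : z ≠ 0 := by
  rintro rfl
  unfold Prim cont at hz
  simp at hz

private theorem pt_aux {α : Type} (T : GaussianInt → α) (hT : ∀ z, T (-z) = T z)
    {C : GaussianInt → Prop} (hC : Convex' C) (x : ℕ) (n : ℕ) :
    ∀ {z z' : GaussianInt}, Prim z → Prim z' → nN z ≤ x → nN z' ≤ x →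
    C z → C z' → T z ≠ T z' → crossG z z' = n →
    ∃ u v : GaussianInt, nN u ≤ x ∧ nN v ≤ x ∧ crossG u v = 1 ∧ C u ∧ C v ∧ T u ≠ T v := by
  induction n using Nat.strong_induction_on with
  | _ n ih =>
    intro z z' hz0 hz0' hz hz' hCz hCz' hne hn
    rcases Nat.lt_or_ge n 2 with h2 | h2
    · interval_cases n
      · rcases pt_cross_zero hz0 hz0' (by simpa using hn) with h | h
        · exact absurd (by rw [h]) hne
        · exact absurd (by rw [h, hT]) hne
      · exact ⟨z, z', hz, hz', by simpa using hn, hCz, hCz', hne⟩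
    · obtain ⟨u0, a, b, ha, hb, haD, hbD, hab, hu0, h1, h3⟩ :=
        MP484c84Par.exists_lattice (z := z) (z' := z') (by rw [hn]; exact_mod_cast h2)
      have hDpos : 0 < crossG z z' := by omega
      have hg : 0 < Int.gcd u0.re u0.im := by
        rw [Nat.pos_iff_ne_zero]
        intro h4
        rw [Int.gcd_eq_zero_iff] at h4
        exact hu0 (Zsqrtd.ext h4.1 h4.2)
      have hre : u0.re = (Int.gcd u0.re u0.im : ℤ) * (u0.re / (Int.gcd u0.re u0.im : ℤ)) :=
        (Int.mul_ediv_cancel' (Int.gcd_dvd_left _ _)).symm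
      have him : u0.im = (Int.gcd u0.re u0.im : ℤ) * (u0.im / (Int.gcd u0.re u0.im : ℤ)) :=
        (Int.mul_ediv_cancel' (Int.gcd_dvd_right _ _)).symm
      have hpr : Int.gcd (u0.re / (Int.gcd u0.re u0.im : ℤ))
          (u0.im / (Int.gcd u0.re u0.im : ℤ)) = 1 := Int.gcd_ediv_gcd_ediv_gcd hg
      generalize Int.gcd u0.re u0.im = g at hg hre him hpr
      obtain ⟨u, hur, hui⟩ : ∃ u : GaussianInt, u.re = u0.re / (g : ℤ) ∧ u.im = u0.im / (g : ℤ) :=
        ⟨⟨_, _⟩, rfl, rfl⟩
      rw [← hur, ← hui] at hpr
      rw [← hur] at hre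
      rw [← hui] at him
      have hup : Prim u := hpr
      have hune : u ≠ 0 := pt_prim_ne_zero hup
      have hg1 : (1 : ℤ) ≤ g := by exact_mod_cast hg
      have hzu0 : crossG z u0 = b := by
        have : crossG z z' * crossG z u0 = crossG z z' * b := by
          have : crossG z z' * crossG z u0 =
              z.re * (crossG z z' * u0.im) - z.im * (crossG z z' * u0.re) := by
            unfold crossG; ring
          rw [this, h1, h3]; unfold crossG; ring
        exact mul_left_cancel₀ hDpos.ne' this
      have huz0 : crossG u0 z' = a := by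
        have : crossG z z' * crossG u0 z' = crossG z z' * a := by
          have : crossG z z' * crossG u0 z' =
              (crossG z z' * u0.re) * z'.im - (crossG z z' * u0.im) * z'.re := by
            unfold crossG; ring
          rw [this, h1, h3]; unfold crossG; ring
        exact mul_left_cancel₀ hDpos.ne' this
      have hb' : (g : ℤ) * crossG z u = b := by
        rw [← hzu0]; unfold crossG; rw [hre, him]; ring
      have ha' : (g : ℤ) * crossG u z' = a := by
        rw [← huz0]; unfold crossG; rw [hre, him]; ring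
      have hb0 : 0 ≤ crossG z u := by
        by_contra h4
        push Not at h4
        nlinarith
      have ha0 : 0 ≤ crossG u z' := by
        by_contra h4
        push Not at h4
        nlinarith
      have hble : crossG z u ≤ b := by nlinarith
      have hale : crossG u z' ≤ a := by nlinarith
      have e1 : crossG z z' * u.re = crossG u z' * z.re + crossG z u * z'.re := by
        unfold crossG; ring
      have e2 : crossG z z' * u.im = crossG u z' * z.im + crossG z u * z'.im := by
        unfold crossG; ring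
      have hCu : C u := hC z z' u _ _ _ ha0 hb0 hDpos hune e1 e2 hCz hCz'
      have hnu : nN u ≤ x := by
        have h5 : u.norm ≤ (x : ℤ) := by
          refine MP484c84Par.norm_le_of_convex ha0 hb0 hDpos (by omega) e1 e2 ?_ ?_
          · rw [← nN_cast_int]; exact_mod_cast hz
          · rw [← nN_cast_int]; exact_mod_cast hz'
        rw [← nN_cast_int] at h5
        exact_mod_cast h5
      by_cases hF : T z = T u
      · have hne' : T u ≠ T z' := by rw [← hF]; exact hne
        refine ih (crossG u z').toNat (by omega) hup hz0' hnu hz' hCu hCz' hne' (by omega)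
      · refine ih (crossG z u).toNat (by omega) hz0 hup hz hnu hCz hCu hF (by omega)

theorem pathT {α : Type} (T : GaussianInt → α) (hT : ∀ z, T (-z) = T z) {C : GaussianInt → Prop}
    (hC : Convex' C) (x : ℕ) {z z' : GaussianInt} (hz : Prim z) (hz' : Prim z')
    (hzx : nN z ≤ x) (hzx' : nN z' ≤ x) (hCz : C z) (hCz' : C z') (hne : T z ≠ T z') :
    ∃ u v : GaussianInt, nN u ≤ x ∧ nN v ≤ x ∧ crossG u v = 1 ∧ C u ∧ C v ∧ T u ≠ T v := by
  rcases le_total 0 (crossG z z') with h0 | h0
  · exact pt_aux T hT hC x (crossG z z').toNat hz hz' hzx hzx' hCz hCz' hne (by omega)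
  · refine pt_aux T hT hC x (crossG z' z).toNat hz' hz hzx' hzx hCz' hCz hne.symm ?_
    rw [MP484c84Par.crossG_swap z z']; omega

end Pool.Agent.NSqC
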