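import Pool.Agent.Lib.NSqC.StartB
import Pool.Agent.Lib.NSqC.Mean

/-!
# RIGB: few bad edges: almost all nonzero labels are equal

PROOF.  Put `ε' = ε ^ 2 / 2`; `MEAN hM k ε'` gives `A, x0`, `STARTB (2^k) ε' A` gives `η`.  Let
`N ≥ max N1 A ⌈x0⌉`, `M = ⌊N/A⌋ ≥ 1`, `S = ∑ sn`, `T = ∑ |sn|`.  The Fejer sum is the term `m = 0`,
equal to `S ^ 2` (`zpow_zero`; `‖((S : ℝ) : ℂ)‖ ^ 2 = S ^ 2`), plus the sum over
`(fr M).erase 0` (`Finset.add_sum_erase`) with weights in `[0, 1]`, at most `ε' N ^ 2`.  So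
`T ^ 2 ≤ S ^ 2 + 2 ε' N ^ 2 = S ^ 2 + ε ^ 2 N ^ 2 ≤ (|S| + ε N) ^ 2`.
-/

set_option autoImplicit false

namespace Pool.Agent.NSqC

open Real
open Pool.Agent.NSqP
open Pool.Agent.MP484c84Par (ballG mem_ballG crossG dotG)

theorem RIGB (hM : MRUkStmt) (k : ℕ) (ε : ℝ) (hε : 0 < ε) :
    ∃ η : ℝ, 0 < η ∧ ∃ N0 : ℕ, ∀ N : ℕ, N0 ≤ N → ∀ h : ℕ → ZMod 3, CA h → ∀ c : ZMod 3,
      ((BE h c N).card : ℝ) ≤ η * N →
      ∑ z ∈ pann ((N : ℝ) / (2 ^ k : ℕ)) N, |sn h c z| ≤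
        |∑ z ∈ pann ((N : ℝ) / (2 ^ k : ℕ)) N, sn h c z| + ε * N := by
  obtain ⟨A, hA, x0, hx0⟩ := MEAN hM k (ε ^ 2 / 2) (by positivity)
  obtain ⟨η, hη, N1, hN1⟩ := STARTB (2 ^ k) Nat.one_le_two_pow (ε ^ 2 / 2) (by positivity) A hA
  refine ⟨η, hη, max (max N1 A) (max 1 ⌈x0⌉₊), ?_⟩
  intro N hN h hh c hBE
  have hNN1 : N1 ≤ N := le_trans (le_trans (le_max_left _ _) (le_max_left _ _)) hN
  have hNA : A ≤ N := le_trans (le_trans (le_max_right _ _) (le_max_left _ _)) hN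
  have hN1' : 1 ≤ N := le_trans (le_trans (le_max_left _ _) (le_max_right _ _)) hN
  have hNx : ⌈x0⌉₊ ≤ N := le_trans (le_trans (le_max_right _ _) (le_max_right _ _)) hN
  have hx : x0 ≤ (N : ℝ) := le_trans (Nat.le_ceil x0) (by exact_mod_cast hNx)
  have e1 := hx0 (N : ℝ) hx h hh c
  have e2 := hN1 N hNN1 h c hBE
  set s := pann ((N : ℝ) / (2 ^ k : ℕ)) N with hs
  set M := ⌊(N : ℝ) / A⌋₊ with hMdef
  have hApos : (0 : ℝ) < A := by exact_mod_cast hA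
  have hM1 : 1 ≤ M := by
    rw [hMdef]
    apply Nat.le_floor
    rw [Nat.cast_one, le_div_iff₀ hApos, one_mul]
    exact_mod_cast hNA
  have h0 : (0 : ℤ) ∈ fr M := by
    rw [mem_fr]
    simp only [abs_zero]
    exact_mod_cast hM1
  have hMpos : (0 : ℝ) < M := by exact_mod_cast hM1
  -- the term of frequency zero
  have hz : (1 - |((0 : ℤ) : ℝ)| / M) * ‖∑ z ∈ s, ((sn h c z : ℝ) : ℂ) * xi z ^ (0 : ℤ)‖ ^ 2 =
      (∑ z ∈ s, sn h c z) ^ 2 := by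
    have h1 : ∑ z ∈ s, ((sn h c z : ℝ) : ℂ) * xi z ^ (0 : ℤ) = ((∑ z ∈ s, sn h c z : ℝ) : ℂ) := by
      push_cast
      exact Finset.sum_congr rfl (fun z _ => by rw [zpow_zero, mul_one])
    rw [h1, Complex.norm_real, Real.norm_eq_abs, sq_abs]
    simp
  have hrest : ∑ m ∈ (fr M).erase 0, (1 - |(m : ℝ)| / M) *
      ‖∑ z ∈ s, ((sn h c z : ℝ) : ℂ) * xi z ^ m‖ ^ 2 ≤ ε ^ 2 / 2 * (N : ℝ) ^ 2 := by
    refine le_trans (Finset.sum_le_sum (fun m hm => ?_)) e1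
    have hm' : |m| < M := mem_fr.mp (Finset.mem_of_mem_erase hm)
    have h2 : 0 ≤ |(m : ℝ)| / M := by positivity
    calc (1 - |(m : ℝ)| / M) * ‖∑ z ∈ s, ((sn h c z : ℝ) : ℂ) * xi z ^ m‖ ^ 2
        ≤ 1 * ‖∑ z ∈ s, ((sn h c z : ℝ) : ℂ) * xi z ^ m‖ ^ 2 :=
          mul_le_mul_of_nonneg_right (by linarith) (by positivity)
      _ = _ := one_mul _
  rw [← Finset.add_sum_erase _ _ h0, hz] at e2
  have key : (∑ z ∈ s, |sn h c z|) ^ 2 ≤ (|∑ z ∈ s, sn h c z| + ε * N) ^ 2 := by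
    have h3 : 0 ≤ |∑ z ∈ s, sn h c z| * (ε * N) := by positivity
    have h4 := sq_abs (∑ z ∈ s, sn h c z)
    nlinarith
  exact le_of_sq_le_sq key (by positivity)

end Pool.Agent.NSqC
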