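import Pool.Agent.Lib.NSqC.Defs

/-!
# SIN: the sign as an imaginary part

PROOF of `sn_eq`: `stdAddChar c * f3 h z = stdAddChar (lb h c z)` (`AddChar.map_add_eq_mul`), and
`stdAddChar 0 = 1`, `stdAddChar 1 = exp (2 π i / 3)`, `stdAddChar 2 = exp (4 π i / 3)`
(`ZMod.stdAddChar_coe`, `ZMod.stdAddChar_apply`, `ZMod.toCircle_intCast`, or
`ZMod.stdAddChar_coe` with the integer `1`, `2`), imaginary parts `0`, `√3 / 2`, `-√3 / 2`
(`Complex.exp_im` / `Complex.exp_mul_I`, `Real.sin (2 π / 3) = √3 / 2`: use `sin (π - π/3)`;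
`sin (4 π / 3) = - sin (π / 3)`).

PROOF of `sn_sum`: for `w = stdAddChar c` (norm one) `sn z = (2/√3) Im (w f z) =
(w f z - conj (w f z)) / (i √3)`.  So with `Z m = ∑ f z ξ^m`: `∑ sn z ξ^m = (w Z m -
conj w * ∑ conj (f z) ξ^m) / (i √3)` and `∑ conj (f z) ξ(z)^m = conj (Z (-m))` because
`conj (ξ^(-m)) = ξ^m` for nonzero `z` (`norm_xi`).  The norm squared is at most
`(1/3) (‖Z m‖ + ‖Z (-m)‖) ^ 2 ≤ (2/3) (‖Z m‖ ^ 2 + ‖Z (-m)‖ ^ 2)`; sum over the `m ≠ 0` with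
`|m| < M`, a set stable under `m ↦ -m`.
-/

set_option autoImplicit false

namespace Pool.Agent.NSqC

open Real
open Pool.Agent.NSqP
open Pool.Agent.MP484c84Par (ballG mem_ballG crossG dotG)

private lemma sa_zero : (ZMod.stdAddChar (N := 3) 0 : ℂ).im = 0 := by
  rw [AddChar.map_zero_eq_one, Complex.one_im]

private lemma sin_two : Real.sin (2 * π / 3) = √3 / 2 := by
  have h1 : 2 * π / 3 = π - π / 3 := by ring
  rw [h1, Real.sin_pi_sub, Real.sin_pi_div_three]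

private lemma sin_four : Real.sin (4 * π / 3) = - (√3 / 2) := by
  have h1 : 4 * π / 3 = π / 3 + π := by ring
  rw [h1, Real.sin_add_pi, Real.sin_pi_div_three]

private lemma sa_one : (ZMod.stdAddChar (N := 3) 1 : ℂ).im = √3 / 2 := by
  have h1 := ZMod.stdAddChar_coe (N := 3) (1 : ℤ)
  have h2 : (((1 : ℤ) : ZMod 3)) = 1 := by norm_num
  rw [h2] at h1
  rw [h1]
  have h3 : 2 * (π : ℂ) * Complex.I * ((1 : ℤ) : ℂ) / ((3 : ℕ) : ℂ) =
      ((2 * π / 3 : ℝ) : ℂ) * Complex.I := by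
    push_cast
    ring
  rw [h3, Complex.exp_ofReal_mul_I_im, sin_two]

private lemma sa_two : (ZMod.stdAddChar (N := 3) 2 : ℂ).im = - (√3 / 2) := by
  have h1 := ZMod.stdAddChar_coe (N := 3) (2 : ℤ)
  have h2 : (((2 : ℤ) : ZMod 3)) = 2 := by norm_num
  rw [h2] at h1
  rw [h1]
  have h3 : 2 * (π : ℂ) * Complex.I * ((2 : ℤ) : ℂ) / ((3 : ℕ) : ℂ) =
      ((4 * π / 3 : ℝ) : ℂ) * Complex.I := by
    push_cast
    ring
  rw [h3, Complex.exp_ofReal_mul_I_im, sin_four]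

theorem sn_eq (h : ℕ → ZMod 3) (c : ZMod 3) (z : GaussianInt) :
    sn h c z = 2 / √3 * ((ZMod.stdAddChar (N := 3) c : ℂ) * f3 h z).im := by
  have h3 : (0 : ℝ) < √3 := Real.sqrt_pos.2 (by norm_num)
  have e : (ZMod.stdAddChar (N := 3) c : ℂ) * f3 h z = ZMod.stdAddChar (N := 3) (lb h c z) := by
    unfold f3 lb
    rw [AddChar.map_add_eq_mul]
  rw [e]
  rcases lb_cases h c z with h1 | h1 | h1
  · rw [sn_of_zero h1, h1, sa_zero, mul_zero]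
  · rw [sn_of_one h1, h1, sa_one]
    field_simp
  · rw [sn_of_two h1, h1, sa_two]
    field_simp

private lemma mem_fr_erase {M : ℕ} {m : ℤ} : m ∈ (fr M).erase 0 ↔ -m ∈ (fr M).erase 0 := by
  rw [Finset.mem_erase, Finset.mem_erase, mem_fr, mem_fr, abs_neg, neg_ne_zero]

private lemma conj_xi_zpow {z : GaussianInt} (hz : z ≠ 0) (m : ℤ) :
    (starRingEnd ℂ) (xi z ^ m) = xi z ^ (-m) := by
  rw [map_zpow₀, zpow_neg, ← inv_zpow]
  congr 1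
  rw [Complex.inv_def, Complex.normSq_eq_norm_sq, norm_xi hz]
  simp

theorem sn_sum (h : ℕ → ZMod 3) (c : ZMod 3) (S : Finset GaussianInt) (hS : ∀ z ∈ S, z ≠ 0)
    (M : ℕ) :
    ∑ m ∈ (fr M).erase 0, ‖∑ z ∈ S, ((sn h c z : ℝ) : ℂ) * xi z ^ m‖ ^ 2 ≤
      4 / 3 * ∑ m ∈ (fr M).erase 0, ‖∑ z ∈ S, f3 h z * xi z ^ m‖ ^ 2 := by
  set w : ℂ := (ZMod.stdAddChar (N := 3) c : ℂ) with hw
  have hw1 : ‖w‖ = 1 := AddChar.norm_apply _ _
  set Z : ℤ → ℂ := fun m => ∑ z ∈ S, f3 h z * xi z ^ m with hZ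
  have h3 : (0 : ℝ) < √3 := Real.sqrt_pos.2 (by norm_num)
  have h3' : (√3) ^ 2 = 3 := Real.sq_sqrt (by norm_num)
  have hsn : ∀ z, ((sn h c z : ℝ) : ℂ) =
      ((1 / √3 : ℝ) : ℂ) * (-Complex.I) * (w * f3 h z - (starRingEnd ℂ) (w * f3 h z)) := by
    intro z
    rw [sn_eq, Complex.sub_conj]
    push_cast
    have hI : Complex.I * Complex.I = -1 := Complex.I_mul_I
    linear_combination ((2 : ℂ) * (1 / (√3 : ℂ)) * (((w * f3 h z).im : ℝ) : ℂ)) * hI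
  have hstep : ∀ m : ℤ, ∑ z ∈ S, ((sn h c z : ℝ) : ℂ) * xi z ^ m =
      ((1 / √3 : ℝ) : ℂ) * (-Complex.I) *
        (w * Z m - (starRingEnd ℂ) w * (starRingEnd ℂ) (Z (-m))) := by
    intro m
    rw [hZ]
    simp only
    rw [map_sum, Finset.mul_sum, Finset.mul_sum, ← Finset.sum_sub_distrib, Finset.mul_sum]
    refine Finset.sum_congr rfl (fun z hz => ?_)
    rw [hsn z, map_mul, map_mul, conj_xi_zpow (hS z hz), neg_neg]
    ring
  have hle : ∀ m : ℤ, ‖∑ z ∈ S, ((sn h c z : ℝ) : ℂ) * xi z ^ m‖ ^ 2 ≤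
      2 / 3 * (‖Z m‖ ^ 2 + ‖Z (-m)‖ ^ 2) := by
    intro m
    rw [hstep m, norm_mul, norm_mul, norm_neg, Complex.norm_I, Complex.norm_real, mul_one,
      Real.norm_of_nonneg (by positivity), mul_pow, div_pow, h3', one_pow]
    have h5 : ‖w * Z m - (starRingEnd ℂ) w * (starRingEnd ℂ) (Z (-m))‖ ≤ ‖Z m‖ + ‖Z (-m)‖ := by
      refine (norm_sub_le _ _).trans ?_
      rw [norm_mul, norm_mul, RCLike.norm_conj, RCLike.norm_conj, hw1, one_mul, one_mul]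
    have h6 : ‖w * Z m - (starRingEnd ℂ) w * (starRingEnd ℂ) (Z (-m))‖ ^ 2 ≤
        (‖Z m‖ + ‖Z (-m)‖) ^ 2 := pow_le_pow_left₀ (norm_nonneg _) h5 2
    nlinarith [sq_nonneg (‖Z m‖ - ‖Z (-m)‖)]
  have hrefl : ∑ m ∈ (fr M).erase 0, ‖Z (-m)‖ ^ 2 = ∑ m ∈ (fr M).erase 0, ‖Z m‖ ^ 2 := by
    refine Finset.sum_nbij' (fun m => -m) (fun m => -m) ?_ ?_ ?_ ?_ ?_
    · intro m hm
      exact mem_fr_erase.1 hm
    · intro m hm
      exact mem_fr_erase.1 hm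
    · intro m _
      exact neg_neg m
    · intro m _
      exact neg_neg m
    · intro m _
      rfl
  calc ∑ m ∈ (fr M).erase 0, ‖∑ z ∈ S, ((sn h c z : ℝ) : ℂ) * xi z ^ m‖ ^ 2
      ≤ ∑ m ∈ (fr M).erase 0, 2 / 3 * (‖Z m‖ ^ 2 + ‖Z (-m)‖ ^ 2) :=
        Finset.sum_le_sum (fun m _ => hle m)
    _ = 4 / 3 * ∑ m ∈ (fr M).erase 0, ‖Z m‖ ^ 2 := by
        rw [← Finset.mul_sum, Finset.sum_add_distrib, hrefl]
        ring

end Pool.Agent.NSqC
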