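import Pool.Agent.Lib.NSqC.PairB
import Pool.Agent.Lib.NSqP.Fej
import Pool.Agent.Lib.NSqP.LC

/-!
# STARTB: few bad edges give large Fejer mass

PROOF: as `NSqP.START` (file `NSqP/Start.lean`; copy its private lemmas and change them).
Let `s = pann (N / B) N`.  `fej_quad` with `a = sn` (real), `u = xi`: the weighted sum over the
frequencies is `∑_{z,w} sn z * sn w * K(z, w)`, `K(z, w) = fejK M (xi z * conj (xi w)) ≥ 0`.  As
`sn z * sn w = |sn z| * |sn w|` unless `sn z * sn w < 0`, and then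
`sn z * sn w ≥ |sn z| |sn w| - 2`, this is at least
`∑ |sn z| |sn w| K - 2 ∑_{sn z * sn w < 0} K`.  The first sum is, again by `fej_quad` (with
`a = |sn|`), a sum of nonnegative terms over the frequencies, at least the term of frequency `0`,
which is `(∑ |sn z|) ^ 2`.  For the second sum: near pairs (`‖xi z - xi w‖ ≤ r = Λ / M`): `K ≤ M`, and
`pair_boundB` (as `s ⊆ pann 0 N`); far pairs: `K ≤ 4 / (M ‖xi z - xi w‖ ^ 2)` and `far_sum`.  The
constants: as in `START`, with `Λ = max 1 (1280 C / ε)` or so, and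
`η = ε / (16 (1 + 8 A Λ) ^ 2)`; every constant may be changed freely.
-/

set_option autoImplicit false

namespace Pool.Agent.NSqC

open Real
open Pool.Agent.NSqP
open Pool.Agent.MP484c84Par (ballG mem_ballG crossG dotG)

private lemma start_conj {u : ℂ} (hu : ‖u‖ = 1) : u * (starRingEnd ℂ) u = 1 := by
  rw [Complex.mul_conj']
  rw [hu]; simp

private lemma start_dist {u v : ℂ} (hv : ‖v‖ = 1) :
    ‖u * (starRingEnd ℂ) v - 1‖ = ‖v - u‖ := by
  have h1 : u * (starRingEnd ℂ) v - 1 = (u - v) * (starRingEnd ℂ) v := by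
    rw [sub_mul, start_conj hv]
  rw [h1, norm_mul, RCLike.norm_conj, hv, mul_one, norm_sub_rev]

/-- the quadratic form with real coefficients -/
private lemma start_real {ι : Type} (s : Finset ι) (a : ι → ℝ) (u : ι → ℂ) (M : ℕ) (hM : 1 ≤ M)
    (hu : ∀ i ∈ s, ‖u i‖ = 1) :
    ∑ m ∈ fr M, (1 - |(m : ℝ)| / M) * ‖∑ i ∈ s, ((a i : ℝ) : ℂ) * u i ^ m‖ ^ 2 =
      ∑ i ∈ s, ∑ j ∈ s, a i * a j * fejK M (u i * (starRingEnd ℂ) (u j)) := by
  rw [fej_quad s (fun i => ((a i : ℝ) : ℂ)) u M hM hu, Complex.re_sum]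
  refine Finset.sum_congr rfl fun i _ => ?_
  rw [Complex.re_sum]
  refine Finset.sum_congr rfl fun j _ => ?_
  rw [Complex.conj_ofReal, ← Complex.ofReal_mul, ← Complex.ofReal_mul, Complex.ofReal_re]

/-- the term of frequency zero -/
private lemma start_sum_ge {ι : Type} (s : Finset ι) (a : ι → ℝ) (u : ι → ℂ) (M : ℕ) (hM : 1 ≤ M)
    (hu : ∀ i ∈ s, ‖u i‖ = 1) :
    (∑ i ∈ s, a i) ^ 2 ≤
      ∑ i ∈ s, ∑ j ∈ s, a i * a j * fejK M (u i * (starRingEnd ℂ) (u j)) := by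
  rw [← start_real s a u M hM hu]
  have hM0 : (0 : ℝ) < M := by exact_mod_cast hM
  have h3 : (∑ i ∈ s, a i) ^ 2 = (1 - |((0 : ℤ) : ℝ)| / M) *
      ‖∑ i ∈ s, ((a i : ℝ) : ℂ) * u i ^ (0 : ℤ)‖ ^ 2 := by
    have h4 : ∑ i ∈ s, ((a i : ℝ) : ℂ) * u i ^ (0 : ℤ) = ((∑ i ∈ s, a i : ℝ) : ℂ) := by
      push_cast
      exact Finset.sum_congr rfl fun i _ => by rw [zpow_zero, mul_one]
    rw [h4, Complex.norm_real, Real.norm_eq_abs, sq_abs]
    simp
  rw [h3]
  refine Finset.single_le_sum (f := fun m : ℤ => (1 - |(m : ℝ)| / M) *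
    ‖∑ i ∈ s, ((a i : ℝ) : ℂ) * u i ^ m‖ ^ 2) ?_ ?_
  · intro m hm
    rw [mem_fr] at hm
    have h4 : |(m : ℝ)| < M := by exact_mod_cast hm
    have h5 : |(m : ℝ)| / M ≤ 1 := (div_le_one hM0).2 h4.le
    exact mul_nonneg (by linarith) (by positivity)
  · rw [mem_fr]; simp; omega

/-- the abstract inequality -/
private lemma start_main (h : ℕ → ZMod 3) (c : ZMod 3) (s : Finset GaussianInt) (M : ℕ)
    (hM : 1 ≤ M) (hs : ∀ z ∈ s, z ≠ 0) :
    (∑ z ∈ s, |sn h c z|) ^ 2 - 2 * ∑ z ∈ s, ∑ w ∈ s,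
        (if sn h c z * sn h c w < 0 then fejK M (xi z * (starRingEnd ℂ) (xi w)) else 0) ≤
      ∑ m ∈ fr M, (1 - |(m : ℝ)| / M) * ‖∑ z ∈ s, ((sn h c z : ℝ) : ℂ) * xi z ^ m‖ ^ 2 := by
  have hu : ∀ z ∈ s, ‖xi z‖ = 1 := fun z hz => norm_xi (hs z hz)
  rw [start_real s (sn h c) xi M hM hu]
  have h3 := start_sum_ge s (fun z => |sn h c z|) xi M hM hu
  have h1 : ∑ z ∈ s, ∑ w ∈ s, (|sn h c z| * |sn h c w| * fejK M (xi z * (starRingEnd ℂ) (xi w)) -
        2 * (if sn h c z * sn h c w < 0 then fejK M (xi z * (starRingEnd ℂ) (xi w)) else 0)) ≤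
      ∑ z ∈ s, ∑ w ∈ s, sn h c z * sn h c w * fejK M (xi z * (starRingEnd ℂ) (xi w)) := by
    refine Finset.sum_le_sum fun z _ => Finset.sum_le_sum fun w _ => ?_
    have hK := fejK_nonneg M (xi z * (starRingEnd ℂ) (xi w))
    have ha : |sn h c z| * |sn h c w| = |sn h c z * sn h c w| := (abs_mul _ _).symm
    have hb : |sn h c z| * |sn h c w| ≤ 1 :=
      mul_le_one₀ (abs_sn_le h c z) (abs_nonneg _) (abs_sn_le h c w)
    by_cases hn : sn h c z * sn h c w < 0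
    · rw [if_pos hn]
      have hc : sn h c z * sn h c w = -(|sn h c z| * |sn h c w|) := by
        rw [ha, abs_of_neg hn, neg_neg]
      rw [hc]
      nlinarith
    · rw [if_neg hn, mul_zero, sub_zero, ha, abs_of_nonneg (not_lt.1 hn)]
  have h2 : ∑ z ∈ s, ∑ w ∈ s, (|sn h c z| * |sn h c w| * fejK M (xi z * (starRingEnd ℂ) (xi w)) -
        2 * (if sn h c z * sn h c w < 0 then fejK M (xi z * (starRingEnd ℂ) (xi w)) else 0)) =
      ∑ z ∈ s, ∑ w ∈ s, |sn h c z| * |sn h c w| * fejK M (xi z * (starRingEnd ℂ) (xi w)) -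
        2 * ∑ z ∈ s, ∑ w ∈ s,
          (if sn h c z * sn h c w < 0 then fejK M (xi z * (starRingEnd ℂ) (xi w)) else 0) := by
    simp only [Finset.sum_sub_distrib, Finset.mul_sum]
  rw [h2] at h1
  linarith

open Classical in
/-- near and far pairs -/
private lemma start_split (h : ℕ → ZMod 3) (c : ZMod 3) (s : Finset GaussianInt) (M : ℕ)
    (hM : 1 ≤ M) (hs : ∀ z ∈ s, z ≠ 0) (r : ℝ) (hr : 0 ≤ r) (D : ℝ)
    (hfar : ∀ z ∈ s, ∑ w ∈ s.filter (fun w => r < ‖xi w - xi z‖), 1 / ‖xi w - xi z‖ ^ 2 ≤ D) :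
    ∑ z ∈ s, ∑ w ∈ s,
      (if sn h c z * sn h c w < 0 then fejK M (xi z * (starRingEnd ℂ) (xi w)) else 0) ≤
      M * (((s ×ˢ s).filter
        (fun q => ‖xi q.1 - xi q.2‖ ≤ r ∧ sn h c q.1 * sn h c q.2 < 0)).card : ℝ) +
        s.card * (4 / M * D) := by
  have hM0 : (0 : ℝ) < M := by exact_mod_cast hM
  have hu : ∀ z ∈ s, ‖xi z‖ = 1 := fun z hz => norm_xi (hs z hz)
  have h1 : ∀ z ∈ s, ∀ w ∈ s,
      (if sn h c z * sn h c w < 0 then fejK M (xi z * (starRingEnd ℂ) (xi w)) else 0) ≤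
      (if ‖xi z - xi w‖ ≤ r ∧ sn h c z * sn h c w < 0 then (M : ℝ) else 0) +
        (if r < ‖xi w - xi z‖ then 4 / M * (1 / ‖xi w - xi z‖ ^ 2) else 0) := by
    intro z hz w hw
    have hun : ‖xi z * (starRingEnd ℂ) (xi w)‖ = 1 := by
      rw [norm_mul, RCLike.norm_conj, hu z hz, hu w hw, one_mul]
    have hnn : (0 : ℝ) ≤ (if r < ‖xi w - xi z‖ then 4 / M * (1 / ‖xi w - xi z‖ ^ 2) else 0) := by
      split_ifs
      · positivity
      · exact le_rfl
    by_cases hF : sn h c z * sn h c w < 0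
    · rw [if_pos hF]
      by_cases hn : ‖xi z - xi w‖ ≤ r
      · rw [if_pos ⟨hn, hF⟩]
        have := fejK_le M hun
        linarith
      · have hn' : r < ‖xi w - xi z‖ := by
          rw [norm_sub_rev]; exact not_le.1 hn
        rw [if_neg (fun h => hn h.1), if_pos hn', zero_add]
        have hne : xi z * (starRingEnd ℂ) (xi w) ≠ 1 := by
          intro h
          have h2 := start_dist (u := xi z) (hu w hw)
          rw [h, sub_self, norm_zero] at h2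
          rw [← h2] at hn'
          linarith
        refine (fejK_le_far M hun hne).trans (le_of_eq ?_)
        rw [start_dist (hu w hw)]
        rw [div_mul_div_comm, mul_one]
    · rw [if_neg hF, if_neg (fun h => hF h.2), zero_add]
      exact hnn
  have h2 : ∑ z ∈ s, ∑ w ∈ s,
      (if sn h c z * sn h c w < 0 then fejK M (xi z * (starRingEnd ℂ) (xi w)) else 0) ≤
      ∑ z ∈ s, ∑ w ∈ s,
        ((if ‖xi z - xi w‖ ≤ r ∧ sn h c z * sn h c w < 0 then (M : ℝ) else 0) +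
        (if r < ‖xi w - xi z‖ then 4 / M * (1 / ‖xi w - xi z‖ ^ 2) else 0)) :=
    Finset.sum_le_sum fun z hz => Finset.sum_le_sum fun w hw => h1 z hz w hw
  refine h2.trans ?_
  simp only [Finset.sum_add_distrib]
  refine add_le_add (le_of_eq ?_) ?_
  · rw [Finset.card_filter, Nat.cast_sum, Finset.mul_sum, Finset.sum_product]
    refine Finset.sum_congr rfl fun z _ => Finset.sum_congr rfl fun w _ => ?_
    split_ifs <;> simp
  · calc ∑ z ∈ s, ∑ w ∈ s,
          (if r < ‖xi w - xi z‖ then 4 / (M : ℝ) * (1 / ‖xi w - xi z‖ ^ 2) else 0) =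
        ∑ z ∈ s, 4 / (M : ℝ) *
          ∑ w ∈ s.filter (fun w => r < ‖xi w - xi z‖), 1 / ‖xi w - xi z‖ ^ 2 := by
          refine Finset.sum_congr rfl fun z _ => ?_
          rw [Finset.mul_sum, Finset.sum_filter]
      _ ≤ ∑ z ∈ s, 4 / (M : ℝ) * D := Finset.sum_le_sum fun z hz =>
          mul_le_mul_of_nonneg_left (hfar z hz) (by positivity)
      _ = s.card * (4 / M * D) := by rw [Finset.sum_const, nsmul_eq_mul]

theorem STARTB (B : ℕ) (hB : 1 ≤ B) (ε : ℝ) (hε : 0 < ε) (A : ℕ) (hA : 1 ≤ A) :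
    ∃ η : ℝ, 0 < η ∧ ∃ N0 : ℕ, ∀ N : ℕ, N0 ≤ N → ∀ (h : ℕ → ZMod 3) (c : ZMod 3),
      ((BE h c N).card : ℝ) ≤ η * N →
      (∑ z ∈ pann ((N : ℝ) / B) N, |sn h c z|) ^ 2 - ε * (N : ℝ) ^ 2 ≤
        ∑ m ∈ fr ⌊(N : ℝ) / A⌋₊, (1 - |(m : ℝ)| / ⌊(N : ℝ) / A⌋₊) *
          ‖∑ z ∈ pann ((N : ℝ) / B) N, ((sn h c z : ℝ) : ℂ) * xi z ^ m‖ ^ 2 := by
  classical
  obtain ⟨C, hC, hcard⟩ := card_ann_le
  have hA0 : (0 : ℝ) < A := by exact_mod_cast hA
  have hA1 : (1 : ℝ) ≤ A := by exact_mod_cast hA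
  set Λ : ℝ := max 1 (640 * C / ε) with hΛ
  have hΛ1 : 1 ≤ Λ := le_max_left _ _
  have hΛ2 : 640 * C ≤ ε * Λ := by
    have h1 : 640 * C / ε ≤ Λ := le_max_right _ _
    rw [div_le_iff₀ hε] at h1
    linarith
  have hΛ0 : 0 < Λ := by linarith
  set η : ℝ := ε / (8 * (1 + 8 * A * Λ) ^ 2) with hη
  have hη0 : 0 < η := by positivity
  refine ⟨η, hη0, ⌈2 * A * Λ⌉₊, fun N hN h c hbad => ?_⟩
  have hNr : 2 * A * Λ ≤ (N : ℝ) := (Nat.le_ceil _).trans (by exact_mod_cast hN)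
  have hN2 : 2 * (A : ℝ) ≤ N := by nlinarith
  have hN0 : (0 : ℝ) < N := by linarith
  have hN1 : 1 ≤ N := by
    have : 0 < N := by exact_mod_cast hN0
    omega
  have hN1r : (1 : ℝ) ≤ N := by exact_mod_cast hN1
  set M : ℕ := ⌊(N : ℝ) / A⌋₊ with hMdef
  have hMle : (M : ℝ) ≤ N := by
    refine (Nat.floor_le (by positivity)).trans ?_
    rw [div_le_iff₀ hA0]; nlinarith
  have hMge : (N : ℝ) / (2 * A) ≤ M := by
    have h1 := Nat.lt_floor_add_one ((N : ℝ) / A)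
    have h2 : 1 ≤ (N : ℝ) / (2 * A) := by rw [le_div_iff₀ (by positivity)]; linarith
    have h3 : (N : ℝ) / A = N / (2 * A) + N / (2 * A) := by field_simp; ring
    rw [← hMdef] at h1
    linarith
  have hΛM : Λ ≤ M := by
    refine le_trans ?_ hMge
    rw [le_div_iff₀ (by positivity)]
    linarith
  have hM0 : (0 : ℝ) < M := by linarith
  have hM1 : 1 ≤ M := by
    have : 0 < M := by exact_mod_cast hM0
    omega
  set s : Finset GaussianInt := pann ((N : ℝ) / B) N with hsdef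
  have hNB : (0 : ℝ) ≤ (N : ℝ) / B := by positivity
  have hs1 : s ⊆ pann 0 N := by
    intro z hz
    have h2 := (mem_pann hN0.le).1 hz
    rw [mem_pann hN0.le]
    exact ⟨⟨lt_of_le_of_lt hNB h2.1.1, h2.1.2⟩, h2.2⟩
  have hmem : ∀ z ∈ s, Prim z ∧ (nN z : ℝ) ≤ N := by
    intro z hz
    rw [hsdef, mem_pann hN0.le] at hz
    exact ⟨hz.2, hz.1.2⟩
  have hs0 : ∀ z ∈ s, z ≠ 0 := fun z hz => prim_ne_zero (hmem z hz).1
  have hscard : (s.card : ℝ) ≤ C * N := by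
    refine le_trans ?_ (hcard N hN0.le)
    have h1 : s ⊆ ann 0 N := hs1.trans (pann_subset 0 N)
    exact_mod_cast Finset.card_le_card h1
  set r : ℝ := Λ / M with hr
  have hr0 : 0 ≤ r := by positivity
  have hr1 : r ≤ 1 := by rw [hr, div_le_one hM0]; exact hΛM
  have hMr : (M : ℝ) * r = Λ := by rw [hr]; field_simp
  have hrN : 1 / (N : ℝ) ≤ r := by
    rw [hr, div_le_div_iff₀ hN0 hM0]
    nlinarith
  have hfar : ∀ z ∈ s, ∑ w ∈ s.filter (fun w => r < ‖xi w - xi z‖), 1 / ‖xi w - xi z‖ ^ 2 ≤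
      40 * N / r := by
    intro z hz
    refine far_sum s xi (xi z) N r hN1r hrN (norm_xi (hs0 z hz)) (fun i hi => norm_xi (hs0 i hi)) ?_
    intro i hi j hj hij
    exact prim_sep (hmem i hi).1 (hmem j hj).1 hij hN1r (hmem i hi).2 (hmem j hj).2
  have h1 := start_main h c s M hM1 hs0
  have h2 := start_split h c s M hM1 hs0 r hr0 _ hfar
  have h3 : (((s ×ˢ s).filter
      (fun q => ‖xi q.1 - xi q.2‖ ≤ r ∧ sn h c q.1 * sn h c q.2 < 0)).card : ℝ) ≤
      2 * (1 + 4 * r * N) ^ 2 * (BE h c N).card := by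
    refine le_trans ?_ (pair_boundB h c N hN1 r hr0 hr1)
    have hsub := Finset.filter_subset_filter
      (fun q : GaussianInt × GaussianInt => ‖xi q.1 - xi q.2‖ ≤ r ∧ sn h c q.1 * sn h c q.2 < 0)
      (Finset.product_subset_product hs1 hs1)
    exact_mod_cast Finset.card_le_card hsub
  -- the near pairs
  have h4 : (M : ℝ) * (((s ×ˢ s).filter
      (fun q => ‖xi q.1 - xi q.2‖ ≤ r ∧ sn h c q.1 * sn h c q.2 < 0)).card : ℝ) ≤
      ε / 4 * (N : ℝ) ^ 2 := by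
    have h5 : 1 + 4 * r * N ≤ 1 + 8 * A * Λ := by
      have h6 : (N : ℝ) ≤ 2 * A * M := by
        rw [div_le_iff₀ (by positivity)] at hMge
        linarith
      have h7 : r * N ≤ 2 * A * Λ := by
        calc r * N ≤ r * (2 * A * M) := mul_le_mul_of_nonneg_left h6 hr0
          _ = 2 * A * (M * r) := by ring
          _ = 2 * A * Λ := by rw [hMr]
      linarith
    have h6 : 2 * (1 + 4 * r * N) ^ 2 ≤ 2 * (1 + 8 * A * Λ) ^ 2 :=
      mul_le_mul_of_nonneg_left (pow_le_pow_left₀ (by positivity) h5 2) (by norm_num)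
    calc (M : ℝ) * (((s ×ˢ s).filter
          (fun q => ‖xi q.1 - xi q.2‖ ≤ r ∧ sn h c q.1 * sn h c q.2 < 0)).card : ℝ)
        ≤ N * (2 * (1 + 8 * A * Λ) ^ 2 * (η * N)) := by
          refine mul_le_mul hMle (h3.trans ?_) (Nat.cast_nonneg _) hN0.le
          exact mul_le_mul h6 hbad (Nat.cast_nonneg _) (by positivity)
      _ = ε / 4 * (N : ℝ) ^ 2 := by
          rw [hη]; field_simp; ring
  have h5 : (s.card : ℝ) * (4 / M * (40 * N / r)) ≤ ε / 4 * (N : ℝ) ^ 2 := by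
    have h6 : (4 : ℝ) / M * (40 * N / r) = 160 * N / Λ := by
      rw [div_mul_div_comm, hMr]; ring
    rw [h6]
    calc (s.card : ℝ) * (160 * N / Λ) ≤ C * N * (160 * N / Λ) :=
          mul_le_mul_of_nonneg_right hscard (by positivity)
      _ = (160 * C / Λ) * (N : ℝ) ^ 2 := by ring
      _ ≤ ε / 4 * (N : ℝ) ^ 2 := by
          refine mul_le_mul_of_nonneg_right ?_ (by positivity)
          rw [div_le_iff₀ hΛ0]
          linarith
  linarith

end Pool.Agent.NSqC
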