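import Pool.Agent.Lib.NSqC.GkB
import Pool.Agent.Lib.LogCh.HQp
import Pool.Agent.Lib.LogCh.HWy

/-!
# SUPB: the L-functions of `f ξ ^ m`, `f ^ k = 1`, `m ≠ 0`, are small for `|t| ≤ (log x) ^ 2`

PROOF.  `σ = 1 + 1 / log x`, `g = gk f m H v` (`gk_GM`).  By `LB1`, `re_bP`:
`‖L(g)‖ ≤ C exp (QP (re tw t g) σ)`.  For `IsPi z` put `W = tw t (f ξ^m) z`, of norm one
(`f z ^ k = 1`, `norm_xi_zpow`, `|n ^ (-it)| = 1`), `W ^ k = tw (k t) (ξ ^ (k m)) z`, and
`1 - re (W ^ k) ≤ k ^ 2 (1 - re W)` (`W = exp (i φ)`, `1 - cos (k φ) ≤ k ^ 2 (1 - cos φ)` from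
`|sin (k x)| ≤ k |sin x|`; or by induction on `k` from `‖W^k - 1‖ ≤ k ‖W - 1‖`, as
`‖W - 1‖ ^ 2 = 2 (1 - re W)` and the same for `W ^ k`).  By `gk_pi`,
`re (tw t g z) ≤ 1 - (1 / k ^ 2) (1 - re (W ^ k)) + [z ∈ blk H v]` (on the block the left side is `0`
and `(1/k^2)(1 - re W^k) ≤ 2`, so use `2 [z ∈ blk]` instead).  `QP` of the indicator of the block
is `≤ ∑_{z ∈ blk} 1 / nN z = sv H v ≤ 4` (`sv_le`, file `NSqP/PiF.lean` or wherever it is; any bound
for one block `≤ C` is fine).  So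
`QP (re tw t g) σ ≤ QP 1 σ - (1/k^2) (QP 1 σ - QP (re tw (kt) ξ^(km)) σ) + 8`
and `QP 1 σ = log log x + O(1)` (`QP_one`), `QP (re tw (kt) ξ^(km)) σ ≤ log (C ‖L(ξ^(km))(σ + i k t)‖)`
(`LB2` for `xi_GM`, `re_bP`), `‖L(ξ^(km))‖ ≤ θ log x` by `Lxi_small hW θ` since
`0 < |k m| ≤ k x ^ 3 ≤ x ^ 4`, `|k t| ≤ k (log x) ^ 2 ≤ (log x) ^ 3` for `x` large.  Hence
`‖L(g)‖ ≤ C' log x (C'' θ) ^ (1/k^2) ≤ δ log x` for suitable `θ`.  (The cast of `σ + i k t`:
`((k * t : ℝ) : ℂ)`.)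
-/

set_option autoImplicit false

namespace Pool.Agent.NSqC

open Real
open Pool.Agent.NSqP
open Pool.Agent.LogCh.HG
open Pool.Agent.MP484c84Par (ballG mem_ballG crossG dotG)

private lemma sub_norm_tw {f : GaussianInt → ℂ} {z : GaussianInt} (hz : z ≠ 0) (t : ℝ) :
    ‖tw t f z‖ = ‖f z‖ := by
  unfold tw
  have hn : 0 < nN z := nN_pos hz
  rw [norm_mul]
  have : ‖((nN z : ℕ) : ℂ) ^ (-(t : ℂ) * Complex.I)‖ = 1 := by
    rw [Complex.norm_natCast_cpow_of_pos hn]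
    simp
  rw [this, mul_one]

private lemma sub_QP_blk (H v : ℕ) (hH : 1 ≤ H) {σ : ℝ} (hσ : 1 < σ) :
    QP (fun z => if z ∈ blk H v then 1 else 0) σ ≤ 4 := by
  classical
  unfold QP
  have h1 : ∑' n : ℕ, (∑ z ∈ sphP n, (if z ∈ blk H v then (1 : ℝ) else 0)) / (n : ℝ) ^ σ =
      ∑ n ∈ (blk H v).image nN,
        (∑ z ∈ sphP n, (if z ∈ blk H v then (1 : ℝ) else 0)) / (n : ℝ) ^ σ := by
    apply tsum_eq_sum
    intro n hn
    rw [Finset.sum_eq_zero, zero_div]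
    intro z hz
    rw [if_neg]
    intro hzb
    exact hn (Finset.mem_image.2 ⟨z, hzb, (mem_sphP.1 hz).1⟩)
  rw [h1]
  have h2 : ∀ n ∈ (blk H v).image nN,
      (∑ z ∈ sphP n, (if z ∈ blk H v then (1 : ℝ) else 0)) / (n : ℝ) ^ σ ≤
      ∑ z ∈ (blk H v).filter (fun z => nN z = n), 1 / (nN z : ℝ) := by
    intro n hn
    obtain ⟨w, hw, hwn⟩ := Finset.mem_image.1 hn
    have hn1 : (1 : ℝ) ≤ n := by
      have := (mem_blk.1 hw).1.2.2.1.one_lt
      rw [hwn] at this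
      exact_mod_cast this.le
    have h3 : ∑ z ∈ sphP n, (if z ∈ blk H v then (1 : ℝ) else 0) =
        ((blk H v).filter (fun z => nN z = n)).card := by
      rw [← Finset.sum_filter, Finset.sum_const, nsmul_eq_mul, mul_one]
      congr 2
      ext z
      rw [Finset.mem_filter, Finset.mem_filter, mem_sphP]
      constructor
      · rintro ⟨⟨a, b⟩, c⟩
        exact ⟨c, a⟩
      · rintro ⟨c, a⟩
        exact ⟨⟨a, (mem_blk.1 c).1⟩, c⟩
    have h4 : ∑ z ∈ (blk H v).filter (fun z => nN z = n), 1 / (nN z : ℝ) =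
        ((blk H v).filter (fun z => nN z = n)).card * (1 / (n : ℝ)) := by
      rw [Finset.sum_congr rfl (g := fun _ => 1 / (n : ℝ)), Finset.sum_const, nsmul_eq_mul]
      intro z hz
      rw [(Finset.mem_filter.1 hz).2]
    rw [h3, h4, div_eq_mul_one_div]
    apply mul_le_mul_of_nonneg_left _ (Nat.cast_nonneg _)
    apply one_div_le_one_div_of_le (by linarith)
    calc (n : ℝ) = (n : ℝ) ^ (1 : ℝ) := (Real.rpow_one _).symm
      _ ≤ (n : ℝ) ^ σ := Real.rpow_le_rpow_of_exponent_le hn1 hσ.le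
  refine (Finset.sum_le_sum h2).trans ?_
  rw [Finset.sum_fiberwise_of_maps_to (fun z hz => Finset.mem_image_of_mem _ hz)]
  have h5 := sv_le hH v
  unfold sv at h5
  refine h5.trans ?_
  have h6 : (1 : ℝ) / H ≤ 1 := by
    have : (1 : ℝ) ≤ H := by exact_mod_cast hH
    rw [div_le_one (by linarith)]
    exact this
  have h7 : exp (-((v : ℝ) / H)) ≤ 1 := by
    apply Real.exp_le_one_iff.2
    have : (0 : ℝ) ≤ (v : ℝ) / H := by positivity
    linarith
  linarith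

private lemma sub_re_le {w : ℂ} (h : ‖w‖ ≤ 1) : |w.re| ≤ 1 :=
  (Complex.abs_re_le_norm w).trans h

private lemma sub_pow_sub (u : ℂ) (hu : ‖u‖ = 1) (n : ℕ) : ‖u ^ n - 1‖ ≤ n * ‖u - 1‖ := by
  induction n with
  | zero => simp
  | succ n ih =>
    have h : u ^ (n + 1) - 1 = u * (u ^ n - 1) + (u - 1) := by ring
    rw [h]
    refine (norm_add_le _ _).trans ?_
    rw [norm_mul, hu, one_mul]
    push_cast
    linarith

private lemma sub_one_sub_re {u : ℂ} (hu : ‖u‖ = 1) : 1 - u.re = ‖u - 1‖ ^ 2 / 2 := by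
  have h1 : u.re ^ 2 + u.im ^ 2 = 1 := by
    have := Complex.sq_norm u
    rw [hu, Complex.normSq_apply] at this
    nlinarith
  rw [Complex.sq_norm, Complex.normSq_apply]
  simp only [Complex.sub_re, Complex.sub_im, Complex.one_re, Complex.one_im]
  nlinarith

private lemma sub_pt {W : ℂ} (hW : ‖W‖ = 1) (k : ℕ) :
    1 - (W ^ k).re ≤ (k : ℝ) ^ 2 * (1 - W.re) := by
  have h1 := sub_pow_sub W hW k
  have hWn : ‖W ^ k‖ = 1 := by rw [norm_pow, hW, one_pow]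
  rw [sub_one_sub_re hWn, sub_one_sub_re hW]
  have h3 := pow_le_pow_left₀ (norm_nonneg _) h1 2
  nlinarith

theorem SUPB (hW : W1AStmt) (k : ℕ) (hk : 1 ≤ k) (δ : ℝ) (hδ : 0 < δ) : ∃ x0 : ℝ, ∀ x : ℝ,
    x0 ≤ x → ∀ f : GaussianInt → ℂ, CMC f → (∀ z, z ≠ 0 → f z ^ k = 1) → ∀ m : ℤ, m ≠ 0 →
    |(m : ℝ)| ≤ x ^ 3 → ∀ H v : ℕ, 1 ≤ H → f gI * Complex.I ^ m = 1 → ∀ t : ℝ,
    |t| ≤ (log x) ^ 2 →
    ‖LSeries (aG (gk f m H v)) (((1 + 1 / log x : ℝ) : ℂ) + (t : ℂ) * Complex.I)‖ ≤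
      δ * log x := by
  classical
  obtain ⟨C1, hC1, hLB1⟩ := LB1
  obtain ⟨C2, hC2, hLB2⟩ := LB2
  obtain ⟨C3, hC3, hone⟩ := QP_one
  have hkr : (1 : ℝ) ≤ k := by exact_mod_cast hk
  have hk0 : (0 : ℝ) < k := by linarith
  -- the final constant: `C1 exp (C3 + 8) exp (-(log (1/(C2 θ)) - C3) / k^2) ≤ δ`
  set D : ℝ := C1 * exp (C3 + 8) * exp (C3 / (k : ℝ) ^ 2) with hD
  have hD0 : 0 < D := by positivity
  set θ : ℝ := (δ / D) ^ (k ^ 2) / C2 with hθdef
  have hθ : 0 < θ := by positivity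
  have hθlog : log (C2 * θ) / (k : ℝ) ^ 2 = log (δ / D) := by
    have e1 : C2 * θ = (δ / D) ^ (k ^ 2) := by
      rw [hθdef]; field_simp
    rw [e1, Real.log_pow]
    push_cast
    field_simp
  obtain ⟨x1, hx1⟩ := Lxi_small hW θ hθ
  have ev : ∀ᶠ x : ℝ in Filter.atTop, x1 ≤ x ∧ (k : ℝ) ≤ x ∧ 1 ≤ log x ∧ (k : ℝ) ≤ log x := by
    have l0 := Real.tendsto_log_atTop
    filter_upwards [Filter.eventually_ge_atTop x1, Filter.eventually_ge_atTop (k : ℝ),
      l0.eventually_ge_atTop 1, l0.eventually_ge_atTop (k : ℝ)] with x h1 h2 h3 h4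
    exact ⟨h1, h2, h3, h4⟩
  obtain ⟨x0, hx0⟩ := Filter.eventually_atTop.1 ev
  refine ⟨x0, fun x hx f hf hfk m hm0 hm H v hH hu t ht => ?_⟩
  obtain ⟨h1, h2, h3, h4⟩ := hx0 x hx
  have hlx : 0 < log x := by linarith
  have hxp : 0 < x := by linarith
  set σ : ℝ := 1 + 1 / log x with hσdef
  have hσ1 : 1 < σ := by
    have : 0 < 1 / log x := by positivity
    linarith
  have hσ2 : σ ≤ 2 := by
    have : 1 / log x ≤ 1 := by
      rw [div_le_one hlx]; exact h3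
    linarith
  have hσm : σ - 1 = 1 / log x := by rw [hσdef]; ring
  have hinv : 1 / (σ - 1) = log x := by rw [hσm, one_div_one_div]
  have hg := gk_GM hf hfk m H v hu
  have hg' := xi_GM hfk m hu
  have hfn : ∀ z, z ≠ 0 → ‖f z‖ = 1 := by
    intro z hz
    have h5 := congrArg norm (hfk z hz)
    rw [norm_pow, norm_one] at h5
    exact (pow_eq_one_iff_of_nonneg (norm_nonneg _) (by omega)).1 h5
  have hgn : ∀ z, IsPi z → ‖gk f m H v z‖ ≤ 1 := fun z hz => hg.norm_le z hz.ne_zero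
  have hgn' : ∀ z, IsPi z → ‖(fun z => xi z ^ ((k : ℤ) * m)) z‖ ≤ 1 :=
    fun z hz => hg'.norm_le z hz.ne_zero
  have hs1 : 1 < ((σ : ℂ) + (t : ℂ) * Complex.I).re := by simp [hσ1]
  have hs2 : 1 < ((σ : ℂ) + ((k * t : ℝ) : ℂ) * Complex.I).re := by
    rw [Complex.add_re, Complex.ofReal_re, Complex.mul_I_re, Complex.ofReal_im, neg_zero,
      add_zero]
    exact hσ1
  -- the twisted L-function
  have hL : ‖LSeries (aG (fun z => xi z ^ ((k : ℤ) * m)))
      ((σ : ℂ) + ((k * t : ℝ) : ℂ) * Complex.I)‖ ≤ θ * log x := by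
    have hm1 : ((k : ℤ) * m) ≠ 0 := by
      have : (k : ℤ) ≠ 0 := by exact_mod_cast (by omega : k ≠ 0)
      positivity
    apply hx1 x h1 ((k : ℤ) * m) hm1
    · push_cast
      rw [abs_mul, Nat.abs_cast]
      calc (k : ℝ) * |(m : ℝ)| ≤ x * x ^ 3 := by gcongr
        _ = x ^ 4 := by ring
    · rw [abs_mul, Nat.abs_cast]
      calc (k : ℝ) * |t| ≤ log x * (log x) ^ 2 := by gcongr
        _ = (log x) ^ 3 := by ring
  set G : GaussianInt → ℝ := fun z => (tw (k * t) (fun z => xi z ^ ((k : ℤ) * m)) z).re with hG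
  set F1 : GaussianInt → ℝ := fun z => (tw t (gk f m H v) z).re with hF1
  set F4 : GaussianInt → ℝ := fun z => if z ∈ blk H v then 1 else 0 with hF4
  have hGup : QP G σ ≤ log (C2 * (θ * log x)) := by
    rw [Real.le_log_iff_exp_le (by positivity)]
    have h5 := hLB2 _ hg' _ hs2
    rw [re_bP hgn' hσ1] at h5
    exact h5.trans (mul_le_mul_of_nonneg_left hL hC2.le)
  have hGb : ∀ z, IsPi z → |G z| ≤ 1 := fun z hz =>
    sub_re_le (by rw [sub_norm_tw hz.ne_zero]; exact hgn' z hz)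
  have hF1b : ∀ z, IsPi z → |F1 z| ≤ 1 := fun z hz =>
    sub_re_le (by rw [sub_norm_tw hz.ne_zero]; exact hgn z hz)
  have hF4b : ∀ z, IsPi z → |F4 z| ≤ 1 := by
    intro z _
    simp only [hF4]
    split_ifs <;> norm_num
  have h1b : ∀ z, IsPi z → |(fun _ : GaussianInt => (1 : ℝ)) z| ≤ 1 := by
    intro z _; norm_num
  -- pointwise: `k² F1 + 1 ≤ k² + G + 2 k² F4`
  have hk2 : (1 : ℝ) ≤ (k : ℝ) ^ 2 := one_le_pow₀ hkr
  have hpt : ∀ z, IsPi z → (fun z => (k : ℝ) ^ 2 * F1 z) z + (fun _ : GaussianInt => (1 : ℝ)) z ≤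
      (fun z => (fun z => (k : ℝ) ^ 2 * (fun _ : GaussianInt => (1 : ℝ)) z) z + G z) z +
        (fun z => 2 * (k : ℝ) ^ 2 * F4 z) z := by
    intro z hz
    have hz0 := hz.ne_zero
    simp only
    have hgz := gk_pi f m H v hz
    by_cases hb : z ∈ blk H v
    · rw [if_pos hb] at hgz
      have e1 : F1 z = 0 := by
        simp only [hF1, tw, hgz, zero_mul, Complex.zero_re]
      have e4 : F4 z = 1 := by simp only [hF4, if_pos hb]
      have := (abs_le.1 (hGb z hz)).1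
      rw [e1, e4]
      nlinarith
    · rw [if_neg hb] at hgz
      have e4 : F4 z = 0 := by simp only [hF4, if_neg hb]
      rw [e4]
      set W : ℂ := tw t (gk f m H v) z with hWdef
      have hWn : ‖W‖ = 1 := by
        rw [hWdef, sub_norm_tw hz0, hgz, norm_mul, norm_xi_zpow hz0, mul_one, hfn z hz0]
      have hWK : W ^ k = tw (k * t) (fun z => xi z ^ ((k : ℤ) * m)) z := by
        rw [hWdef]
        unfold tw
        rw [hgz, mul_pow, mul_pow, hfk z hz0]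
        have e2 : (xi z ^ m) ^ k = xi z ^ ((k : ℤ) * m) := by
          rw [← zpow_natCast, ← zpow_mul, mul_comm]
        have e3 : (((nN z : ℕ) : ℂ) ^ (-(t : ℂ) * Complex.I)) ^ k =
            ((nN z : ℕ) : ℂ) ^ (-((k * t : ℝ) : ℂ) * Complex.I) := by
          rw [← Complex.cpow_nat_mul]
          congr 1
          push_cast
          ring
        rw [e2, e3, one_mul]
      have h5 := sub_pt hWn k
      rw [hWK] at h5
      have e6 : F1 z = W.re := rfl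
      have e7 : G z = (tw (k * t) (fun z => xi z ^ ((k : ℤ) * m)) z).re := rfl
      rw [e6, e7]
      linarith
  set B : ℝ := 4 * (k : ℝ) ^ 2 with hB
  have hB1 : (1 : ℝ) ≤ B := by rw [hB]; linarith
  have hkF1 : ∀ z, IsPi z → |(fun z => (k : ℝ) ^ 2 * F1 z) z| ≤ B := by
    intro z hz
    simp only
    rw [abs_mul, abs_of_nonneg (by positivity : (0 : ℝ) ≤ (k : ℝ) ^ 2)]
    have := hF1b z hz
    rw [hB]
    nlinarith
  have hk1 : ∀ z, IsPi z → |(fun z => (k : ℝ) ^ 2 * (fun _ : GaussianInt => (1 : ℝ)) z) z| ≤ B := by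
    intro z _
    simp only
    rw [abs_mul, abs_of_nonneg (by positivity : (0 : ℝ) ≤ (k : ℝ) ^ 2), abs_one, hB]
    linarith
  have hkF4 : ∀ z, IsPi z → |(fun z => 2 * (k : ℝ) ^ 2 * F4 z) z| ≤ B := by
    intro z hz
    simp only
    rw [abs_mul, abs_of_nonneg (by positivity : (0 : ℝ) ≤ 2 * (k : ℝ) ^ 2)]
    have := hF4b z hz
    rw [hB]
    nlinarith
  have h1B : ∀ z, IsPi z → |(fun _ : GaussianInt => (1 : ℝ)) z| ≤ B :=
    fun z hz => (h1b z hz).trans hB1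
  have hGB : ∀ z, IsPi z → |G z| ≤ B := fun z hz => (hGb z hz).trans hB1
  have hmid : ∀ z, IsPi z →
      |(fun z => (fun z => (k : ℝ) ^ 2 * (fun _ : GaussianInt => (1 : ℝ)) z) z + G z) z| ≤
        2 * B := by
    intro z hz
    exact (abs_add_le _ _).trans (by linarith [hk1 z hz, hGB z hz])
  have hkF4' : ∀ z, IsPi z → |(fun z => 2 * (k : ℝ) ^ 2 * F4 z) z| ≤ 2 * B :=
    fun z hz => (hkF4 z hz).trans (by linarith)
  have hmono := QP_mono (B := 4 * B)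
    (F := fun z => (fun z => (k : ℝ) ^ 2 * F1 z) z + (fun _ : GaussianInt => (1 : ℝ)) z)
    (G := fun z => (fun z => (fun z => (k : ℝ) ^ 2 * (fun _ : GaussianInt => (1 : ℝ)) z) z +
      G z) z + (fun z => 2 * (k : ℝ) ^ 2 * F4 z) z)
    (fun z hz => (abs_add_le _ _).trans (by linarith [hkF1 z hz, h1B z hz]))
    (fun z hz => (abs_add_le _ _).trans (by linarith [hmid z hz, hkF4' z hz])) hpt hσ1
  rw [QP_add hkF1 h1B hσ1, QP_add hmid hkF4' hσ1, QP_add hk1 hGB hσ1, QP_const, QP_const,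
    QP_const] at hmono
  have hblk : QP F4 σ ≤ 4 := sub_QP_blk H v hH hσ1
  have hQ := abs_le.1 (hone σ hσ1 hσ2)
  rw [hinv] at hQ
  -- the logarithm
  have hlogG : log (C2 * (θ * log x)) = log (C2 * θ) + log (log x) := by
    rw [← mul_assoc, Real.log_mul (by positivity) (by positivity)]
  have hF1up : QP F1 σ ≤ log (log x) + (C3 + 8) + C3 / (k : ℝ) ^ 2 + log (δ / D) := by
    have e1 : (k : ℝ) ^ 2 * QP F1 σ ≤ (k : ℝ) ^ 2 * (log (log x) + (C3 + 8)) + C3 +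
        log (C2 * θ) := by
      have e2 : (k : ℝ) ^ 2 * QP (fun _ => 1) σ ≤ (k : ℝ) ^ 2 * (log (log x) + C3) := by
        apply mul_le_mul_of_nonneg_left _ (by positivity)
        linarith [hQ.2]
      have e3 : 2 * (k : ℝ) ^ 2 * QP F4 σ ≤ 2 * (k : ℝ) ^ 2 * 4 :=
        mul_le_mul_of_nonneg_left hblk (by positivity)
      rw [hlogG] at hGup
      linarith [hQ.1]
    rw [← hθlog]
    have e4 : QP F1 σ ≤ ((k : ℝ) ^ 2 * (log (log x) + (C3 + 8)) + C3 +
        log (C2 * θ)) / (k : ℝ) ^ 2 := by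
      rw [le_div_iff₀ (by positivity)]
      linarith
    refine e4.trans (le_of_eq ?_)
    field_simp
  refine (hLB1 _ hg _ hs1).trans ?_
  rw [re_bP hgn hσ1]
  calc C1 * exp (QP F1 σ) ≤
        C1 * exp (log (log x) + (C3 + 8) + C3 / (k : ℝ) ^ 2 + log (δ / D)) := by gcongr
    _ = δ * log x := by
        rw [Real.exp_add, Real.exp_add, Real.exp_add, Real.exp_log hlx,
          Real.exp_log (by positivity), hD]
        field_simp

end Pool.Agent.NSqC
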